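import Pool.Agent.Lib.MP_a57f33_nt.BZ.Stm

/-!
The explicit chain of matrices: matrix identities.
-/

namespace Pool.Agent.MP_a57f33_nt.BZ

open Matrix

lemma E0_eq (R : Type) [CommRing R] :
    E0 R = !![1, 0, 0, 0; 0, 1, 0, 0; 0, 0, 0, 0; 0, 0, 0, 0] := by
  ext i j; fin_cases i <;> fin_cases j <;> simp [E0, Matrix.diagonal]

lemma E1_eq (R : Type) [CommRing R] :
    E1 R = !![0, 0, 0, 0; 0, 0, 0, 0; 0, 0, 1, 0; 0, 0, 0, 1] := by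
  ext i j; fin_cases i <;> fin_cases j <;> simp [E1, Matrix.diagonal]

variable {F : Type} [Field F]

/-! ### First link -/

def cA1 (P Q R U : F) : Matrix (Fin 3) (Fin 3) F :=
  !![2*(Q+U), -(2*R), 2*P; 0, -(2*P), -(2*P); 0, -(2*R), -(2*R)]
def cB1 (P Q R U : F) : Matrix (Fin 3) (Fin 3) F :=
  !![-(2*P), 0, -(2*P); 2*U, 2*(Q-R), 2*P; 2*U, 0, 2*U]
def cU1 (P Q R U : F) : Matrix (Fin 3) (Fin 4) F :=
  !![Q, Q, -P, P; P, -P, -Q, -Q; R, -R, U, -U]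
def cV1 (P Q R U : F) : Matrix (Fin 4) (Fin 3) F :=
  Q⁻¹ • !![Q+U, -Q-R, P-Q; Q+U, Q-R, P+Q; Q-U, R-Q, Q-P; -Q-U, R-Q, -P-Q]

lemma c1_M (P Q R U : F) (hQ : Q ≠ 0) :
    MH (P+Q+R+U) (P+Q-R-U) (P-Q+R-U) (P-Q-R+U) + (-(P-Q+R-U)) • (1 : Matrix (Fin 4) (Fin 4) F) =
      cV1 P Q R U * cU1 P Q R U := by
  ext i j
  fin_cases i <;> fin_cases j <;>
    simp [MH, cV1, cU1, Matrix.mul_apply, Fin.sum_univ_succ] <;> field_simp <;> ring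

lemma c1_A (P Q R U : F) (hQ : Q ≠ 0) : cU1 P Q R U * E0 F * cV1 P Q R U = cA1 P Q R U := by
  rw [E0_eq]
  ext i j
  fin_cases i <;> fin_cases j <;>
    simp [cV1, cU1, cA1, Matrix.mul_apply, Fin.sum_univ_succ] <;>
    field_simp <;> ring

lemma c1_B (P Q R U : F) (hQ : Q ≠ 0) : cU1 P Q R U * E1 F * cV1 P Q R U = cB1 P Q R U := by
  rw [E1_eq]
  ext i j
  fin_cases i <;> fin_cases j <;>
    simp [cV1, cU1, cB1, Matrix.mul_apply, Fin.sum_univ_succ] <;>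
    field_simp <;> ring

/-! ### Second link -/

def cU2 (P Q R U : F) : Matrix (Fin 3) (Fin 4) F :=
  !![-(2*R), 2*P, -(2*P)-2*Q+2*R, -(2*P);
     -(2*P)-2*Q-2*U, -(2*P), 2*U, 2*P;
     -(2*R), -(2*R)-2*Q-2*U, 2*U, 2*U-2*Q+2*R]
def cV2 (F : Type) [Field F] : Matrix (Fin 4) (Fin 3) F := !![0,1,0; 0,0,1; 1,0,0; 0,0,1]
def cU3 (F : Type) [Field F] : Matrix (Fin 3) (Fin 4) F := !![1,0,0,0; 0,0,1,0; 0,1,0,-1]
def cV3 (P Q R U : F) : Matrix (Fin 4) (Fin 3) F :=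
  !![2*Q-2*P-2*U, 2*U, -(2*P); -(2*R), 2*U, 2*Q-2*R-2*U; -(2*R), 2*Q-2*P+2*R, 2*P;
     -(2*R), 2*U, -(2*R+2*Q+2*U)]
def cA3 (P Q R U : F) : Matrix (Fin 3) (Fin 3) F :=
  !![2*Q-2*P-2*U, 2*U, -(2*P); 0,0,0; -(2*R), 2*U, 2*Q-2*R-2*U]
def cB3 (P Q R U : F) : Matrix (Fin 3) (Fin 3) F :=
  !![0,0,0; -(2*R), 2*Q-2*P+2*R, 2*P; 2*R, -(2*U), 2*R+2*Q+2*U]

lemma c2_A (P Q R U : F) : cA1 P Q R U + (-(2*(Q+U))) • (1 : Matrix (Fin 3) (Fin 3) F) =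
    cU2 P Q R U * E0 F * cV2 F := by
  rw [E0_eq]
  ext i j
  fin_cases i <;> fin_cases j <;>
    simp [cA1, cU2, cV2, Matrix.mul_apply, Fin.sum_univ_succ] <;> ring

lemma c2_B (P Q R U : F) : cB1 P Q R U + (-(2*(Q-R))) • (1 : Matrix (Fin 3) (Fin 3) F) =
    cU2 P Q R U * E1 F * cV2 F := by
  rw [E1_eq]
  ext i j
  fin_cases i <;> fin_cases j <;>
    simp [cB1, cU2, cV2, Matrix.mul_apply, Fin.sum_univ_succ] <;> ring

lemma c2_M (P Q R U : F) :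
    cV2 F * cU2 P Q R U + (4*Q) • (1 : Matrix (Fin 4) (Fin 4) F) = cV3 P Q R U * cU3 F := by
  ext i j
  fin_cases i <;> fin_cases j <;>
    simp [cU2, cV2, cU3, cV3, Matrix.mul_apply, Fin.sum_univ_succ] <;> ring

lemma c3_A (P Q R U : F) : cU3 F * E0 F * cV3 P Q R U = cA3 P Q R U := by
  rw [E0_eq]
  ext i j
  fin_cases i <;> fin_cases j <;>
    simp [cA3, cU3, cV3, Matrix.mul_apply, Fin.sum_univ_succ] <;> ring

lemma c3_B (P Q R U : F) : cU3 F * E1 F * cV3 P Q R U = cB3 P Q R U := by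
  rw [E1_eq]
  ext i j
  fin_cases i <;> fin_cases j <;>
    simp [cB3, cU3, cV3, Matrix.mul_apply, Fin.sum_univ_succ] <;> ring

/-! ### Third link -/

def cU4 (P Q R U : F) : Matrix (Fin 3) (Fin 4) F :=
  !![-(2*P), 2*U, -(2*Q+2*R), 0; 0, 2*U-2*Q, -(2*R), -(2*P); -(2*R), 2*U, 2*R, -(2*U)]
def cV4 (F : Type) [Field F] : Matrix (Fin 4) (Fin 3) F := !![1,0,1; 0,1,0; 1,0,0; 0,1,-1]
def cMT (P Q R U : F) : Matrix (Fin 4) (Fin 4) F :=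
  !![Q-P-R-U, 4*U, -(2*Q), -(2*U); 0, P-Q+R+U, -(2*R), -(2*P);
     -(2*P), 2*U, P-Q-R-U, 0; 2*R, -(2*Q), -(4*R), Q-P+R+U]

lemma c4_A (P Q R U : F) : cA3 P Q R U + (-(2*(Q-U))) • (1 : Matrix (Fin 3) (Fin 3) F) =
    cU4 P Q R U * E0 F * cV4 F := by
  rw [E0_eq]
  ext i j
  fin_cases i <;> fin_cases j <;>
    simp [cA3, cU4, cV4, Matrix.mul_apply, Fin.sum_univ_succ] <;> ring

lemma c4_B (P Q R U : F) : cB3 P Q R U + (-(2*(Q+R))) • (1 : Matrix (Fin 3) (Fin 3) F) =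
    cU4 P Q R U * E1 F * cV4 F := by
  rw [E1_eq]
  ext i j
  fin_cases i <;> fin_cases j <;>
    simp [cB3, cU4, cV4, Matrix.mul_apply, Fin.sum_univ_succ] <;> ring

lemma c4_M (P Q R U : F) :
    cV4 F * cU4 P Q R U + (P+Q+R-U) • (1 : Matrix (Fin 4) (Fin 4) F) = cMT P Q R U := by
  ext i j
  fin_cases i <;> fin_cases j <;>
    simp [cMT, cU4, cV4, Matrix.mul_apply, Fin.sum_univ_succ] <;> ring

/-! ### The tensor product -/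

def cMr (P Q R U : F) : Matrix (Fin 2) (Fin 2) F := !![Q-P-R-U, P+Q+R+U; P+Q-R-U, Q-P+R+U]
def cMq (P Q R U : F) : Matrix (Fin 2) (Fin 2) F := !![-(Q-P-R-U), 2*R; -(2*U), -(Q-P+R+U)]
def ce (F : Type) [Field F] : Matrix (Fin 2) (Fin 2) F := !![1,0;0,0]
def cf (F : Type) [Field F] : Matrix (Fin 2) (Fin 2) F := !![0,0;0,1]

end Pool.Agent.MP_a57f33_nt.BZ
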