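import Pool.Agent.Lib.MP_a57f33_nt.BZ.Chain

/-!
The explicit chain of matrices: tensor product, reindexing.
-/

namespace Pool.Agent.MP_a57f33_nt.BZ

open Matrix

variable {F : Type} [Field F]

def cS {F : Type} [CommRing F] (P Q R U : F) : Matrix (Fin 4) (Fin 4) F :=
  !![4*P*R*(P+Q+R+U), -((P+Q+R+U)*((P+Q-R-U)*(Q-P+R+U)+4*R*U)), 0, 0;
     2*P*(Q-P-R-U)*(P+Q+R+U), 4*P*U*(P+Q+R+U), (P+Q+R+U)*((P-Q)^2-(R-U)^2), 0;
     0, (P+Q-R-U)*((P-Q)^2-(R-U)^2), -(4*P*R*(P+Q-R-U)), 2*P*(P+Q-R-U)*(Q-P+R+U);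
     0, 0, -((P+Q-R-U)*((P+Q+R+U)*(Q-P-R-U)+4*R*U)), -(4*P*U*(P+Q-R-U))]

def cAA (P Q R U : F) : Matrix (Fin 4) (Fin 4) F :=
  !![0, 2*R, P+Q+R+U, 0; 0, Q-P-R-U, 0, P+Q+R+U; 0, 0, -(Q-P-R-U), 2*R; 0, 0, 0, 0]
def cBB (P Q R U : F) : Matrix (Fin 4) (Fin 4) F :=
  !![0, 0, 0, 0; -(2*U), -(Q-P+R+U), 0, 0; P+Q-R-U, 0, Q-P+R+U, 0; 0, P+Q-R-U, -(2*U), 0]

lemma c5_A (P Q R U : F) : cS P Q R U * (E0 F * cMT P Q R U) = cAA P Q R U * cS P Q R U := by
  rw [E0_eq]
  ext i j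
  fin_cases i <;> fin_cases j <;>
    simp [cMT, cS, cAA, Matrix.mul_apply, Fin.sum_univ_succ] <;> ring

lemma c5_B (P Q R U : F) : cS P Q R U * (E1 F * cMT P Q R U) = cBB P Q R U * cS P Q R U := by
  rw [E1_eq]
  ext i j
  fin_cases i <;> fin_cases j <;>
    simp [cMT, cS, cBB, Matrix.mul_apply, Fin.sum_univ_succ] <;> ring

lemma cAA_kron (P Q R U : F) :
    (kroneckerMap (· * ·) (ce F * cMr P Q R U) (1 : Matrix (Fin 2) (Fin 2) F) +
      kroneckerMap (· * ·) (1 : Matrix (Fin 2) (Fin 2) F) (ce F * cMq P Q R U)).submatrix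
        finProdFinEquiv.symm finProdFinEquiv.symm = cAA P Q R U := by
  ext i j
  fin_cases i <;> fin_cases j <;>
    simp [cAA, ce, cMr, cMq, Matrix.mul_apply, Fin.sum_univ_succ, finProdFinEquiv, Fin.divNat,
      Fin.modNat, Matrix.one_apply, Matrix.kroneckerMap_apply]

lemma cBB_kron (P Q R U : F) :
    (kroneckerMap (· * ·) (cf F * cMr P Q R U) (1 : Matrix (Fin 2) (Fin 2) F) +
      kroneckerMap (· * ·) (1 : Matrix (Fin 2) (Fin 2) F) (cf F * cMq P Q R U)).submatrix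
        finProdFinEquiv.symm finProdFinEquiv.symm = cBB P Q R U := by
  ext i j
  fin_cases i <;> fin_cases j <;>
    simp [cBB, cf, cMr, cMq, Matrix.mul_apply, Fin.sum_univ_succ, finProdFinEquiv, Fin.divNat,
      Fin.modNat, Matrix.one_apply, Matrix.kroneckerMap_apply]

lemma SW_congr {M : Type} [AddCommMonoid M] : ∀ (n : ℕ) {f g : List Bool → M},
    (∀ w, w.length = n → f w = g w) → SW n f = SW n g
  | 0, f, g, h => h [] rfl
  | n + 1, f, g, h => by
    simp only [SW]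
    rw [SW_congr n (fun w hw => h (false :: w) (by simp [hw])),
      SW_congr n (fun w hw => h (true :: w) (by simp [hw]))]

lemma ev_nil {S : Type} [Monoid S] (A B : S) : ev A B [] = 1 := rfl

lemma ev_cons {S : Type} [Monoid S] (A B : S) (b : Bool) (w : List Bool) :
    ev A B (b :: w) = cond b B A * ev A B w := by
  simp [ev]

lemma ev_submatrix {R ι κ : Type} [CommRing R] [Fintype ι] [DecidableEq ι] [Fintype κ]
    [DecidableEq κ] (e : κ ≃ ι) (A B : Matrix ι ι R) (w : List Bool) :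
    ev (A.submatrix e e) (B.submatrix e e) w = (ev A B w).submatrix e e := by
  induction w with
  | nil => simp [ev_nil, Matrix.submatrix_one_equiv]
  | cons b w ih =>
    rw [ev_cons, ev_cons, ih]
    cases b <;> simp [Matrix.submatrix_mul_equiv]

lemma T_submatrix {R ι κ : Type} [CommRing R] [Algebra ℚ R] [Fintype ι] [DecidableEq ι] [Fintype κ]
    [DecidableEq κ] (k : List Bool → ℚ) (n : ℕ) (e : κ ≃ ι) (A B : Matrix ι ι R) :
    T k n (A.submatrix e e) (B.submatrix e e) = T k n A B := by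
  unfold T
  apply SW_congr
  intro w _
  rw [ev_submatrix]
  congr 1
  simp only [Matrix.trace, Matrix.diag, Matrix.submatrix_apply]
  exact e.sum_comp (fun i => ev A B w i i)

end Pool.Agent.MP_a57f33_nt.BZ
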