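import Pool.Agent.Lib.MP_a57f33_nt.BZ.Chain2

/-!
The explicit chain of matrices: power traces.
-/

namespace Pool.Agent.MP_a57f33_nt.BZ

open Matrix

variable {F : Type} [Field F]

lemma pw2 (X : Matrix (Fin 2) (Fin 2) F) (a b : F) (h1 : X.trace = a + b)
    (h2 : (X - a • (1 : Matrix _ _ F)) * (X - b • (1 : Matrix _ _ F)) = 0) (n : ℕ) :
    (X ^ n).trace = a ^ n + b ^ n := by
  have key : X * X = (a + b) • X - (a * b) • (1 : Matrix _ _ F) := by
    have : (X - a • (1 : Matrix _ _ F)) * (X - b • (1 : Matrix _ _ F)) =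
        X * X - (a + b) • X + (a * b) • (1 : Matrix _ _ F) := by
      simp only [sub_mul, mul_sub, smul_mul_assoc, mul_smul_comm, one_mul, mul_one, smul_sub, smul_smul,
        add_smul]
      rw [mul_comm b a]
      abel
    rw [this] at h2
    have h3 : X * X = (X * X - (a + b) • X + (a * b) • (1 : Matrix _ _ F)) +
      ((a + b) • X - (a * b) • (1 : Matrix _ _ F)) := by abel
    rw [h3, h2, zero_add]
  induction n using Nat.twoStepInduction with
  | zero => simp; norm_num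
  | one => simpa using h1
  | more n ih1 ih2 =>
    have e : X ^ (n + 2) = (a + b) • X ^ (n + 1) - (a * b) • X ^ n := by
      rw [pow_add, pow_two, key, mul_sub, mul_smul_comm, mul_smul_comm, mul_one, ← pow_succ]
    rw [e, Matrix.trace_sub, Matrix.trace_smul, Matrix.trace_smul, ih1, ih2]
    simp only [smul_eq_mul]
    ring

/-- The value of `W` of a 3×3 pair. -/
lemma W3 (hp : Pw3S) (A B : Matrix (Fin 3) (Fin 3) F) (a b c a' b' c' x y z : F)
    (hA : A.trace = a + b + c) (hA2 : (A * A).trace = a ^ 2 + b ^ 2 + c ^ 2)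
    (hA3 : (A - a • (1 : Matrix _ _ F)) * (A - b • (1 : Matrix _ _ F)) * (A - c • (1 : Matrix _ _ F)) = 0)
    (hB : B.trace = a' + b' + c') (hB2 : (B * B).trace = a' ^ 2 + b' ^ 2 + c' ^ 2)
    (hB3 : (B - a' • (1 : Matrix _ _ F)) * (B - b' • (1 : Matrix _ _ F)) * (B - c' • (1 : Matrix _ _ F)) = 0)
    (hC : (A + B).trace = x + y + z) (hC2 : ((A + B) * (A + B)).trace = x ^ 2 + y ^ 2 + z ^ 2)
    (hC3 : (A + B - x • (1 : Matrix _ _ F)) * (A + B - y • (1 : Matrix _ _ F)) *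
      (A + B - z • (1 : Matrix _ _ F)) = 0) (n : ℕ) :
    W n A B = (x ^ n + y ^ n + z ^ n) - (a ^ n + b ^ n + c ^ n) - (a' ^ n + b' ^ n + c' ^ n) := by
  rw [W, hp F _ _ _ _ hA hA2 hA3, hp F _ _ _ _ hB hB2 hB3, hp F _ _ _ _ hC hC2 hC3]

lemma one3 : (1 : Matrix (Fin 3) (Fin 3) F) = !![1, 0, 0; 0, 1, 0; 0, 0, 1] := by
  ext i j; fin_cases i <;> fin_cases j <;> simp

lemma one4 : (1 : Matrix (Fin 4) (Fin 4) F) = !![1, 0, 0, 0; 0, 1, 0, 0; 0, 0, 1, 0; 0, 0, 0, 1] := by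
  ext i j; fin_cases i <;> fin_cases j <;> simp

lemma W1_eq (hp : Pw3S) (P Q R U : F) (n : ℕ) : W n (cA1 P Q R U) (cB1 P Q R U) =
    ((-2*(P-Q+R-U)) ^ n + (2*(U-R)) ^ n + (-2*(P-Q)) ^ n) - ((2*(Q+U)) ^ n + (-2*(P+R)) ^ n + 0 ^ n) -
      ((2*(Q-R)) ^ n + (2*(U-P)) ^ n + 0 ^ n) := by
  apply W3 hp
  · try rw [one3]
    first
      | (simp [cA1, cB1, cA3, cB3, Matrix.trace, Fin.sum_univ_succ, Matrix.mul_apply]; done)
      | (simp [cA1, cB1, cA3, cB3, Matrix.trace, Fin.sum_univ_succ, Matrix.mul_apply]; ring1)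
  · try rw [one3]
    first
      | (simp [cA1, cB1, cA3, cB3, Matrix.trace, Fin.sum_univ_succ, Matrix.mul_apply]; done)
      | (simp [cA1, cB1, cA3, cB3, Matrix.trace, Fin.sum_univ_succ, Matrix.mul_apply]; ring1)
  · rw [one3]; ext i j; fin_cases i <;> fin_cases j <;>
      simp [cA1, cB1, cA3, cB3, Matrix.mul_apply, Fin.sum_univ_succ, -mul_eq_zero] <;> ring
  · try rw [one3]
    first
      | (simp [cA1, cB1, cA3, cB3, Matrix.trace, Fin.sum_univ_succ, Matrix.mul_apply]; done)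
      | (simp [cA1, cB1, cA3, cB3, Matrix.trace, Fin.sum_univ_succ, Matrix.mul_apply]; ring1)
  · try rw [one3]
    first
      | (simp [cA1, cB1, cA3, cB3, Matrix.trace, Fin.sum_univ_succ, Matrix.mul_apply]; done)
      | (simp [cA1, cB1, cA3, cB3, Matrix.trace, Fin.sum_univ_succ, Matrix.mul_apply]; ring1)
  · rw [one3]; ext i j; fin_cases i <;> fin_cases j <;>
      simp [cA1, cB1, cA3, cB3, Matrix.mul_apply, Fin.sum_univ_succ, -mul_eq_zero] <;> ring
  · try rw [one3]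
    first
      | (simp [cA1, cB1, cA3, cB3, Matrix.trace, Fin.sum_univ_succ, Matrix.mul_apply]; done)
      | (simp [cA1, cB1, cA3, cB3, Matrix.trace, Fin.sum_univ_succ, Matrix.mul_apply]; ring1)
  · try rw [one3]
    first
      | (simp [cA1, cB1, cA3, cB3, Matrix.trace, Fin.sum_univ_succ, Matrix.mul_apply]; done)
      | (simp [cA1, cB1, cA3, cB3, Matrix.trace, Fin.sum_univ_succ, Matrix.mul_apply]; ring1)
  · rw [one3]; ext i j; fin_cases i <;> fin_cases j <;>
      simp [cA1, cB1, cA3, cB3, Matrix.mul_apply, Fin.sum_univ_succ, -mul_eq_zero] <;> ring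

lemma W2_eq (hp : Pw3S) (P Q R U : F) (n : ℕ) :
    W n (cA1 P Q R U + (-(2*(Q+U))) • (1 : Matrix (Fin 3) (Fin 3) F))
      (cB1 P Q R U + (-(2*(Q-R))) • (1 : Matrix (Fin 3) (Fin 3) F)) =
    ((-2*(P+Q)) ^ n + (-4*Q) ^ n + (-2*(P+Q+U-R)) ^ n) - (0 ^ n + (-2*(P+Q+R+U)) ^ n + (-2*(Q+U)) ^ n) -
      (0 ^ n + (-2*(P+Q-R-U)) ^ n + (-2*(Q-R)) ^ n) := by
  apply W3 hp
  · try rw [one3]
    first
      | (simp [cA1, cB1, cA3, cB3, Matrix.trace, Fin.sum_univ_succ, Matrix.mul_apply]; done)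
      | (simp [cA1, cB1, cA3, cB3, Matrix.trace, Fin.sum_univ_succ, Matrix.mul_apply]; ring1)
  · try rw [one3]
    first
      | (simp [cA1, cB1, cA3, cB3, Matrix.trace, Fin.sum_univ_succ, Matrix.mul_apply]; done)
      | (simp [cA1, cB1, cA3, cB3, Matrix.trace, Fin.sum_univ_succ, Matrix.mul_apply]; ring1)
  · rw [one3]; ext i j; fin_cases i <;> fin_cases j <;>
      simp [cA1, cB1, cA3, cB3, Matrix.mul_apply, Fin.sum_univ_succ, -mul_eq_zero] <;> ring
  · try rw [one3]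
    first
      | (simp [cA1, cB1, cA3, cB3, Matrix.trace, Fin.sum_univ_succ, Matrix.mul_apply]; done)
      | (simp [cA1, cB1, cA3, cB3, Matrix.trace, Fin.sum_univ_succ, Matrix.mul_apply]; ring1)
  · try rw [one3]
    first
      | (simp [cA1, cB1, cA3, cB3, Matrix.trace, Fin.sum_univ_succ, Matrix.mul_apply]; done)
      | (simp [cA1, cB1, cA3, cB3, Matrix.trace, Fin.sum_univ_succ, Matrix.mul_apply]; ring1)
  · rw [one3]; ext i j; fin_cases i <;> fin_cases j <;>
      simp [cA1, cB1, cA3, cB3, Matrix.mul_apply, Fin.sum_univ_succ, -mul_eq_zero] <;> ring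
  · try rw [one3]
    first
      | (simp [cA1, cB1, cA3, cB3, Matrix.trace, Fin.sum_univ_succ, Matrix.mul_apply]; done)
      | (simp [cA1, cB1, cA3, cB3, Matrix.trace, Fin.sum_univ_succ, Matrix.mul_apply]; ring1)
  · try rw [one3]
    first
      | (simp [cA1, cB1, cA3, cB3, Matrix.trace, Fin.sum_univ_succ, Matrix.mul_apply]; done)
      | (simp [cA1, cB1, cA3, cB3, Matrix.trace, Fin.sum_univ_succ, Matrix.mul_apply]; ring1)
  · rw [one3]; ext i j; fin_cases i <;> fin_cases j <;>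
      simp [cA1, cB1, cA3, cB3, Matrix.mul_apply, Fin.sum_univ_succ, -mul_eq_zero] <;> ring

lemma W3_eq (hp : Pw3S) (P Q R U : F) (n : ℕ) : W n (cA3 P Q R U) (cB3 P Q R U) =
    ((-2*(P-Q)) ^ n + (-2*(P-Q-R+U)) ^ n + (4*Q) ^ n) - ((2*(Q-P-R-U)) ^ n + (2*(Q-U)) ^ n + 0 ^ n) -
      ((2*(Q-P+R+U)) ^ n + (2*(Q+R)) ^ n + 0 ^ n) := by
  apply W3 hp
  · try rw [one3]
    first
      | (simp [cA1, cB1, cA3, cB3, Matrix.trace, Fin.sum_univ_succ, Matrix.mul_apply]; done)
      | (simp [cA1, cB1, cA3, cB3, Matrix.trace, Fin.sum_univ_succ, Matrix.mul_apply]; ring1)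
  · try rw [one3]
    first
      | (simp [cA1, cB1, cA3, cB3, Matrix.trace, Fin.sum_univ_succ, Matrix.mul_apply]; done)
      | (simp [cA1, cB1, cA3, cB3, Matrix.trace, Fin.sum_univ_succ, Matrix.mul_apply]; ring1)
  · rw [one3]; ext i j; fin_cases i <;> fin_cases j <;>
      simp [cA1, cB1, cA3, cB3, Matrix.mul_apply, Fin.sum_univ_succ, -mul_eq_zero] <;> ring
  · try rw [one3]
    first
      | (simp [cA1, cB1, cA3, cB3, Matrix.trace, Fin.sum_univ_succ, Matrix.mul_apply]; done)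
      | (simp [cA1, cB1, cA3, cB3, Matrix.trace, Fin.sum_univ_succ, Matrix.mul_apply]; ring1)
  · try rw [one3]
    first
      | (simp [cA1, cB1, cA3, cB3, Matrix.trace, Fin.sum_univ_succ, Matrix.mul_apply]; done)
      | (simp [cA1, cB1, cA3, cB3, Matrix.trace, Fin.sum_univ_succ, Matrix.mul_apply]; ring1)
  · rw [one3]; ext i j; fin_cases i <;> fin_cases j <;>
      simp [cA1, cB1, cA3, cB3, Matrix.mul_apply, Fin.sum_univ_succ, -mul_eq_zero] <;> ring
  · try rw [one3]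
    first
      | (simp [cA1, cB1, cA3, cB3, Matrix.trace, Fin.sum_univ_succ, Matrix.mul_apply]; done)
      | (simp [cA1, cB1, cA3, cB3, Matrix.trace, Fin.sum_univ_succ, Matrix.mul_apply]; ring1)
  · try rw [one3]
    first
      | (simp [cA1, cB1, cA3, cB3, Matrix.trace, Fin.sum_univ_succ, Matrix.mul_apply]; done)
      | (simp [cA1, cB1, cA3, cB3, Matrix.trace, Fin.sum_univ_succ, Matrix.mul_apply]; ring1)
  · rw [one3]; ext i j; fin_cases i <;> fin_cases j <;>
      simp [cA1, cB1, cA3, cB3, Matrix.mul_apply, Fin.sum_univ_succ, -mul_eq_zero] <;> ring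

lemma W4_eq (hp : Pw3S) (P Q R U : F) (n : ℕ) :
    W n (cA3 P Q R U + (-(2*(Q-U))) • (1 : Matrix (Fin 3) (Fin 3) F))
      (cB3 P Q R U + (-(2*(Q+R))) • (1 : Matrix (Fin 3) (Fin 3) F)) =
    ((-2*(P+Q+R-U)) ^ n + (-2*(P+Q)) ^ n + (2*(U-R)) ^ n) - ((-2*(P+R)) ^ n + 0 ^ n + (-2*(Q-U)) ^ n) -
      ((2*(U-P)) ^ n + 0 ^ n + (-2*(Q+R)) ^ n) := by
  apply W3 hp
  · try rw [one3]
    first
      | (simp [cA1, cB1, cA3, cB3, Matrix.trace, Fin.sum_univ_succ, Matrix.mul_apply]; done)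
      | (simp [cA1, cB1, cA3, cB3, Matrix.trace, Fin.sum_univ_succ, Matrix.mul_apply]; ring1)
  · try rw [one3]
    first
      | (simp [cA1, cB1, cA3, cB3, Matrix.trace, Fin.sum_univ_succ, Matrix.mul_apply]; done)
      | (simp [cA1, cB1, cA3, cB3, Matrix.trace, Fin.sum_univ_succ, Matrix.mul_apply]; ring1)
  · rw [one3]; ext i j; fin_cases i <;> fin_cases j <;>
      simp [cA1, cB1, cA3, cB3, Matrix.mul_apply, Fin.sum_univ_succ, -mul_eq_zero] <;> ring
  · try rw [one3]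
    first
      | (simp [cA1, cB1, cA3, cB3, Matrix.trace, Fin.sum_univ_succ, Matrix.mul_apply]; done)
      | (simp [cA1, cB1, cA3, cB3, Matrix.trace, Fin.sum_univ_succ, Matrix.mul_apply]; ring1)
  · try rw [one3]
    first
      | (simp [cA1, cB1, cA3, cB3, Matrix.trace, Fin.sum_univ_succ, Matrix.mul_apply]; done)
      | (simp [cA1, cB1, cA3, cB3, Matrix.trace, Fin.sum_univ_succ, Matrix.mul_apply]; ring1)
  · rw [one3]; ext i j; fin_cases i <;> fin_cases j <;>
      simp [cA1, cB1, cA3, cB3, Matrix.mul_apply, Fin.sum_univ_succ, -mul_eq_zero] <;> ring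
  · try rw [one3]
    first
      | (simp [cA1, cB1, cA3, cB3, Matrix.trace, Fin.sum_univ_succ, Matrix.mul_apply]; done)
      | (simp [cA1, cB1, cA3, cB3, Matrix.trace, Fin.sum_univ_succ, Matrix.mul_apply]; ring1)
  · try rw [one3]
    first
      | (simp [cA1, cB1, cA3, cB3, Matrix.trace, Fin.sum_univ_succ, Matrix.mul_apply]; done)
      | (simp [cA1, cB1, cA3, cB3, Matrix.trace, Fin.sum_univ_succ, Matrix.mul_apply]; ring1)
  · rw [one3]; ext i j; fin_cases i <;> fin_cases j <;>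
      simp [cA1, cB1, cA3, cB3, Matrix.mul_apply, Fin.sum_univ_succ, -mul_eq_zero] <;> ring

/-- The value of `W` of a 4×4 pair of the form `E0 M, E1 M`. -/
lemma W4 (hp : Pw4S) (M : Matrix (Fin 4) (Fin 4) F) (a b x y : F)
    (hA : (E0 F * M).trace = 0) (hA2 : ((E0 F * M) * (E0 F * M)).trace = 2 * (a ^ 2 + 0 ^ 2))
    (hA3 : ((E0 F * M) * (E0 F * M) * (E0 F * M)).trace = 0)
    (hA4 : ((E0 F * M) * (E0 F * M) - (a ^ 2) • (1 : Matrix _ _ F)) *
      ((E0 F * M) * (E0 F * M) - ((0 : F) ^ 2) • (1 : Matrix _ _ F)) = 0)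
    (hB : (E1 F * M).trace = 0) (hB2 : ((E1 F * M) * (E1 F * M)).trace = 2 * (b ^ 2 + 0 ^ 2))
    (hB3 : ((E1 F * M) * (E1 F * M) * (E1 F * M)).trace = 0)
    (hB4 : ((E1 F * M) * (E1 F * M) - (b ^ 2) • (1 : Matrix _ _ F)) *
      ((E1 F * M) * (E1 F * M) - ((0 : F) ^ 2) • (1 : Matrix _ _ F)) = 0)
    (hC : M.trace = 0) (hC2 : (M * M).trace = 2 * (x ^ 2 + y ^ 2)) (hC3 : (M * M * M).trace = 0)
    (hC4 : (M * M - (x ^ 2) • (1 : Matrix _ _ F)) * (M * M - (y ^ 2) • (1 : Matrix _ _ F)) = 0)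
    (n : ℕ) (hn : Even n) (hn0 : n ≠ 0) :
    W n (E0 F * M) (E1 F * M) = 2 * (x ^ n + y ^ n) - 2 * a ^ n - 2 * b ^ n := by
  have e : E0 F * M + E1 F * M = M := by
    rw [← add_mul, E0_eq, E1_eq]
    have : (!![1, 0, 0, 0; 0, 1, 0, 0; 0, 0, 0, 0; 0, 0, 0, 0] +
        !![0, 0, 0, 0; 0, 0, 0, 0; 0, 0, 1, 0; 0, 0, 0, 1] : Matrix (Fin 4) (Fin 4) F) = 1 := by
      ext i j; fin_cases i <;> fin_cases j <;> simp
    rw [this, one_mul]
  rw [W, e, hp F _ _ _ hA hA2 hA3 hA4, hp F _ _ _ hB hB2 hB3 hB4, hp F _ _ _ hC hC2 hC3 hC4]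
  simp only [hn.neg_pow, zero_pow hn0]
  ring

lemma WMH_eq (hp : Pw4S) (a b s t : F) (n : ℕ) (hn : Even n) (hn0 : n ≠ 0) :
    W n (E0 F * MH a b s t) (E1 F * MH a b s t) = 2 * (s ^ n + t ^ n) - 2 * a ^ n - 2 * b ^ n := by
  apply W4 hp _ _ _ _ _ _ _ _ _ _ _ _ _ _ _ _ _ n hn hn0
  · try simp only [E0_eq, E1_eq]
    first
      | (simp [MH, cMT, Matrix.trace, Fin.sum_univ_succ, Matrix.mul_apply]; done)
      | (simp [MH, cMT, Matrix.trace, Fin.sum_univ_succ, Matrix.mul_apply]; ring1)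
  · try simp only [E0_eq, E1_eq]
    first
      | (simp [MH, cMT, Matrix.trace, Fin.sum_univ_succ, Matrix.mul_apply]; done)
      | (simp [MH, cMT, Matrix.trace, Fin.sum_univ_succ, Matrix.mul_apply]; ring1)
  · try simp only [E0_eq, E1_eq]
    first
      | (simp [MH, cMT, Matrix.trace, Fin.sum_univ_succ, Matrix.mul_apply]; done)
      | (simp [MH, cMT, Matrix.trace, Fin.sum_univ_succ, Matrix.mul_apply]; ring1)
  · try simp only [E0_eq, E1_eq]
    rw [one4]; ext i j; fin_cases i <;> fin_cases j <;>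
      simp [MH, cMT, Matrix.mul_apply, Fin.sum_univ_succ, -mul_eq_zero] <;> ring
  · try simp only [E0_eq, E1_eq]
    first
      | (simp [MH, cMT, Matrix.trace, Fin.sum_univ_succ, Matrix.mul_apply]; done)
      | (simp [MH, cMT, Matrix.trace, Fin.sum_univ_succ, Matrix.mul_apply]; ring1)
  · try simp only [E0_eq, E1_eq]
    first
      | (simp [MH, cMT, Matrix.trace, Fin.sum_univ_succ, Matrix.mul_apply]; done)
      | (simp [MH, cMT, Matrix.trace, Fin.sum_univ_succ, Matrix.mul_apply]; ring1)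
  · try simp only [E0_eq, E1_eq]
    first
      | (simp [MH, cMT, Matrix.trace, Fin.sum_univ_succ, Matrix.mul_apply]; done)
      | (simp [MH, cMT, Matrix.trace, Fin.sum_univ_succ, Matrix.mul_apply]; ring1)
  · try simp only [E0_eq, E1_eq]
    rw [one4]; ext i j; fin_cases i <;> fin_cases j <;>
      simp [MH, cMT, Matrix.mul_apply, Fin.sum_univ_succ, -mul_eq_zero] <;> ring
  · try simp only [E0_eq, E1_eq]
    first
      | (simp [MH, cMT, Matrix.trace, Fin.sum_univ_succ, Matrix.mul_apply]; done)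
      | (simp [MH, cMT, Matrix.trace, Fin.sum_univ_succ, Matrix.mul_apply]; ring1)
  · try simp only [E0_eq, E1_eq]
    first
      | (simp [MH, cMT, Matrix.trace, Fin.sum_univ_succ, Matrix.mul_apply]; done)
      | (simp [MH, cMT, Matrix.trace, Fin.sum_univ_succ, Matrix.mul_apply]; ring1)
  · try simp only [E0_eq, E1_eq]
    first
      | (simp [MH, cMT, Matrix.trace, Fin.sum_univ_succ, Matrix.mul_apply]; done)
      | (simp [MH, cMT, Matrix.trace, Fin.sum_univ_succ, Matrix.mul_apply]; ring1)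
  · try simp only [E0_eq, E1_eq]
    rw [one4]; ext i j; fin_cases i <;> fin_cases j <;>
      simp [MH, cMT, Matrix.mul_apply, Fin.sum_univ_succ, -mul_eq_zero] <;> ring

lemma WMT_eq (hp : Pw4S) (P Q R U : F) (n : ℕ) (hn : Even n) (hn0 : n ≠ 0) :
    W n (E0 F * cMT P Q R U) (E1 F * cMT P Q R U) =
      2 * ((P+Q+R-U) ^ n + (P+Q-R+U) ^ n) - 2 * (Q-P-R-U) ^ n - 2 * (Q-P+R+U) ^ n := by
  apply W4 hp _ _ _ _ _ _ _ _ _ _ _ _ _ _ _ _ _ n hn hn0
  · try simp only [E0_eq, E1_eq]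
    first
      | (simp [MH, cMT, Matrix.trace, Fin.sum_univ_succ, Matrix.mul_apply]; done)
      | (simp [MH, cMT, Matrix.trace, Fin.sum_univ_succ, Matrix.mul_apply]; ring1)
  · try simp only [E0_eq, E1_eq]
    first
      | (simp [MH, cMT, Matrix.trace, Fin.sum_univ_succ, Matrix.mul_apply]; done)
      | (simp [MH, cMT, Matrix.trace, Fin.sum_univ_succ, Matrix.mul_apply]; ring1)
  · try simp only [E0_eq, E1_eq]
    first
      | (simp [MH, cMT, Matrix.trace, Fin.sum_univ_succ, Matrix.mul_apply]; done)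
      | (simp [MH, cMT, Matrix.trace, Fin.sum_univ_succ, Matrix.mul_apply]; ring1)
  · try simp only [E0_eq, E1_eq]
    rw [one4]; ext i j; fin_cases i <;> fin_cases j <;>
      simp [MH, cMT, Matrix.mul_apply, Fin.sum_univ_succ, -mul_eq_zero] <;> ring
  · try simp only [E0_eq, E1_eq]
    first
      | (simp [MH, cMT, Matrix.trace, Fin.sum_univ_succ, Matrix.mul_apply]; done)
      | (simp [MH, cMT, Matrix.trace, Fin.sum_univ_succ, Matrix.mul_apply]; ring1)
  · try simp only [E0_eq, E1_eq]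
    first
      | (simp [MH, cMT, Matrix.trace, Fin.sum_univ_succ, Matrix.mul_apply]; done)
      | (simp [MH, cMT, Matrix.trace, Fin.sum_univ_succ, Matrix.mul_apply]; ring1)
  · try simp only [E0_eq, E1_eq]
    first
      | (simp [MH, cMT, Matrix.trace, Fin.sum_univ_succ, Matrix.mul_apply]; done)
      | (simp [MH, cMT, Matrix.trace, Fin.sum_univ_succ, Matrix.mul_apply]; ring1)
  · try simp only [E0_eq, E1_eq]
    rw [one4]; ext i j; fin_cases i <;> fin_cases j <;>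
      simp [MH, cMT, Matrix.mul_apply, Fin.sum_univ_succ, -mul_eq_zero] <;> ring
  · try simp only [E0_eq, E1_eq]
    first
      | (simp [MH, cMT, Matrix.trace, Fin.sum_univ_succ, Matrix.mul_apply]; done)
      | (simp [MH, cMT, Matrix.trace, Fin.sum_univ_succ, Matrix.mul_apply]; ring1)
  · try simp only [E0_eq, E1_eq]
    first
      | (simp [MH, cMT, Matrix.trace, Fin.sum_univ_succ, Matrix.mul_apply]; done)
      | (simp [MH, cMT, Matrix.trace, Fin.sum_univ_succ, Matrix.mul_apply]; ring1)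
  · try simp only [E0_eq, E1_eq]
    first
      | (simp [MH, cMT, Matrix.trace, Fin.sum_univ_succ, Matrix.mul_apply]; done)
      | (simp [MH, cMT, Matrix.trace, Fin.sum_univ_succ, Matrix.mul_apply]; ring1)
  · try simp only [E0_eq, E1_eq]
    rw [one4]; ext i j; fin_cases i <;> fin_cases j <;>
      simp [MH, cMT, Matrix.mul_apply, Fin.sum_univ_succ, -mul_eq_zero] <;> ring

end Pool.Agent.MP_a57f33_nt.BZ
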