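import Pool.Agent.Lib.MP_a57f33_nt.BZ.Chain3

/-!
The explicit chain of matrices: the value of the functional on the symplectic family.
-/

namespace Pool.Agent.MP_a57f33_nt.BZ

open Pool.Agent.MP_a57f33_nt
open Matrix

/-- The value of `N T / c` on the symplectic family. -/
def Phi {R : Type} [CommRing R] (n : ℕ) (P Q R' U : R) : R :=
  (2^n - 2) * ((P+Q+R'-U)^n + (P+Q-R'+U)^n + (P-Q+R'+U)^n + (P-Q-R'-U)^n) +
  2 * (2^n*P^n + 2^n*Q^n + 2^n*R'^n + 2^n*U^n) +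
  (4 - 2^n) * ((P-Q+R'-U)^n + (P-Q-R'+U)^n) -
  2^n * ((P+Q+R'+U)^n + (P+Q-R'-U)^n) - 2 * (2^n*(R'-U)^n) - 2 * (2^n*(P-Q)^n)

variable {F : Type} [Field F]

lemma pe {n : ℕ} (hn : Even n) {x y : F} (h : x = y ∨ x = -y) : x ^ n = y ^ n := by
  rcases h with h | h
  · rw [h]
  · rw [h, hn.neg_pow]

def cU7 (F : Type) [Field F] : Matrix (Fin 1) (Fin 2) F := !![1, -1]
def cV7 (P Q R U : F) : Matrix (Fin 2) (Fin 1) F := !![-(P+Q+R+U); P+Q-R-U]
def cU8 (P Q R U : F) : Matrix (Fin 1) (Fin 2) F := !![2*U, 2*R]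
def cV8 (F : Type) [Field F] : Matrix (Fin 2) (Fin 1) F := !![1; -1]

lemma c7_M (P Q R U : F) :
    cMr P Q R U + (-(2*Q)) • (1 : Matrix (Fin 2) (Fin 2) F) = cV7 P Q R U * cU7 F := by
  ext i j
  fin_cases i <;> fin_cases j <;>
    simp [cMr, cU7, cV7, Matrix.mul_apply] <;> ring

lemma c7_A (P Q R U : F) :
    cU7 F * ce F * cV7 P Q R U = (-(P+Q+R+U)) • (1 : Matrix (Fin 1) (Fin 1) F) := by
  ext i j
  fin_cases i <;> fin_cases j <;>
    simp [ce, cU7, cV7, Matrix.mul_apply, Fin.sum_univ_succ]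

lemma c7_B (P Q R U : F) :
    cU7 F * cf F * cV7 P Q R U = (-(P+Q-R-U)) • (1 : Matrix (Fin 1) (Fin 1) F) := by
  ext i j
  fin_cases i <;> fin_cases j <;>
    simp [cf, cU7, cV7, Matrix.mul_apply, Fin.sum_univ_succ] <;> ring

lemma c8_M (P Q R U : F) :
    cMq P Q R U + (-(P-Q+R-U)) • (1 : Matrix (Fin 2) (Fin 2) F) = cV8 F * cU8 P Q R U := by
  ext i j
  fin_cases i <;> fin_cases j <;>
    simp [cMq, cU8, cV8, Matrix.mul_apply] <;> ring

lemma c8_A (P Q R U : F) :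
    cU8 P Q R U * ce F * cV8 F = (2*U) • (1 : Matrix (Fin 1) (Fin 1) F) := by
  ext i j
  fin_cases i <;> fin_cases j <;>
    simp [ce, cU8, cV8, Matrix.mul_apply, Fin.sum_univ_succ]

lemma c8_B (P Q R U : F) :
    cU8 P Q R U * cf F * cV8 F = (-(2*R)) • (1 : Matrix (Fin 1) (Fin 1) F) := by
  ext i j
  fin_cases i <;> fin_cases j <;>
    simp [cf, cU8, cV8, Matrix.mul_apply, Fin.sum_univ_succ]

lemma ce_add (F : Type) [Field F] : ce F + cf F = 1 := by
  ext i j; fin_cases i <;> fin_cases j <;> simp [ce, cf]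
lemma ce_cf (F : Type) [Field F] : ce F * cf F = 0 := by
  ext i j; fin_cases i <;> fin_cases j <;> simp [ce, cf, Matrix.mul_apply]
lemma cf_ce (F : Type) [Field F] : cf F * ce F = 0 := by
  ext i j; fin_cases i <;> fin_cases j <;> simp [ce, cf, Matrix.mul_apply]
lemma E_add (F : Type) [Field F] : E0 F + E1 F = 1 := by
  rw [E0_eq, E1_eq]; ext i j; fin_cases i <;> fin_cases j <;> simp
lemma E0_E1 (F : Type) [Field F] : E0 F * E1 F = 0 := by
  rw [E0_eq, E1_eq]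
  ext i j; fin_cases i <;> fin_cases j <;> simp [Matrix.mul_apply, Fin.sum_univ_succ]
lemma E1_E0 (F : Type) [Field F] : E1 F * E0 F = 0 := by
  rw [E0_eq, E1_eq]
  ext i j; fin_cases i <;> fin_cases j <;> simp [Matrix.mul_apply, Fin.sum_univ_succ]

/-- One link: `M + l = V U`. -/
lemma link (hc : CnvS) (hf : FacS) [CharZero F] [Algebra ℚ F] {κ ι : Type} [Fintype κ]
    [DecidableEq κ] [Fintype ι] [DecidableEq ι] {k : List Bool → ℚ} {N : ℕ} {c : ℚ} (hN : 1 ≤ N)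
    (hk : Cyc k) (hd : Dv k N c) (e f M : Matrix κ κ F) (l : F) (h1 : e + f = 1) (h2 : e * f = 0)
    (h3 : f * e = 0) (U : Matrix ι κ F) (V : Matrix κ ι F)
    (h : M + l • (1 : Matrix κ κ F) = V * U) :
    J k N c (e * M) (f * M) = J k N c (U * e * V) (U * f * V) := by
  rw [hf F ι κ k N c e f U V, ← h, hc F κ k N c hN hk hd e f M l h1 h2 h3]

lemma W_rank2 (M : Matrix (Fin 2) (Fin 2) F) (a b x y : F) (hA : (ce F * M).trace = a)
    (hA2 : (ce F * M - a • (1 : Matrix _ _ F)) * (ce F * M - (0 : F) • (1 : Matrix _ _ F)) = 0)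
    (hB : (cf F * M).trace = b)
    (hB2 : (cf F * M - b • (1 : Matrix _ _ F)) * (cf F * M - (0 : F) • (1 : Matrix _ _ F)) = 0)
    (hC : M.trace = x + y)
    (hC2 : (M - x • (1 : Matrix _ _ F)) * (M - y • (1 : Matrix _ _ F)) = 0)
    (n : ℕ) (hn0 : n ≠ 0) :
    W n (ce F * M) (cf F * M) = x ^ n + y ^ n - a ^ n - b ^ n := by
  rw [W, ← add_mul, ce_add, one_mul, pw2 _ a 0 (by rw [hA, add_zero]) hA2,
    pw2 _ b 0 (by rw [hB, add_zero]) hB2, pw2 _ x y hC hC2]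
  simp only [zero_pow hn0]
  ring

lemma one2 : (1 : Matrix (Fin 2) (Fin 2) F) = !![1, 0; 0, 1] := by
  ext i j; fin_cases i <;> fin_cases j <;> simp

lemma Wr_eq (P Q R U : F) (n : ℕ) (hn0 : n ≠ 0) :
    W n (ce F * cMr P Q R U) (cf F * cMr P Q R U) =
      (2*Q) ^ n + (-2*P) ^ n - (Q-P-R-U) ^ n - (Q-P+R+U) ^ n := by
  apply W_rank2 _ _ _ _ _ _ _ _ _ _ _ n hn0
  · simp [ce, cMr, Matrix.trace, Fin.sum_univ_succ, Matrix.mul_apply]
  · rw [one2]; ext i j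
    fin_cases i <;> fin_cases j <;>
      simp [ce, cMr, Matrix.mul_apply, Fin.sum_univ_succ, -mul_eq_zero]
  · simp [cf, cMr, Matrix.trace, Fin.sum_univ_succ, Matrix.mul_apply]
  · rw [one2]; ext i j
    fin_cases i <;> fin_cases j <;>
      simp [cf, cMr, Matrix.mul_apply, Fin.sum_univ_succ, -mul_eq_zero]
  · simp [cMr, Matrix.trace, Fin.sum_univ_succ]; ring
  · rw [one2]; ext i j
    fin_cases i <;> fin_cases j <;>
      simp [cMr, Matrix.mul_apply, Fin.sum_univ_succ, -mul_eq_zero] <;> ring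

lemma Wq_eq (P Q R U : F) (n : ℕ) (hn0 : n ≠ 0) :
    W n (ce F * cMq P Q R U) (cf F * cMq P Q R U) =
      (P-Q+R-U) ^ n + (P-Q-R+U) ^ n - (-(Q-P-R-U)) ^ n - (-(Q-P+R+U)) ^ n := by
  apply W_rank2 _ _ _ _ _ _ _ _ _ _ _ n hn0
  · simp [ce, cMq, Matrix.trace, Fin.sum_univ_succ, Matrix.mul_apply]
  · rw [one2]; ext i j
    fin_cases i <;> fin_cases j <;>
      simp [ce, cMq, Matrix.mul_apply, Fin.sum_univ_succ, -mul_eq_zero]
  · simp [cf, cMq, Matrix.trace, Fin.sum_univ_succ, Matrix.mul_apply]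
  · rw [one2]; ext i j
    fin_cases i <;> fin_cases j <;>
      simp [cf, cMq, Matrix.mul_apply, Fin.sum_univ_succ, -mul_eq_zero]
  · simp [cMq, Matrix.trace, Fin.sum_univ_succ]; ring
  · rw [one2]; ext i j
    fin_cases i <;> fin_cases j <;>
      simp [cMq, Matrix.mul_apply, Fin.sum_univ_succ, -mul_eq_zero] <;> ring

lemma W_one (n : ℕ) (a b : F) :
    W n (a • (1 : Matrix (Fin 1) (Fin 1) F)) (b • (1 : Matrix (Fin 1) (Fin 1) F)) =
      (a + b) ^ n - a ^ n - b ^ n := by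
  simp [W, ← add_smul, smul_pow]

lemma ev_zero {ι : Type} [Fintype ι] [DecidableEq ι] (w : List Bool) (hw : w ≠ []) :
    ev (0 : Matrix ι ι F) 0 w = 0 := by
  cases w with
  | nil => exact absurd rfl hw
  | cons b w => rw [ev_cons]; cases b <;> simp

lemma SW_zero {M : Type} [AddCommMonoid M] : ∀ n : ℕ, SW n (fun _ => (0 : M)) = 0
  | 0 => rfl
  | n + 1 => by simp only [SW, SW_zero n, add_zero]

lemma T_zero [Algebra ℚ F] {ι : Type} [Fintype ι] [DecidableEq ι] (k : List Bool → ℚ) (n : ℕ)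
    (hn : n ≠ 0) : T k n (0 : Matrix ι ι F) 0 = 0 := by
  unfold T
  rw [SW_congr n (g := fun _ => (0 : F)), SW_zero]
  intro w hw
  have : w ≠ [] := by rintro rfl; exact hn hw.symm
  rw [ev_zero w this]
  simp

lemma T_one (ht : TwS) [Algebra ℚ F] {ψ : QX} (h : ψ ∈ dm0) (n : ℕ) (hn : n ≠ 0) (a b : F) :
    T (K ψ) n (a • (1 : Matrix (Fin 1) (Fin 1) F)) (b • (1 : Matrix (Fin 1) (Fin 1) F)) = 0 := by
  have := ht F (Fin 1) ψ h n 0 0 a b
  rw [zero_add, zero_add] at this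
  rw [this, T_zero _ _ hn]

lemma J_eq {R ι : Type} [CommRing R] [Algebra ℚ R] [Fintype ι] [DecidableEq ι]
    (k : List Bool → ℚ) (N : ℕ) (c : ℚ) (A B : Matrix ι ι R) :
    J k N c A B = (N : R) * T k (N + 1) A B - algebraMap ℚ R c * W (N + 1) A B := by
  rw [J, Algebra.smul_def]

theorem chain_field (ht : TwS) (hten : TnS) (hc : CnvS) (hf : FacS) (hs : SimS) (hp3 : Pw3S)
    (hp4 : Pw4S) [CharZero F] [Algebra ℚ F] {ψ : QX} (h : ψ ∈ dm0) (N : ℕ) (hN : 1 ≤ N)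
    (hn : Even (N + 1)) (c : ℚ) (hk : Cyc (K ψ)) (hd : Dv (K ψ) N c) (P Q R U : F) (hQ : Q ≠ 0)
    (hS : (cS P Q R U).det ≠ 0) :
    (N : F) * T (K ψ) (N + 1)
        (E0 F * MH (P+Q+R+U) (P+Q-R-U) (P-Q+R-U) (P-Q-R+U))
        (E1 F * MH (P+Q+R+U) (P+Q-R-U) (P-Q+R-U) (P-Q-R+U)) =
      algebraMap ℚ F c * Phi (N + 1) P Q R U := by
  have hn0 : N + 1 ≠ 0 := by omega
  -- first link
  have h1 := link hc hf hN hk hd (E0 F) (E1 F)
    (MH (P+Q+R+U) (P+Q-R-U) (P-Q+R-U) (P-Q-R+U)) (-(P-Q+R-U)) (E_add F) (E0_E1 F) (E1_E0 F)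
    (cU1 P Q R U) (cV1 P Q R U) (c1_M P Q R U hQ)
  rw [c1_A P Q R U hQ, c1_B P Q R U hQ] at h1
  have h2 := ht F (Fin 3) ψ h (N + 1) (cA1 P Q R U) (cB1 P Q R U) (-(2*(Q+U))) (-(2*(Q-R)))
  -- second link
  have h3 : J (K ψ) N c (cA1 P Q R U + (-(2*(Q+U))) • (1 : Matrix (Fin 3) (Fin 3) F))
      (cB1 P Q R U + (-(2*(Q-R))) • (1 : Matrix (Fin 3) (Fin 3) F)) =
      J (K ψ) N c (cA3 P Q R U) (cB3 P Q R U) := by
    rw [c2_A, c2_B, hf F (Fin 3) (Fin 4) (K ψ) N c (E0 F) (E1 F) (cU2 P Q R U) (cV2 F),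
      link hc hf hN hk hd (E0 F) (E1 F) (cV2 F * cU2 P Q R U) (4*Q) (E_add F) (E0_E1 F) (E1_E0 F)
        (cU3 F) (cV3 P Q R U) (c2_M P Q R U), c3_A, c3_B]
  have h4 := ht F (Fin 3) ψ h (N + 1) (cA3 P Q R U) (cB3 P Q R U) (-(2*(Q-U))) (-(2*(Q+R)))
  -- third link
  have h5 : J (K ψ) N c (cA3 P Q R U + (-(2*(Q-U))) • (1 : Matrix (Fin 3) (Fin 3) F))
      (cB3 P Q R U + (-(2*(Q+R))) • (1 : Matrix (Fin 3) (Fin 3) F)) =
      J (K ψ) N c (E0 F * cMT P Q R U) (E1 F * cMT P Q R U) := by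
    rw [c4_A, c4_B, hf F (Fin 3) (Fin 4) (K ψ) N c (E0 F) (E1 F) (cU4 P Q R U) (cV4 F),
      ← c4_M, hc F (Fin 4) (K ψ) N c hN hk hd (E0 F) (E1 F) (cV4 F * cU4 P Q R U) (P+Q+R-U)
        (E_add F) (E0_E1 F) (E1_E0 F)]
  -- tensor product
  have h6 : T (K ψ) (N + 1) (E0 F * cMT P Q R U) (E1 F * cMT P Q R U) =
      2 * T (K ψ) (N + 1) (ce F * cMr P Q R U) (cf F * cMr P Q R U) +
      2 * T (K ψ) (N + 1) (ce F * cMq P Q R U) (cf F * cMq P Q R U) := by
    rw [hs F (Fin 4) (K ψ) (N + 1) (cS P Q R U) _ _ (cAA P Q R U) (cBB P Q R U) hS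
      (c5_A P Q R U) (c5_B P Q R U), ← cAA_kron, ← cBB_kron, T_submatrix,
      hten F (Fin 2) (Fin 2) ψ h (N + 1)]
    simp
  have h7 := link hc hf hN hk hd (ce F) (cf F) (cMr P Q R U) (-(2*Q)) (ce_add F) (ce_cf F)
    (cf_ce F) (cU7 F) (cV7 P Q R U) (c7_M P Q R U)
  rw [c7_A, c7_B] at h7
  have h8 := link hc hf hN hk hd (ce F) (cf F) (cMq P Q R U) (-(P-Q+R-U)) (ce_add F) (ce_cf F)
    (cf_ce F) (cU8 P Q R U) (cV8 F) (c8_M P Q R U)
  rw [c8_A, c8_B] at h8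
  simp only [J_eq] at h1 h3 h5 h7 h8
  rw [T_one ht h (N + 1) hn0, W_one, Wr_eq P Q R U _ hn0] at h7
  rw [T_one ht h (N + 1) hn0, W_one, Wq_eq P Q R U _ hn0] at h8
  rw [WMH_eq hp4 _ _ _ _ _ hn hn0, W1_eq hp3] at h1
  rw [W2_eq hp3, W3_eq hp3] at h3
  rw [W4_eq hp3, WMT_eq hp4 P Q R U _ hn hn0] at h5
  rw [show -(P+Q+R+U) + -(P+Q-R-U) = -2*(P+Q) by ring] at h7
  rw [show 2*U + -(2*R) = 2*(U-R) by ring] at h8
  set n := N + 1 with hndef
  have q0 : (-2*(P-Q+R-U))^n = 2^n*(P-Q+R-U)^n := by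
    first | (rw [← mul_pow]; done) | (rw [← mul_pow]; exact pe hn (Or.inl (by ring1))) |
      (rw [← mul_pow]; exact pe hn (Or.inr (by ring1)))
  have q1 : (2*(U-R))^n = 2^n*(R-U)^n := by
    first | (rw [← mul_pow]; done) | (rw [← mul_pow]; exact pe hn (Or.inl (by ring1))) |
      (rw [← mul_pow]; exact pe hn (Or.inr (by ring1)))
  have q2 : (-2*(P-Q))^n = 2^n*(P-Q)^n := by
    first | (rw [← mul_pow]; done) | (rw [← mul_pow]; exact pe hn (Or.inl (by ring1))) |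
      (rw [← mul_pow]; exact pe hn (Or.inr (by ring1)))
  have q3 : (2*(Q+U))^n = 2^n*(Q+U)^n := by
    first | (rw [← mul_pow]; done) | (rw [← mul_pow]; exact pe hn (Or.inl (by ring1))) |
      (rw [← mul_pow]; exact pe hn (Or.inr (by ring1)))
  have q4 : (-2*(P+R))^n = 2^n*(P+R)^n := by
    first | (rw [← mul_pow]; done) | (rw [← mul_pow]; exact pe hn (Or.inl (by ring1))) |
      (rw [← mul_pow]; exact pe hn (Or.inr (by ring1)))
  have q5 : (2*(Q-R))^n = 2^n*(Q-R)^n := by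
    first | (rw [← mul_pow]; done) | (rw [← mul_pow]; exact pe hn (Or.inl (by ring1))) |
      (rw [← mul_pow]; exact pe hn (Or.inr (by ring1)))
  have q6 : (2*(U-P))^n = 2^n*(P-U)^n := by
    first | (rw [← mul_pow]; done) | (rw [← mul_pow]; exact pe hn (Or.inl (by ring1))) |
      (rw [← mul_pow]; exact pe hn (Or.inr (by ring1)))
  have q7 : (-2*(P+Q))^n = 2^n*(P+Q)^n := by
    first | (rw [← mul_pow]; done) | (rw [← mul_pow]; exact pe hn (Or.inl (by ring1))) |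
      (rw [← mul_pow]; exact pe hn (Or.inr (by ring1)))
  have q8 : (-4*Q)^n = 4^n*Q^n := by
    first | (rw [← mul_pow]; done) | (rw [← mul_pow]; exact pe hn (Or.inl (by ring1))) |
      (rw [← mul_pow]; exact pe hn (Or.inr (by ring1)))
  have q9 : (-2*(P+Q+U-R))^n = 2^n*(P+Q-R+U)^n := by
    first | (rw [← mul_pow]; done) | (rw [← mul_pow]; exact pe hn (Or.inl (by ring1))) |
      (rw [← mul_pow]; exact pe hn (Or.inr (by ring1)))
  have q10 : (-2*(P+Q+R+U))^n = 2^n*(P+Q+R+U)^n := by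
    first | (rw [← mul_pow]; done) | (rw [← mul_pow]; exact pe hn (Or.inl (by ring1))) |
      (rw [← mul_pow]; exact pe hn (Or.inr (by ring1)))
  have q11 : (-2*(Q+U))^n = 2^n*(Q+U)^n := by
    first | (rw [← mul_pow]; done) | (rw [← mul_pow]; exact pe hn (Or.inl (by ring1))) |
      (rw [← mul_pow]; exact pe hn (Or.inr (by ring1)))
  have q12 : (-2*(P+Q-R-U))^n = 2^n*(P+Q-R-U)^n := by
    first | (rw [← mul_pow]; done) | (rw [← mul_pow]; exact pe hn (Or.inl (by ring1))) |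
      (rw [← mul_pow]; exact pe hn (Or.inr (by ring1)))
  have q13 : (-2*(Q-R))^n = 2^n*(Q-R)^n := by
    first | (rw [← mul_pow]; done) | (rw [← mul_pow]; exact pe hn (Or.inl (by ring1))) |
      (rw [← mul_pow]; exact pe hn (Or.inr (by ring1)))
  have q14 : (-2*(P-Q-R+U))^n = 2^n*(P-Q-R+U)^n := by
    first | (rw [← mul_pow]; done) | (rw [← mul_pow]; exact pe hn (Or.inl (by ring1))) |
      (rw [← mul_pow]; exact pe hn (Or.inr (by ring1)))
  have q15 : (4*Q)^n = 4^n*Q^n := by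
    first | (rw [← mul_pow]; done) | (rw [← mul_pow]; exact pe hn (Or.inl (by ring1))) |
      (rw [← mul_pow]; exact pe hn (Or.inr (by ring1)))
  have q16 : (2*(Q-P-R-U))^n = 2^n*(P-Q+R+U)^n := by
    first | (rw [← mul_pow]; done) | (rw [← mul_pow]; exact pe hn (Or.inl (by ring1))) |
      (rw [← mul_pow]; exact pe hn (Or.inr (by ring1)))
  have q17 : (2*(Q-U))^n = 2^n*(Q-U)^n := by
    first | (rw [← mul_pow]; done) | (rw [← mul_pow]; exact pe hn (Or.inl (by ring1))) |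
      (rw [← mul_pow]; exact pe hn (Or.inr (by ring1)))
  have q18 : (2*(Q-P+R+U))^n = 2^n*(P-Q-R-U)^n := by
    first | (rw [← mul_pow]; done) | (rw [← mul_pow]; exact pe hn (Or.inl (by ring1))) |
      (rw [← mul_pow]; exact pe hn (Or.inr (by ring1)))
  have q19 : (2*(Q+R))^n = 2^n*(Q+R)^n := by
    first | (rw [← mul_pow]; done) | (rw [← mul_pow]; exact pe hn (Or.inl (by ring1))) |
      (rw [← mul_pow]; exact pe hn (Or.inr (by ring1)))
  have q20 : (-2*(P+Q+R-U))^n = 2^n*(P+Q+R-U)^n := by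
    first | (rw [← mul_pow]; done) | (rw [← mul_pow]; exact pe hn (Or.inl (by ring1))) |
      (rw [← mul_pow]; exact pe hn (Or.inr (by ring1)))
  have q21 : (-2*(Q-U))^n = 2^n*(Q-U)^n := by
    first | (rw [← mul_pow]; done) | (rw [← mul_pow]; exact pe hn (Or.inl (by ring1))) |
      (rw [← mul_pow]; exact pe hn (Or.inr (by ring1)))
  have q22 : (-2*(Q+R))^n = 2^n*(Q+R)^n := by
    first | (rw [← mul_pow]; done) | (rw [← mul_pow]; exact pe hn (Or.inl (by ring1))) |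
      (rw [← mul_pow]; exact pe hn (Or.inr (by ring1)))
  have q23 : (Q-P-R-U)^n = (P-Q+R+U)^n := by
    first | exact pe hn (Or.inl (by ring1)) | exact pe hn (Or.inr (by ring1))
  have q24 : (Q-P+R+U)^n = (P-Q-R-U)^n := by
    first | exact pe hn (Or.inl (by ring1)) | exact pe hn (Or.inr (by ring1))
  have q25 : (-(Q-P-R-U))^n = (P-Q+R+U)^n := by
    first | exact pe hn (Or.inl (by ring1)) | exact pe hn (Or.inr (by ring1))
  have q26 : (-(Q-P+R+U))^n = (P-Q-R-U)^n := by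
    first | exact pe hn (Or.inl (by ring1)) | exact pe hn (Or.inr (by ring1))
  have q27 : (-2*P)^n = 2^n*P^n := by
    first | (rw [← mul_pow]; done) | (rw [← mul_pow]; exact pe hn (Or.inl (by ring1))) |
      (rw [← mul_pow]; exact pe hn (Or.inr (by ring1)))
  have q28 : (2*Q)^n = 2^n*Q^n := by
    first | (rw [← mul_pow]; done) | (rw [← mul_pow]; exact pe hn (Or.inl (by ring1))) |
      (rw [← mul_pow]; exact pe hn (Or.inr (by ring1)))
  have q29 : (2*P)^n = 2^n*P^n := by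
    first | (rw [← mul_pow]; done) | (rw [← mul_pow]; exact pe hn (Or.inl (by ring1))) |
      (rw [← mul_pow]; exact pe hn (Or.inr (by ring1)))
  have q30 : (2*R)^n = 2^n*R^n := by
    first | (rw [← mul_pow]; done) | (rw [← mul_pow]; exact pe hn (Or.inl (by ring1))) |
      (rw [← mul_pow]; exact pe hn (Or.inr (by ring1)))
  have q31 : (2*U)^n = 2^n*U^n := by
    first | (rw [← mul_pow]; done) | (rw [← mul_pow]; exact pe hn (Or.inl (by ring1))) |
      (rw [← mul_pow]; exact pe hn (Or.inr (by ring1)))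
  have q32 : (-(2*R))^n = 2^n*R^n := by
    first | (rw [← mul_pow]; done) | (rw [← mul_pow]; exact pe hn (Or.inl (by ring1))) |
      (rw [← mul_pow]; exact pe hn (Or.inr (by ring1)))
  have q33 : (-(2*P))^n = 2^n*P^n := by
    first | (rw [← mul_pow]; done) | (rw [← mul_pow]; exact pe hn (Or.inl (by ring1))) |
      (rw [← mul_pow]; exact pe hn (Or.inr (by ring1)))
  have q34 : (2*(R-U))^n = 2^n*(R-U)^n := by
    first | (rw [← mul_pow]; done) | (rw [← mul_pow]; exact pe hn (Or.inl (by ring1))) |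
      (rw [← mul_pow]; exact pe hn (Or.inr (by ring1)))
  have q35 : (2*(P-Q))^n = 2^n*(P-Q)^n := by
    first | (rw [← mul_pow]; done) | (rw [← mul_pow]; exact pe hn (Or.inl (by ring1))) |
      (rw [← mul_pow]; exact pe hn (Or.inr (by ring1)))
  have q36 : (-(P+Q+R+U))^n = (P+Q+R+U)^n := by
    first | exact pe hn (Or.inl (by ring1)) | exact pe hn (Or.inr (by ring1))
  have q37 : (-(P+Q-R-U))^n = (P+Q-R-U)^n := by
    first | exact pe hn (Or.inl (by ring1)) | exact pe hn (Or.inr (by ring1))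
  have z0 : (0 : F)^n = 0 := zero_pow hn0
  unfold Phi
  simp only [q0, q1, q2, q3, q4, q5, q6, q7, q8, q9, q10, q11, q12, q13, q14, q15, q16, q17, q18, q19, q20, q21, q22, q23, q24, q25, q26, q27, q28, q29, q30, q31, q32, q33, q34, q35, q36, q37, z0] at h1 h3 h5 h7 h8
  linear_combination h1 + (N : F) * h2.symm + h3 + (N : F) * h4.symm + h5 + (N : F) * h6 +
    2 * h7 + 2 * h8

end Pool.Agent.MP_a57f33_nt.BZ
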