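import Pool.Agent.Lib.MP_a57f33_nt.TwoTerm
import Pool.Agent.Lib.MP_a57f33_nt.Bridge

/-!
Definitions for the Brown-Zagier relation on `dm₀`.
-/

namespace Pool.Agent.MP_a57f33_nt.BZ

open Pool.Agent.MP_a57f33_nt
open Matrix

/-- The substitution `x₀ ↦ x₀`, `x₁ ↦ -x₁`; `sgn ψ = ψ'` in the notes. -/
noncomputable def sgn : QX →ₐ[ℚ] QX :=
  FreeAlgebra.lift ℚ fun b : Bool => if b then -X1 else X0

/-- The substitution `x₀ ↦ -x₀ - x₁`, `x₁ ↦ -x₁`; `rot ψ = ψ'(x_∞, x₁)`, `x_∞ = -x₀ - x₁`. -/
noncomputable def rot : QX →ₐ[ℚ] QX :=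
  FreeAlgebra.lift ℚ fun b : Bool => if b then -X1 else -X0 - X1

/-- `φ₁ = ψ'(x_∞, x₁)`. -/
noncomputable def ph1 (ψ : QX) : QX := rot ψ

/-- `φ₀ = φ₁ - ψ'`. -/
noncomputable def ph0 (ψ : QX) : QX := rot ψ - sgn ψ

/-- The cyclic functional on words (the Hamiltonian of the special derivation of `ψ`). -/
noncomputable def K (ψ : QX) : List Bool → ℚ
  | [] => 0
  | false :: w => coeff (ph0 ψ) w
  | true :: w => coeff (ph1 ψ) w

/-- Sum over all words of length `n`. -/
def SW {M : Type} [AddCommMonoid M] : ℕ → (List Bool → M) → M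
  | 0, f => f []
  | n + 1, f => SW n (fun w => f (false :: w)) + SW n (fun w => f (true :: w))

/-- Evaluation of a word: `false ↦ A`, `true ↦ B`. -/
def ev {S : Type} [Monoid S] (A B : S) (w : List Bool) : S := (w.map fun b => cond b B A).prod

/-- The trace functional `T k n A B = ∑_{|w| = n} k(w) tr w(A, B)`. -/
noncomputable def T {R ι : Type} [CommRing R] [Algebra ℚ R] [Fintype ι] [DecidableEq ι]
    (k : List Bool → ℚ) (n : ℕ) (A B : Matrix ι ι R) : R :=
  SW n fun w => k w • (ev A B w).trace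

/-- `W n A B = tr (A+B)^n - tr A^n - tr B^n`. -/
noncomputable def W {R ι : Type} [CommRing R] [Fintype ι] [DecidableEq ι]
    (n : ℕ) (A B : Matrix ι ι R) : R :=
  ((A + B) ^ n).trace - (A ^ n).trace - (B ^ n).trace

/-- `J = N T - c W`, all in length `N + 1`. -/
noncomputable def J {R ι : Type} [CommRing R] [Algebra ℚ R] [Fintype ι] [DecidableEq ι]
    (k : List Bool → ℚ) (N : ℕ) (c : ℚ) (A B : Matrix ι ι R) : R :=
  (N : R) * T k (N + 1) A B - c • W (N + 1) A B

/-- Sum over the letters of a word of the value at the word with this letter doubled. -/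
def dbl : List Bool → (List Bool → ℚ) → ℚ
  | [], _ => 0
  | a :: w, f => f (a :: a :: w) + dbl w (fun t => f (a :: t))

/-- The alternating word of length `n` starting with `a`. -/
def alt : Bool → ℕ → List Bool
  | _, 0 => []
  | a, n + 1 => a :: alt (!a) n

/-- `k` is invariant under rotation of words. -/
def Cyc (k : List Bool → ℚ) : Prop := ∀ a w, k (w ++ [a]) = k (a :: w)

/-- The divergence condition in length `N`. -/
def Dv (k : List Bool → ℚ) (N : ℕ) (c : ℚ) : Prop :=
  ∀ C : List Bool, C.length = N →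
    dbl C k = if C = List.replicate N false ∨ C = List.replicate N true then 0 else c

/-- The projection on the first two coordinates. -/
def E0 (R : Type) [CommRing R] : Matrix (Fin 4) (Fin 4) R := Matrix.diagonal ![1, 1, 0, 0]

/-- The projection on the last two coordinates. -/
def E1 (R : Type) [CommRing R] : Matrix (Fin 4) (Fin 4) R := Matrix.diagonal ![0, 0, 1, 1]

/-- The symplectic four by four family. -/
def MH {R : Type} [CommRing R] (a b s t : R) : Matrix (Fin 4) (Fin 4) R :=
  !![0, a, -t, a; a, 0, -b, s; -t, b, 0, b; -a, s, b, 0]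

end Pool.Agent.MP_a57f33_nt.BZ
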