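import Pool.Agent.Lib.MP_a57f33_nt.BZ.Poly

/-!
Second order expansion of `Phi`.
-/

namespace Pool.Agent.MP_a57f33_nt.BZ

open Pool.Agent.MP_a57f33_nt
open Matrix

variable {R : Type} [CommRing R]

lemma nil_pow (u v l : R) (hu : u * u = 0) (hv : v * v = 0) : ∀ m : ℕ,
    (u + v + l) ^ (m + 2) = l ^ (m + 2) + ((m + 2 : ℕ) : R) * (u + v) * l ^ (m + 1) +
      ((m + 2 : ℕ) : R) * ((m + 1 : ℕ) : R) * (u * v) * l ^ m
  | 0 => by
    push_cast
    linear_combination hu + hv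
  | m + 1 => by
    rw [pow_succ (u + v + l) (m + 2), nil_pow u v l hu hv m]
    push_cast
    linear_combination (((m : R) + 2) * l ^ (m + 1) + ((m : R) + 2) * ((m : R) + 1) * v * l ^ m) * hu +
      (((m : R) + 2) * l ^ (m + 1) + ((m : R) + 2) * ((m : R) + 1) * u * l ^ m) * hv

lemma nil_pow0 (u v : R) (hu : u * u = 0) (hv : v * v = 0) (m : ℕ) (hm : 1 ≤ m) :
    (u + v) ^ (m + 2) = 0 := by
  have h := nil_pow u v 0 hu hv m
  rw [add_zero] at h
  rw [h]
  have h1 : (0 : R) ^ m = 0 := zero_pow (by omega)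
  have h2 : (0 : R) ^ (m + 1) = 0 := zero_pow (by omega)
  have h3 : (0 : R) ^ (m + 2) = 0 := zero_pow (by omega)
  rw [h1, h2, h3]
  ring

/-- The expansion of `Phi` for the parameters `(4a, 4b, 4x, 4y)`. -/
lemma Phi_exp1 (a b x y : R) (ha : a * a = 0) (hb : b * b = 0) (r : ℕ) (hr : 1 ≤ r) :
    Phi (2 * r + 2) (a + b + x + y) (a + b - x - y) (a - b + x - y) (a - b - x + y) =
      Phi (2 * r + 2) (x + y) (-x - y) (x - y) (-x + y) +
        2 ^ (2 * r + 3) * (2 ^ (2 * r + 2) - 4) * ((2 * r + 2 : ℕ) : R) * ((2 * r + 1 : ℕ) : R) *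
          (a * b) * ((x - y) ^ (2 * r) - (x + y) ^ (2 * r)) := by
  have hb' : (-b) * (-b) = 0 := by rw [neg_mul_neg]; exact hb
  have ha' : (-a) * (-a) = 0 := by rw [neg_mul_neg]; exact ha
  have e1 := nil_pow a b (x - y) ha hb (2 * r)
  have e2 := nil_pow a b (y - x) ha hb (2 * r)
  have e3 := nil_pow a (-b) (x + y) ha hb' (2 * r)
  have e4 := nil_pow (-a) b (x + y) ha' hb (2 * r)
  have e5 := nil_pow a b (x + y) ha hb (2 * r)
  have e6 := nil_pow a b (-(x + y)) ha hb (2 * r)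
  have e7 := nil_pow a (-b) (x - y) ha hb' (2 * r)
  have e8 := nil_pow a (-b) (y - x) ha hb' (2 * r)
  have z1 : a ^ (2 * r + 2) = 0 := by
    have := nil_pow0 a 0 ha (by ring) (2 * r) (by omega)
    rwa [add_zero] at this
  have z2 : b ^ (2 * r + 2) = 0 := by
    have := nil_pow0 b 0 hb (by ring) (2 * r) (by omega)
    rwa [add_zero] at this
  have ev2 : Even (2 * r + 2) := ⟨r + 1, by ring⟩
  have ev0 : Even (2 * r) := ⟨r, by ring⟩
  have od : Odd (2 * r + 1) := ⟨r, rfl⟩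
  have f1 : (y - x) ^ (2 * r + 2) = (x - y) ^ (2 * r + 2) := by
    rw [← neg_sub x y, ev2.neg_pow]
  have f2 : (y - x) ^ (2 * r + 1) = -(x - y) ^ (2 * r + 1) := by
    rw [← neg_sub x y, od.neg_pow]
  have f3 : (y - x) ^ (2 * r) = (x - y) ^ (2 * r) := by
    rw [← neg_sub x y, ev0.neg_pow]
  have f4 : (-(x + y)) ^ (2 * r + 2) = (x + y) ^ (2 * r + 2) := ev2.neg_pow _
  have f5 : (-(x + y)) ^ (2 * r + 1) = -(x + y) ^ (2 * r + 1) := od.neg_pow _
  have f6 : (-(x + y)) ^ (2 * r) = (x + y) ^ (2 * r) := ev0.neg_pow _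
  rw [f1, f2, f3] at e2 e8
  rw [f4, f5, f6] at e6
  set n := 2 * r + 2 with hn
  -- rewrite all bases
  have g1 : (a + b + x + y + (a + b - x - y) + (a - b + x - y) - (a - b - x + y)) ^ n =
      2 ^ n * (a + b + (x - y)) ^ n := by rw [← mul_pow]; congr 1; ring
  have g2 : (a + b + x + y + (a + b - x - y) - (a - b + x - y) + (a - b - x + y)) ^ n =
      2 ^ n * (a + b + (y - x)) ^ n := by rw [← mul_pow]; congr 1; ring
  have g3 : (a + b + x + y - (a + b - x - y) + (a - b + x - y) + (a - b - x + y)) ^ n =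
      2 ^ n * (a + -b + (x + y)) ^ n := by rw [← mul_pow]; congr 1; ring
  have g4 : (a + b + x + y - (a + b - x - y) - (a - b + x - y) - (a - b - x + y)) ^ n =
      2 ^ n * (-a + b + (x + y)) ^ n := by rw [← mul_pow]; congr 1; ring
  have g5 : (a + b + x + y) ^ n = (a + b + (x + y)) ^ n := by congr 1; ring
  have g6 : (a + b - x - y) ^ n = (a + b + -(x + y)) ^ n := by congr 1; ring
  have g7 : (a - b + x - y) ^ n = (a + -b + (x - y)) ^ n := by congr 1; ring
  have g8 : (a - b - x + y) ^ n = (a + -b + (y - x)) ^ n := by congr 1; ring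
  have g9 : (a + b + x + y - (a + b - x - y) + (a - b + x - y) - (a - b - x + y)) ^ n =
      4 ^ n * x ^ n := by rw [← mul_pow]; congr 1; ring
  have g10 : (a + b + x + y - (a + b - x - y) - (a - b + x - y) + (a - b - x + y)) ^ n =
      4 ^ n * y ^ n := by rw [← mul_pow]; congr 1; ring
  have g11 : (a + b + x + y + (a + b - x - y) + (a - b + x - y) + (a - b - x + y)) ^ n =
      4 ^ n * a ^ n := by rw [← mul_pow]; congr 1; ring
  have g12 : (a + b + x + y + (a + b - x - y) - (a - b + x - y) - (a - b - x + y)) ^ n =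
      4 ^ n * b ^ n := by rw [← mul_pow]; congr 1; ring
  have g13 : (a - b + x - y - (a - b - x + y)) ^ n = 2 ^ n * (x - y) ^ n := by
    rw [← mul_pow]; congr 1; ring
  have g14 : (a + b + x + y - (a + b - x - y)) ^ n = 2 ^ n * (x + y) ^ n := by
    rw [← mul_pow]; congr 1; ring
  have k1 : (x + y + (-x - y) + (x - y) - (-x + y)) ^ n = 2 ^ n * (x - y) ^ n := by
    rw [← mul_pow]; congr 1; ring
  have k2 : (x + y + (-x - y) - (x - y) + (-x + y)) ^ n = 2 ^ n * (x - y) ^ n := by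
    rw [← f1, ← mul_pow]; congr 1; ring
  have k3 : (x + y - (-x - y) + (x - y) + (-x + y)) ^ n = 2 ^ n * (x + y) ^ n := by
    rw [← mul_pow]; congr 1; ring
  have k4 : (x + y - (-x - y) - (x - y) - (-x + y)) ^ n = 2 ^ n * (x + y) ^ n := by
    rw [← mul_pow]; congr 1; ring
  have k6 : (-x - y) ^ n = (x + y) ^ n := by rw [← f4]; congr 1; ring
  have k8 : (-x + y) ^ n = (x - y) ^ n := by rw [← f1]; congr 1; ring
  have k9 : (x + y - (-x - y) + (x - y) - (-x + y)) ^ n = 4 ^ n * x ^ n := by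
    rw [← mul_pow]; congr 1; ring
  have k10 : (x + y - (-x - y) - (x - y) + (-x + y)) ^ n = 4 ^ n * y ^ n := by
    rw [← mul_pow]; congr 1; ring
  have hn0 : n ≠ 0 := by omega
  have k11 : (x + y + (-x - y) + (x - y) + (-x + y)) ^ n = 0 := by
    rw [show x + y + (-x - y) + (x - y) + (-x + y) = 0 by ring, zero_pow hn0]
  have k12 : (x + y + (-x - y) - (x - y) - (-x + y)) ^ n = 0 := by
    rw [show x + y + (-x - y) - (x - y) - (-x + y) = 0 by ring, zero_pow hn0]
  have k13 : (x - y - (-x + y)) ^ n = 2 ^ n * (x - y) ^ n := by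
    rw [← mul_pow]; congr 1; ring
  have k14 : (x + y - (-x - y)) ^ n = 2 ^ n * (x + y) ^ n := by
    rw [← mul_pow]; congr 1; ring
  unfold Phi
  rw [g1, g2, g3, g4, g5, g6, g7, g8, g9, g10, g11, g12, g13, g14, k1, k2, k3, k4, k6, k8, k9, k10,
    k11, k12, k13, k14, e1, e2, e3, e4, e5, e6, e7, e8, z1, z2]
  have p3 : (2 : R) ^ (2 * r + 3) = 2 * 2 ^ n := by rw [hn, ← pow_succ']
  rw [p3]
  ring

end Pool.Agent.MP_a57f33_nt.BZ
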