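import Pool.Agent.Lib.MP_a57f33_nt.BZ.Fin1

/-!
Second order expansion of `Phi`, second case.
-/

namespace Pool.Agent.MP_a57f33_nt.BZ

open Pool.Agent.MP_a57f33_nt
open Matrix

variable {R : Type} [CommRing R]

/-- The expansion of `Phi` for the parameters `(4(a+b), 0, 4x, 4y)`. -/
lemma Phi_exp2 (a b x y : R) (ha : a * a = 0) (hb : b * b = 0) (r : ℕ) (hr : 1 ≤ r) :
    Phi (2 * r + 2) (a + b + x + y) (a + b - x - y) (a + b + x - y) (a + b - x + y) =
      Phi (2 * r + 2) (x + y) (-x - y) (x - y) (-x + y) +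
        2 * 4 ^ (2 * r + 2) * ((2 * r + 2 : ℕ) : R) * ((2 * r + 1 : ℕ) : R) *
          (a * b) * ((x - y) ^ (2 * r) + (x + y) ^ (2 * r)) := by
  have hb' : (-b) * (-b) = 0 := by rw [neg_mul_neg]; exact hb
  have ha' : (-a) * (-a) = 0 := by rw [neg_mul_neg]; exact ha
  have e1 := nil_pow a b (x - y) ha hb (2 * r)
  have e2 := nil_pow a b (y - x) ha hb (2 * r)
  have e4 := nil_pow (-a) (-b) (x + y) ha' hb' (2 * r)
  have e5 := nil_pow a b (x + y) ha hb (2 * r)
  have e6 := nil_pow a b (-(x + y)) ha hb (2 * r)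
  have z1 : (a + b) ^ (2 * r + 2) = 0 := nil_pow0 a b ha hb (2 * r) (by omega)
  have ev2 : Even (2 * r + 2) := ⟨r + 1, by ring⟩
  have ev0 : Even (2 * r) := ⟨r, by ring⟩
  have od : Odd (2 * r + 1) := ⟨r, rfl⟩
  have f1 : (y - x) ^ (2 * r + 2) = (x - y) ^ (2 * r + 2) := by
    rw [← neg_sub x y, ev2.neg_pow]
  have f2 : (y - x) ^ (2 * r + 1) = -(x - y) ^ (2 * r + 1) := by
    rw [← neg_sub x y, od.neg_pow]
  have f3 : (y - x) ^ (2 * r) = (x - y) ^ (2 * r) := by
    rw [← neg_sub x y, ev0.neg_pow]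
  have f4 : (-(x + y)) ^ (2 * r + 2) = (x + y) ^ (2 * r + 2) := ev2.neg_pow _
  have f5 : (-(x + y)) ^ (2 * r + 1) = -(x + y) ^ (2 * r + 1) := od.neg_pow _
  have f6 : (-(x + y)) ^ (2 * r) = (x + y) ^ (2 * r) := ev0.neg_pow _
  rw [f1, f2, f3] at e2
  rw [f4, f5, f6] at e6
  set n := 2 * r + 2 with hn
  have g1 : (a + b + x + y + (a + b - x - y) + (a + b + x - y) - (a + b - x + y)) ^ n =
      2 ^ n * (a + b + (x - y)) ^ n := by rw [← mul_pow]; congr 1; ring
  have g2 : (a + b + x + y + (a + b - x - y) - (a + b + x - y) + (a + b - x + y)) ^ n =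
      2 ^ n * (a + b + (y - x)) ^ n := by rw [← mul_pow]; congr 1; ring
  have g3 : (a + b + x + y - (a + b - x - y) + (a + b + x - y) + (a + b - x + y)) ^ n =
      2 ^ n * (a + b + (x + y)) ^ n := by rw [← mul_pow]; congr 1; ring
  have g4 : (a + b + x + y - (a + b - x - y) - (a + b + x - y) - (a + b - x + y)) ^ n =
      2 ^ n * (-a + -b + (x + y)) ^ n := by rw [← mul_pow]; congr 1; ring
  have g5 : (a + b + x + y) ^ n = (a + b + (x + y)) ^ n := by congr 1; ring
  have g6 : (a + b - x - y) ^ n = (a + b + -(x + y)) ^ n := by congr 1; ring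
  have g7 : (a + b + x - y) ^ n = (a + b + (x - y)) ^ n := by congr 1; ring
  have g8 : (a + b - x + y) ^ n = (a + b + (y - x)) ^ n := by congr 1; ring
  have g9 : (a + b + x + y - (a + b - x - y) + (a + b + x - y) - (a + b - x + y)) ^ n =
      4 ^ n * x ^ n := by rw [← mul_pow]; congr 1; ring
  have g10 : (a + b + x + y - (a + b - x - y) - (a + b + x - y) + (a + b - x + y)) ^ n =
      4 ^ n * y ^ n := by rw [← mul_pow]; congr 1; ring
  have g11 : (a + b + x + y + (a + b - x - y) + (a + b + x - y) + (a + b - x + y)) ^ n =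
      4 ^ n * (a + b) ^ n := by rw [← mul_pow]; congr 1; ring
  have hn0 : n ≠ 0 := by omega
  have g12 : (a + b + x + y + (a + b - x - y) - (a + b + x - y) - (a + b - x + y)) ^ n = 0 := by
    rw [show a + b + x + y + (a + b - x - y) - (a + b + x - y) - (a + b - x + y) = 0 by ring,
      zero_pow hn0]
  have g13 : (a + b + x - y - (a + b - x + y)) ^ n = 2 ^ n * (x - y) ^ n := by
    rw [← mul_pow]; congr 1; ring
  have g14 : (a + b + x + y - (a + b - x - y)) ^ n = 2 ^ n * (x + y) ^ n := by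
    rw [← mul_pow]; congr 1; ring
  have k1 : (x + y + (-x - y) + (x - y) - (-x + y)) ^ n = 2 ^ n * (x - y) ^ n := by
    rw [← mul_pow]; congr 1; ring
  have k2 : (x + y + (-x - y) - (x - y) + (-x + y)) ^ n = 2 ^ n * (x - y) ^ n := by
    rw [← f1, ← mul_pow]; congr 1; ring
  have k3 : (x + y - (-x - y) + (x - y) + (-x + y)) ^ n = 2 ^ n * (x + y) ^ n := by
    rw [← mul_pow]; congr 1; ring
  have k4 : (x + y - (-x - y) - (x - y) - (-x + y)) ^ n = 2 ^ n * (x + y) ^ n := by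
    rw [← mul_pow]; congr 1; ring
  have k6 : (-x - y) ^ n = (x + y) ^ n := by rw [← f4]; congr 1; ring
  have k8 : (-x + y) ^ n = (x - y) ^ n := by rw [← f1]; congr 1; ring
  have k9 : (x + y - (-x - y) + (x - y) - (-x + y)) ^ n = 4 ^ n * x ^ n := by
    rw [← mul_pow]; congr 1; ring
  have k10 : (x + y - (-x - y) - (x - y) + (-x + y)) ^ n = 4 ^ n * y ^ n := by
    rw [← mul_pow]; congr 1; ring
  have k11 : (x + y + (-x - y) + (x - y) + (-x + y)) ^ n = 0 := by
    rw [show x + y + (-x - y) + (x - y) + (-x + y) = 0 by ring, zero_pow hn0]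
  have k12 : (x + y + (-x - y) - (x - y) - (-x + y)) ^ n = 0 := by
    rw [show x + y + (-x - y) - (x - y) - (-x + y) = 0 by ring, zero_pow hn0]
  have k13 : (x - y - (-x + y)) ^ n = 2 ^ n * (x - y) ^ n := by
    rw [← mul_pow]; congr 1; ring
  have k14 : (x + y - (-x - y)) ^ n = 2 ^ n * (x + y) ^ n := by
    rw [← mul_pow]; congr 1; ring
  have p4 : (4 : R) ^ n = 2 ^ n * 2 ^ n := by rw [← mul_pow]; norm_num
  unfold Phi
  rw [g1, g2, g3, g4, g5, g6, g7, g8, g9, g10, g11, g12, g13, g14, k1, k2, k3, k4, k6, k8, k9, k10,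
    k11, k12, k13, k14, e1, e2, e4, e5, e6, z1, p4]
  ring

end Pool.Agent.MP_a57f33_nt.BZ
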