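import Pool.Agent.Lib.MP_a57f33_nt.BZ.Defs

/-!
Common lemmas for the pieces [x1] and [x2]: sums over words, first order expansion of `ev`,
the cyclic first order lemma for `T`, and the collapse of `SW` to alternating words.
-/

namespace Pool.Agent.MP_a57f33_nt.BZ

open Pool.Agent.MP_a57f33_nt
open Matrix

section Words

variable {M M' : Type} [AddCommMonoid M] [AddCommMonoid M']

theorem xl_SW_zero (f : List Bool → M) : SW 0 f = f [] := rfl

theorem xl_SW_succ (n : ℕ) (f : List Bool → M) :
    SW (n + 1) f = SW n (fun w => f (false :: w)) + SW n (fun w => f (true :: w)) := rfl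

theorem xl_SW_congr (n : ℕ) (f g : List Bool → M) (h : ∀ w : List Bool, w.length = n → f w = g w) :
    SW n f = SW n g := by
  induction n generalizing f g with
  | zero => exact h [] rfl
  | succ n ih =>
    rw [xl_SW_succ, xl_SW_succ]
    rw [ih (fun w => f (false :: w)) (fun w => g (false :: w))
        (fun w hw => h _ (by rw [List.length_cons, hw])),
      ih (fun w => f (true :: w)) (fun w => g (true :: w))
        (fun w hw => h _ (by rw [List.length_cons, hw]))]

theorem xl_SW_add (n : ℕ) (f g : List Bool → M) :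
    SW n (fun w => f w + g w) = SW n f + SW n g := by
  induction n generalizing f g with
  | zero => rfl
  | succ n ih =>
    rw [xl_SW_succ, xl_SW_succ, xl_SW_succ, ih, ih]
    exact add_add_add_comm _ _ _ _

theorem xl_SW_const_zero (n : ℕ) : SW n (fun _ => (0 : M)) = 0 := by
  induction n with
  | zero => rfl
  | succ n ih => rw [xl_SW_succ, ih, add_zero]

theorem xl_SW_map (φ : M →+ M') (n : ℕ) (f : List Bool → M) :
    SW n (fun w => φ (f w)) = φ (SW n f) := by
  induction n generalizing f with
  | zero => rfl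
  | succ n ih => rw [xl_SW_succ, xl_SW_succ, ih, ih, map_add]

theorem xl_SW_comm (m n : ℕ) (f : List Bool → List Bool → M) :
    SW m (fun u => SW n (fun v => f u v)) = SW n (fun v => SW m (fun u => f u v)) := by
  induction m generalizing f with
  | zero => rfl
  | succ m ih =>
    rw [xl_SW_succ, ih, ih, ← xl_SW_add]
    rfl

theorem xl_SW_append (m n : ℕ) (f : List Bool → M) :
    SW (m + n) f = SW m (fun u => SW n (fun v => f (u ++ v))) := by
  induction m generalizing f with
  | zero => rw [Nat.zero_add]; rfl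
  | succ m ih =>
    have h : m + 1 + n = (m + n) + 1 := by omega
    rw [h, xl_SW_succ, ih, ih]
    rfl

end Words

section Cyclic

theorem xl_cyc (k : List Bool → ℚ) (hk : Cyc k) (u w : List Bool) : k (u ++ w) = k (w ++ u) := by
  induction u generalizing w with
  | nil => rw [List.nil_append, List.append_nil]
  | cons a u ih =>
    rw [List.cons_append, ← hk a (u ++ w), List.append_assoc, ih (w ++ [a]), List.append_assoc]
    rfl

end Cyclic

section Ev

variable {S : Type} [Ring S]

theorem xl_ev_nil (A B : S) : ev A B [] = 1 := rfl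

theorem xl_ev_cons (A B : S) (i : Bool) (w : List Bool) :
    ev A B (i :: w) = cond i B A * ev A B w := by
  unfold ev
  rw [List.map_cons, List.prod_cons]

theorem xl_ev_append (A B : S) (u w : List Bool) :
    ev A B (u ++ w) = ev A B u * ev A B w := by
  unfold ev
  rw [List.map_append, List.prod_append]

/-- The derivative of `ev` in the direction `(A', B')`. -/
def xdev (A B A' B' : S) : List Bool → S
  | [] => 0
  | i :: w => cond i B' A' * ev A B w + cond i B A * xdev A B A' B' w

/-- First order expansion of `ev`. -/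
theorem xl_ev_first {R : Type} [CommRing R] [Algebra R S] (A B A' B' : S) (b : R) (hb : b * b = 0)
    (w : List Bool) :
    ev (A + b • A') (B + b • B') w = ev A B w + b • xdev A B A' B' w := by
  induction w with
  | nil => rw [xl_ev_nil, xl_ev_nil, xdev, smul_zero, add_zero]
  | cons i w ih =>
    rw [xl_ev_cons, ih, xl_ev_cons, xdev]
    have hc : cond i (B + b • B') (A + b • A') = cond i B A + b • cond i B' A' := by
      cases i <;> rfl
    rw [hc, add_mul, mul_add, mul_add, smul_mul_smul_comm, hb, zero_smul, add_zero, smul_mul_assoc,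
      mul_smul_comm, smul_add]
    abel

/-- Expansion of the derivative over the position of the differentiated letter. -/
theorem xl_dev_expand {M : Type} [AddCommMonoid M] (A B A' B' : S) (N : ℕ)
    (φ : List Bool → S →+ M) :
    SW N (fun w => φ w (xdev A B A' B' w)) =
      ∑ l ∈ Finset.range N, SW l (fun u => SW (N - 1 - l) (fun v =>
        φ (u ++ false :: v) (ev A B u * A' * ev A B v) +
        φ (u ++ true :: v) (ev A B u * B' * ev A B v))) := by
  induction N generalizing φ with
  | zero =>
    rw [xl_SW_zero, Finset.range_zero, Finset.sum_empty, xdev, map_zero]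
  | succ N ih =>
    have h1 : ∀ i : Bool, SW N (fun w => φ (i :: w) (xdev A B A' B' (i :: w))) =
        SW N (fun w => φ (i :: w) (cond i B' A' * ev A B w)) +
        ∑ l ∈ Finset.range N, SW l (fun u => SW (N - 1 - l) (fun v =>
          φ ((i :: u) ++ false :: v) (ev A B (i :: u) * A' * ev A B v) +
          φ ((i :: u) ++ true :: v) (ev A B (i :: u) * B' * ev A B v))) := by
      intro i
      have h2 := ih (fun w => (φ (i :: w)).comp (AddMonoidHom.mulLeft (cond i B A)))
      have h3 : (fun w => φ (i :: w) (xdev A B A' B' (i :: w))) =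
          (fun w => φ (i :: w) (cond i B' A' * ev A B w) +
            ((φ (i :: w)).comp (AddMonoidHom.mulLeft (cond i B A))) (xdev A B A' B' w)) := by
        funext w
        rw [xdev, map_add]
        rfl
      rw [h3, xl_SW_add, h2]
      congr 1
      refine Finset.sum_congr rfl fun l _ => ?_
      refine xl_SW_congr _ _ _ fun u _ => ?_
      refine xl_SW_congr _ _ _ fun v _ => ?_
      rw [xl_ev_cons]
      simp only [AddMonoidHom.comp_apply, AddMonoidHom.coe_mulLeft, mul_assoc, List.cons_append]
    rw [xl_SW_succ, h1 false, h1 true, Finset.sum_range_succ']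
    rw [add_add_add_comm, ← Finset.sum_add_distrib, add_comm]
    congr 1
    · refine Finset.sum_congr rfl fun l _ => ?_
      rw [xl_SW_succ]
      have h4 : N + 1 - 1 - (l + 1) = N - 1 - l := by omega
      rw [h4]
    · rw [xl_SW_zero]
      simp only [xl_ev_nil, one_mul, List.nil_append, Nat.add_sub_cancel, Nat.sub_zero, cond_false,
        cond_true]
      rw [xl_SW_add]

/-- Collapse to alternating words. -/
theorem xl_alt_collapse {M : Type} [AddCommMonoid M] (A B : S) (hA : A * A = 0) (hB : B * B = 0)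
    (P : Bool → ℕ → S) (hP0 : P false 0 + P true 0 = 1)
    (hf0 : A * P false 0 = 0) (ht0 : B * P true 0 = 0)
    (hf : ∀ l, P false (l + 1) = A * P true l) (ht : ∀ l, P true (l + 1) = B * P false l)
    (l : ℕ) (φ : List Bool → S →+ M) :
    SW l (fun u => φ u (ev A B u)) = φ (alt false l) (P false l) + φ (alt true l) (P true l) := by
  have zf : ∀ l, A * P false l = 0 := by
    intro l
    cases l with
    | zero => exact hf0
    | succ l => rw [hf, ← mul_assoc, hA, zero_mul]
  have zt : ∀ l, B * P true l = 0 := by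
    intro l
    cases l with
    | zero => exact ht0
    | succ l => rw [ht, ← mul_assoc, hB, zero_mul]
  induction l generalizing φ with
  | zero =>
    rw [xl_SW_zero, xl_ev_nil, ← hP0, map_add]
    rfl
  | succ l ih =>
    have h1 : ∀ i : Bool, SW l (fun w => φ (i :: w) (ev A B (i :: w))) =
        φ (i :: alt false l) (cond i B A * P false l) + φ (i :: alt true l) (cond i B A * P true l) := by
      intro i
      have h2 := ih (fun w => (φ (i :: w)).comp (AddMonoidHom.mulLeft (cond i B A)))
      have h3 : (fun w => φ (i :: w) (ev A B (i :: w))) =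
          (fun w => ((φ (i :: w)).comp (AddMonoidHom.mulLeft (cond i B A))) (ev A B w)) := by
        funext w
        rw [xl_ev_cons]
        rfl
      rw [h3, h2]
      rfl
    rw [xl_SW_succ, h1 false, h1 true]
    simp only [cond_false, cond_true]
    rw [zf, zt, map_zero, map_zero, zero_add, add_zero, ← hf, ← ht]
    rfl

end Ev

section Trace

variable {R ι : Type} [CommRing R] [Algebra ℚ R] [Fintype ι] [DecidableEq ι]

/-- `q` times the trace, as an additive map. -/
noncomputable def xtr (q : ℚ) : Matrix ι ι R →+ R where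
  toFun X := q • X.trace
  map_zero' := by rw [Matrix.trace_zero, smul_zero]
  map_add' X Y := by rw [Matrix.trace_add, smul_add]

/-- The first order lemma: `T` at `(A + b A', B + b B')` for `b² = 0` and `k` cyclic. -/
theorem xl_T_first (k : List Bool → ℚ) (hk : Cyc k) (n : ℕ) (A B A' B' : Matrix ι ι R) (b : R)
    (hb : b * b = 0) :
    T k n (A + b • A') (B + b • B') = T k n A B +
      b * ((n : R) * SW (n - 1) (fun w =>
        k (false :: w) • (A' * ev A B w).trace + k (true :: w) • (B' * ev A B w).trace)) := by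
  have h1 : T k n (A + b • A') (B + b • B') = T k n A B +
      b * SW n (fun w => xtr (k w) (xdev A B A' B' w)) := by
    unfold T
    have h2 : b * SW n (fun w => xtr (k w) (xdev A B A' B' w)) =
        SW n (fun w => b * xtr (k w) (xdev A B A' B' w)) :=
      (xl_SW_map (AddMonoidHom.mulLeft b) n _).symm
    rw [h2, ← xl_SW_add]
    refine xl_SW_congr _ _ _ fun w _ => ?_
    rw [xl_ev_first A B A' B' b hb, Matrix.trace_add, Matrix.trace_smul, smul_add]
    congr 1
    change k w • (b * (xdev A B A' B' w).trace) = b * (k w • (xdev A B A' B' w).trace)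
    rw [mul_smul_comm]
  rw [h1, xl_dev_expand]
  congr 2
  have h3 : ∀ l ∈ Finset.range n, SW l (fun u => SW (n - 1 - l) (fun v =>
        xtr (k (u ++ false :: v)) (ev A B u * A' * ev A B v) +
        xtr (k (u ++ true :: v)) (ev A B u * B' * ev A B v))) =
      SW (n - 1) (fun w =>
        k (false :: w) • (A' * ev A B w).trace + k (true :: w) • (B' * ev A B w).trace) := by
    intro l hl
    have hl' : l < n := Finset.mem_range.mp hl
    rw [xl_SW_comm]
    have h4 : n - 1 = (n - 1 - l) + l := by omega
    have h5 : SW (n - 1) (fun w =>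
        k (false :: w) • (A' * ev A B w).trace + k (true :: w) • (B' * ev A B w).trace) =
        SW ((n - 1 - l) + l) (fun w =>
        k (false :: w) • (A' * ev A B w).trace + k (true :: w) • (B' * ev A B w).trace) := by
      rw [← h4]
    rw [h5, xl_SW_append]
    refine xl_SW_congr _ _ _ fun v _ => ?_
    refine xl_SW_congr _ _ _ fun u _ => ?_
    have h6 : ∀ (j : Bool) (X : Matrix ι ι R),
        xtr (k (u ++ j :: v)) (ev A B u * X * ev A B v) =
          k (j :: (v ++ u)) • (X * ev A B (v ++ u)).trace := by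
      intro j X
      change k (u ++ j :: v) • (ev A B u * X * ev A B v).trace = _
      rw [xl_cyc k hk u (j :: v), List.cons_append, xl_ev_append, mul_assoc, Matrix.trace_mul_comm,
        mul_assoc]
    rw [h6, h6]
  rw [Finset.sum_congr rfl h3, Finset.sum_const, Finset.card_range, nsmul_eq_mul]

/-- Collapse of a double sum. -/
theorem xl_alt_collapse2 {M S : Type} [AddCommMonoid M] [Ring S] (A B : S) (hA : A * A = 0)
    (hB : B * B = 0)
    (P : Bool → ℕ → S) (hP0 : P false 0 + P true 0 = 1)
    (hf0 : A * P false 0 = 0) (ht0 : B * P true 0 = 0)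
    (hf : ∀ l, P false (l + 1) = A * P true l) (ht : ∀ l, P true (l + 1) = B * P false l)
    (l l' : ℕ) (X : S) (χ : List Bool → List Bool → S →+ M) :
    SW l (fun u => SW l' (fun v => χ u v (ev A B u * X * ev A B v))) =
      ∑ α : Bool, ∑ β : Bool, χ (alt α l) (alt β l') (P α l * X * P β l') := by
  have h1 : ∀ u : List Bool, SW l' (fun v => χ u v (ev A B u * X * ev A B v)) =
      χ u (alt false l') (ev A B u * X * P false l') +
        χ u (alt true l') (ev A B u * X * P true l') := by
    intro u
    exact xl_alt_collapse A B hA hB P hP0 hf0 ht0 hf ht l'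
      (fun v => (χ u v).comp (AddMonoidHom.mulLeft (ev A B u * X)))
  have h2 : ∀ β : Bool, SW l (fun u => χ u (alt β l') (ev A B u * X * P β l')) =
      χ (alt false l) (alt β l') (P false l * X * P β l') +
        χ (alt true l) (alt β l') (P true l * X * P β l') := by
    intro β
    have h3 := xl_alt_collapse A B hA hB P hP0 hf0 ht0 hf ht l
      (fun u => (χ u (alt β l')).comp (AddMonoidHom.mulRight (X * P β l')))
    have h4 : ∀ (u : List Bool) (Y : S), ((χ u (alt β l')).comp (AddMonoidHom.mulRight (X * P β l'))) Y =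
        χ u (alt β l') (Y * X * P β l') := by
      intro u Y
      rw [mul_assoc Y X]
      rfl
    simp only [h4] at h3
    exact h3
  simp only [h1]
  rw [xl_SW_add, h2, h2, Fintype.sum_bool, Fintype.sum_bool, Fintype.sum_bool]
  abel

/-- The second order lemma: `T` at `(A + a A₁ + b A₂, B + a B₁ + b B₂)`, `a² = b² = 0`, for `k` cyclic and
`A² = B² = 0`. -/
theorem xl_T_second (k : List Bool → ℚ) (hk : Cyc k) (n : ℕ) (A B A1 B1 A2 B2 : Matrix ι ι R)
    (a b : R) (ha : a * a = 0) (hb : b * b = 0) (hA : A * A = 0) (hB : B * B = 0)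
    (P : Bool → ℕ → Matrix ι ι R) (hP0 : P false 0 + P true 0 = 1)
    (hf0 : A * P false 0 = 0) (ht0 : B * P true 0 = 0)
    (hf : ∀ l, P false (l + 1) = A * P true l) (ht : ∀ l, P true (l + 1) = B * P false l) :
    T k n (A + a • A1 + b • A2) (B + a • B1 + b • B2) = T k n A B +
      a * ((n : R) * ∑ i : Bool, ∑ α : Bool,
        k (i :: alt α (n - 1)) • (cond i B1 A1 * P α (n - 1)).trace) +
      b * ((n : R) * ∑ i : Bool, ∑ α : Bool,
        k (i :: alt α (n - 1)) • (cond i B2 A2 * P α (n - 1)).trace) +
      a * b * ((n : R) * ∑ l ∈ Finset.range (n - 1), ∑ i : Bool, ∑ j : Bool, ∑ α : Bool, ∑ β : Bool,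
        k (i :: (alt α l ++ j :: alt β (n - 1 - 1 - l))) •
          (cond i B2 A2 * (P α l * cond j B1 A1 * P β (n - 1 - 1 - l))).trace) := by
  -- the first order sums
  have hF : ∀ (X0' X1' : Matrix ι ι R), SW (n - 1) (fun w =>
        k (false :: w) • (X0' * ev A B w).trace + k (true :: w) • (X1' * ev A B w).trace) =
      ∑ i : Bool, ∑ α : Bool, k (i :: alt α (n - 1)) • (cond i X1' X0' * P α (n - 1)).trace := by
    intro X0' X1'
    rw [xl_SW_add]
    have h1 : ∀ (i : Bool) (X : Matrix ι ι R),
        SW (n - 1) (fun w => k (i :: w) • (X * ev A B w).trace) =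
          k (i :: alt false (n - 1)) • (X * P false (n - 1)).trace +
            k (i :: alt true (n - 1)) • (X * P true (n - 1)).trace := by
      intro i X
      exact xl_alt_collapse A B hA hB P hP0 hf0 ht0 hf ht (n - 1)
        (fun w => (xtr (k (i :: w))).comp (AddMonoidHom.mulLeft X))
    rw [h1, h1, Fintype.sum_bool, Fintype.sum_bool, Fintype.sum_bool]
    simp only [cond_false, cond_true]
    abel
  have hS : SW (n - 1) (fun w =>
        k (false :: w) • (A2 * ev (A + a • A1) (B + a • B1) w).trace +
        k (true :: w) • (B2 * ev (A + a • A1) (B + a • B1) w).trace) =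
      (∑ i : Bool, ∑ α : Bool, k (i :: alt α (n - 1)) • (cond i B2 A2 * P α (n - 1)).trace) +
      a * ∑ l ∈ Finset.range (n - 1), ∑ i : Bool, ∑ j : Bool, ∑ α : Bool, ∑ β : Bool,
        k (i :: (alt α l ++ j :: alt β (n - 1 - 1 - l))) •
          (cond i B2 A2 * (P α l * cond j B1 A1 * P β (n - 1 - 1 - l))).trace := by
    rw [← hF]
    have h2 : ∀ w : List Bool,
        k (false :: w) • (A2 * ev (A + a • A1) (B + a • B1) w).trace +
        k (true :: w) • (B2 * ev (A + a • A1) (B + a • B1) w).trace =
        (k (false :: w) • (A2 * ev A B w).trace + k (true :: w) • (B2 * ev A B w).trace) +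
        a * (((xtr (k (false :: w))).comp (AddMonoidHom.mulLeft A2) +
          (xtr (k (true :: w))).comp (AddMonoidHom.mulLeft B2)) (xdev A B A1 B1 w)) := by
      intro w
      rw [xl_ev_first A B A1 B1 a ha]
      change _ = _ + a * (k (false :: w) • (A2 * xdev A B A1 B1 w).trace +
        k (true :: w) • (B2 * xdev A B A1 B1 w).trace)
      rw [mul_add, mul_add, mul_smul_comm, mul_smul_comm, Matrix.trace_add, Matrix.trace_add,
        Matrix.trace_smul, Matrix.trace_smul, smul_add, smul_add, mul_add, mul_smul_comm,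
        mul_smul_comm, smul_eq_mul, smul_eq_mul]
      abel
    simp only [h2]
    rw [xl_SW_add]
    congr 1
    have h3 := xl_SW_map (AddMonoidHom.mulLeft a) (n - 1) (fun w =>
      (((xtr (k (false :: w))).comp (AddMonoidHom.mulLeft A2) +
          (xtr (k (true :: w))).comp (AddMonoidHom.mulLeft B2)) (xdev A B A1 B1 w)))
    simp only [AddMonoidHom.coe_mulLeft] at h3
    rw [h3]
    congr 1
    rw [xl_dev_expand]
    refine Finset.sum_congr rfl fun l _ => ?_
    have h4 : ∀ (i j : Bool) (Y X : Matrix ι ι R),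
        SW l (fun u => SW (n - 1 - 1 - l) (fun v =>
          k (i :: (u ++ j :: v)) • (Y * (ev A B u * X * ev A B v)).trace)) =
        ∑ α : Bool, ∑ β : Bool, k (i :: (alt α l ++ j :: alt β (n - 1 - 1 - l))) •
          (Y * (P α l * X * P β (n - 1 - 1 - l))).trace := by
      intro i j Y X
      exact xl_alt_collapse2 A B hA hB P hP0 hf0 ht0 hf ht l (n - 1 - 1 - l) X
        (fun u v => (xtr (k (i :: (u ++ j :: v)))).comp (AddMonoidHom.mulLeft Y))
    change SW l (fun u => SW (n - 1 - 1 - l) (fun v =>
        (k (false :: (u ++ false :: v)) • (A2 * (ev A B u * A1 * ev A B v)).trace +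
          k (true :: (u ++ false :: v)) • (B2 * (ev A B u * A1 * ev A B v)).trace) +
        (k (false :: (u ++ true :: v)) • (A2 * (ev A B u * B1 * ev A B v)).trace +
          k (true :: (u ++ true :: v)) • (B2 * (ev A B u * B1 * ev A B v)).trace))) = _
    have h6 : ∀ f g : List Bool → List Bool → R,
        SW l (fun u => SW (n - 1 - 1 - l) (fun v => f u v + g u v)) =
          SW l (fun u => SW (n - 1 - 1 - l) (fun v => f u v)) +
          SW l (fun u => SW (n - 1 - 1 - l) (fun v => g u v)) := by
      intro f g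
      rw [← xl_SW_add]
      refine xl_SW_congr _ _ _ fun u _ => ?_
      exact xl_SW_add _ _ _
    rw [h6, h6, h6, h4, h4, h4, h4]
    simp only [Fintype.sum_bool, cond_false, cond_true]
    abel
  rw [xl_T_first k hk n (A + a • A1) (B + a • B1) A2 B2 b hb, xl_T_first k hk n A B A1 B1 a ha, hF, hS]
  ring

end Trace

section Misc

theorem xl_sum_even_odd {M : Type} [AddCommMonoid M] (r : ℕ) (g : ℕ → M) :
    ∑ l ∈ Finset.range (2 * r + 1), g l =
      ∑ m ∈ Finset.range (r + 1), g (2 * m) + ∑ m ∈ Finset.range r, g (2 * m + 1) := by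
  induction r with
  | zero => simp
  | succ r ih =>
    rw [show 2 * (r + 1) + 1 = 2 * r + 1 + 1 + 1 by ring, Finset.sum_range_succ,
      Finset.sum_range_succ, ih, Finset.sum_range_succ (fun m => g (2 * m)) (r + 1),
      Finset.sum_range_succ (fun m => g (2 * m + 1)) r,
      show 2 * r + 1 + 1 = 2 * (r + 1) by ring]
    abel

theorem xl_alt_succ (a : Bool) (n : ℕ) : alt a (n + 1) = a :: alt (!a) n := rfl

theorem xl_alt_add_even (a : Bool) (m p : ℕ) : alt a (2 * m + p) = alt a (2 * m) ++ alt a p := by
  induction m with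
  | zero => simp [alt]
  | succ m ih =>
    rw [show 2 * (m + 1) + p = (2 * m + p) + 1 + 1 by ring, show 2 * (m + 1) = 2 * m + 1 + 1 by ring,
      xl_alt_succ, xl_alt_succ, xl_alt_succ, xl_alt_succ, Bool.not_not, ih]
    rfl

theorem xl_alt_add_odd (a : Bool) (m p : ℕ) :
    alt a (2 * m + 1 + p) = alt a (2 * m + 1) ++ alt (!a) p := by
  rw [show 2 * m + 1 + p = (2 * m + p) + 1 by ring, xl_alt_succ, xl_alt_succ, xl_alt_add_even]
  rfl

/-- All alternating words of even length are rotations of each other. -/
theorem xl_alt_cyc (k : List Bool → ℚ) (hk : Cyc k) (m : ℕ) :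
    k (alt false (2 * m)) = k (alt true (2 * m)) := by
  cases m with
  | zero => rfl
  | succ m =>
    have h1 : alt false (2 * (m + 1)) = false :: alt true (2 * m + 1) := rfl
    have h2 : alt true (2 * (m + 1)) = alt true (2 * m + 1) ++ [false] := by
      rw [show 2 * (m + 1) = 2 * m + 1 + 1 by ring, xl_alt_add_odd]
      rfl
    rw [h1, h2, hk]

end Misc

section Four

variable {R : Type} [CommRing R]

/-- The products of the matrices `E0 * MH 0 0 s t`, `E1 * MH 0 0 s t` along the alternating words. -/
def xP (s t : R) : Bool → ℕ → Matrix (Fin 4) (Fin 4) R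
  | false, l => if Even l then !![(-t) ^ l, 0, 0, 0; 0, s ^ l, 0, 0; 0, 0, 0, 0; 0, 0, 0, 0]
      else !![0, 0, (-t) ^ l, 0; 0, 0, 0, s ^ l; 0, 0, 0, 0; 0, 0, 0, 0]
  | true, l => if Even l then !![0, 0, 0, 0; 0, 0, 0, 0; 0, 0, (-t) ^ l, 0; 0, 0, 0, s ^ l]
      else !![0, 0, 0, 0; 0, 0, 0, 0; (-t) ^ l, 0, 0, 0; 0, s ^ l, 0, 0]

theorem xP_false_even (s t : R) (m : ℕ) : xP s t false (2 * m) =
    !![(-t) ^ (2 * m), 0, 0, 0; 0, s ^ (2 * m), 0, 0; 0, 0, 0, 0; 0, 0, 0, 0] := by
  have h : Even (2 * m) := even_two_mul m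
  simp only [xP, if_pos h]

theorem xP_true_even (s t : R) (m : ℕ) : xP s t true (2 * m) =
    !![0, 0, 0, 0; 0, 0, 0, 0; 0, 0, (-t) ^ (2 * m), 0; 0, 0, 0, s ^ (2 * m)] := by
  have h : Even (2 * m) := even_two_mul m
  simp only [xP, if_pos h]

theorem xP_false_odd (s t : R) (m : ℕ) : xP s t false (2 * m + 1) =
    !![0, 0, (-t) ^ (2 * m + 1), 0; 0, 0, 0, s ^ (2 * m + 1); 0, 0, 0, 0; 0, 0, 0, 0] := by
  have h : ¬ Even (2 * m + 1) := Nat.not_even_iff_odd.mpr (odd_two_mul_add_one m)
  simp only [xP, if_neg h]

theorem xP_true_odd (s t : R) (m : ℕ) : xP s t true (2 * m + 1) =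
    !![0, 0, 0, 0; 0, 0, 0, 0; (-t) ^ (2 * m + 1), 0, 0, 0; 0, s ^ (2 * m + 1), 0, 0] := by
  have h : ¬ Even (2 * m + 1) := Nat.not_even_iff_odd.mpr (odd_two_mul_add_one m)
  simp only [xP, if_neg h]

theorem xl_A0 (s t : R) : E0 R * MH 0 0 s t =
    !![0, 0, -t, 0; 0, 0, 0, s; 0, 0, 0, 0; 0, 0, 0, 0] := by
  unfold E0 MH
  ext i j
  fin_cases i <;> fin_cases j <;>
    simp [Matrix.diagonal_mul]

theorem xl_B0 (s t : R) : E1 R * MH 0 0 s t =
    !![0, 0, 0, 0; 0, 0, 0, 0; -t, 0, 0, 0; 0, s, 0, 0] := by
  unfold E1 MH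
  ext i j
  fin_cases i <;> fin_cases j <;>
    simp [Matrix.diagonal_mul]

theorem xl_A0_sq (s t : R) : (E0 R * MH 0 0 s t) * (E0 R * MH 0 0 s t) = 0 := by
  rw [xl_A0]
  ext i j
  fin_cases i <;> fin_cases j <;> simp [Matrix.mul_apply, Fin.sum_univ_four]

theorem xl_B0_sq (s t : R) : (E1 R * MH 0 0 s t) * (E1 R * MH 0 0 s t) = 0 := by
  rw [xl_B0]
  ext i j
  fin_cases i <;> fin_cases j <;> simp [Matrix.mul_apply, Fin.sum_univ_four]

theorem xP_zero (s t : R) : xP s t false 0 + xP s t true 0 = 1 := by
  have h1 := xP_false_even s t 0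
  have h2 := xP_true_even s t 0
  rw [Nat.mul_zero] at h1 h2
  rw [h1, h2]
  ext i j
  fin_cases i <;> fin_cases j <;> simp

theorem xP_f0 (s t : R) : (E0 R * MH 0 0 s t) * xP s t false 0 = 0 := by
  have h1 := xP_false_even s t 0
  rw [Nat.mul_zero] at h1
  rw [h1, xl_A0]
  ext i j
  fin_cases i <;> fin_cases j <;> simp [Matrix.mul_apply, Fin.sum_univ_four]

theorem xP_t0 (s t : R) : (E1 R * MH 0 0 s t) * xP s t true 0 = 0 := by
  have h1 := xP_true_even s t 0
  rw [Nat.mul_zero] at h1
  rw [h1, xl_B0]
  ext i j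
  fin_cases i <;> fin_cases j <;> simp [Matrix.mul_apply, Fin.sum_univ_four]

theorem xP_f (s t : R) (l : ℕ) : xP s t false (l + 1) = (E0 R * MH 0 0 s t) * xP s t true l := by
  rw [xl_A0]
  rcases Nat.even_or_odd' l with ⟨m, rfl | rfl⟩
  · rw [xP_false_odd, xP_true_even]
    ext i j
    fin_cases i <;> fin_cases j <;> simp [Matrix.mul_apply, Fin.sum_univ_four, pow_succ, mul_comm]
  · rw [show 2 * m + 1 + 1 = 2 * (m + 1) by ring, xP_false_even, xP_true_odd]
    generalize -t = T
    ext i j
    fin_cases i <;> fin_cases j <;> simp [Matrix.mul_apply, Fin.sum_univ_four] <;> ring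

theorem xP_t (s t : R) (l : ℕ) : xP s t true (l + 1) = (E1 R * MH 0 0 s t) * xP s t false l := by
  rw [xl_B0]
  rcases Nat.even_or_odd' l with ⟨m, rfl | rfl⟩
  · rw [xP_true_odd, xP_false_even]
    ext i j
    fin_cases i <;> fin_cases j <;> simp [Matrix.mul_apply, Fin.sum_univ_four, pow_succ, mul_comm]
  · rw [show 2 * m + 1 + 1 = 2 * (m + 1) by ring, xP_true_even, xP_false_odd]
    generalize -t = T
    ext i j
    fin_cases i <;> fin_cases j <;> simp [Matrix.mul_apply, Fin.sum_univ_four] <;> ring

end Four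

end Pool.Agent.MP_a57f33_nt.BZ
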