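import Pool.Agent.Lib.MP_a57f33_nt.BZ.Fin2
import Pool.Agent.Lib.MP_a57f33_nt.BZ.XLem
import Mathlib

/-!
Extraction of the values of `K` from the evaluation of the trace functional.
-/

namespace Pool.Agent.MP_a57f33_nt.BZ

open Pool.Agent.MP_a57f33_nt
open Matrix

/-- The conclusion of the chain, for a general functional. -/
def ChainH (k : List Bool → ℚ) (r : ℕ) (c : ℚ) : Prop :=
  ∀ (R : Type) [CommRing R] [Algebra ℚ R] (P Q R' U : R),
    ((2 * r + 1 : ℕ) : R) * T k (2 * r + 2)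
        (E0 R * MH (P+Q+R'+U) (P+Q-R'-U) (P-Q+R'-U) (P-Q-R'+U))
        (E1 R * MH (P+Q+R'+U) (P+Q-R'-U) (P-Q+R'-U) (P-Q-R'+U)) =
      algebraMap ℚ R c * Phi (2 * r + 2) P Q R' U

lemma chain_zero {k : List Bool → ℚ} {r : ℕ} {c : ℚ} (H : ChainH k r c)
    {R : Type} [CommRing R] [Algebra ℚ R] (x y : R) :
    ((2 * r + 1 : ℕ) : R) * T k (2 * r + 2)
        (E0 R * MH 0 0 (4 * x) (4 * y)) (E1 R * MH 0 0 (4 * x) (4 * y)) =
      algebraMap ℚ R c * Phi (2 * r + 2) (x + y) (-x - y) (x - y) (-x + y) := by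
  have h := H R (x + y) (-x - y) (x - y) (-x + y)
  rw [show x + y + (-x - y) + (x - y) + (-x + y) = 0 by ring,
    show x + y + (-x - y) - (x - y) - (-x + y) = 0 by ring,
    show x + y - (-x - y) + (x - y) - (-x + y) = 4 * x by ring,
    show x + y - (-x - y) - (x - y) + (-x + y) = 4 * y by ring] at h
  exact h

/-- First comparison. -/
lemma chain_x1 (hx : X1S) {k : List Bool → ℚ} (hk : Cyc k) {r : ℕ} (hr : 1 ≤ r) {c : ℚ}
    (H : ChainH k r c) {R : Type} [CommRing R] [Algebra ℚ R] (a b x y : R)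
    (ha : a * a = 0) (hb : b * b = 0) :
    a * b * (((2 * r + 1 : ℕ) : R) * ((2 * r + 2 : ℕ) : R) * (4 ^ (2 * r + 2) *
      ∑ m ∈ Finset.range r,
        algebraMap ℚ R (k (alt true (2 * r + 2)) - k (wmix r m)) *
          (x ^ (2 * m + 1) * y ^ (2 * (r - 1 - m) + 1) +
            y ^ (2 * m + 1) * x ^ (2 * (r - 1 - m) + 1)) -
      algebraMap ℚ R c * (2 ^ (2 * r + 3) * (2 ^ (2 * r + 2) - 4) *
        ((x - y) ^ (2 * r) - (x + y) ^ (2 * r))))) = 0 := by
  have h1 := H R (a + b + x + y) (a + b - x - y) (a - b + x - y) (a - b - x + y)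
  rw [show a + b + x + y + (a + b - x - y) + (a - b + x - y) + (a - b - x + y) = 4 * a by ring,
    show a + b + x + y + (a + b - x - y) - (a - b + x - y) - (a - b - x + y) = 4 * b by ring,
    show a + b + x + y - (a + b - x - y) + (a - b + x - y) - (a - b - x + y) = 4 * x by ring,
    show a + b + x + y - (a + b - x - y) - (a - b + x - y) + (a - b - x + y) = 4 * y by ring] at h1
  have h0 := chain_zero H x y
  rw [Phi_exp1 a b x y ha hb r hr,
    hx R k hk r (4 * a) (4 * b) (4 * x) (4 * y) hr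
      (by linear_combination 16 * ha) (by linear_combination 16 * hb)] at h1
  have e : ∀ m ∈ Finset.range r, (k (alt true (2 * r + 2)) - k (wmix r m)) •
      ((4 * x) ^ (2 * m + 1) * (4 * y) ^ (2 * (r - 1 - m) + 1) +
        (4 * y) ^ (2 * m + 1) * (4 * x) ^ (2 * (r - 1 - m) + 1)) =
      4 ^ (2 * r) * (algebraMap ℚ R (k (alt true (2 * r + 2)) - k (wmix r m)) *
      (x ^ (2 * m + 1) * y ^ (2 * (r - 1 - m) + 1) +
        y ^ (2 * m + 1) * x ^ (2 * (r - 1 - m) + 1))) := by
    intro m hm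
    rw [Finset.mem_range] at hm
    rw [Algebra.smul_def, mul_left_comm]
    congr 1
    have : (4 : R) ^ (2 * r) = 4 ^ (2 * m + 1) * 4 ^ (2 * (r - 1 - m) + 1) := by
      rw [← pow_add]; congr 1; omega
    rw [this]
    simp only [mul_pow]
    ring
  rw [Finset.sum_congr rfl e, ← Finset.mul_sum] at h1
  have p4 : (4 : R) ^ (2 * r + 2) = 16 * 4 ^ (2 * r) := by rw [pow_add]; norm_num [mul_comm]
  rw [p4]
  linear_combination h1 - h0

/-- Second comparison. -/
lemma chain_x2 (hx : X2S) {k : List Bool → ℚ} (hk : Cyc k) {r : ℕ} (hr : 1 ≤ r) {c : ℚ}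
    (H : ChainH k r c) {R : Type} [CommRing R] [Algebra ℚ R] (a b x y : R)
    (ha : a * a = 0) (hb : b * b = 0) :
    a * b * (((2 * r + 1 : ℕ) : R) * ((2 * r + 2 : ℕ) : R) * (4 ^ (2 * r + 2) *
      ∑ m ∈ Finset.range (r + 1),
        algebraMap ℚ R (k (wzz r m) - k (alt true (2 * r + 2))) *
          (x ^ (2 * m) * y ^ (2 * (r - m)) + y ^ (2 * m) * x ^ (2 * (r - m))) -
      algebraMap ℚ R c * (2 * 4 ^ (2 * r + 2) *
        ((x - y) ^ (2 * r) + (x + y) ^ (2 * r))))) = 0 := by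
  have h1 := H R (a + b + x + y) (a + b - x - y) (a + b + x - y) (a + b - x + y)
  rw [show a + b + x + y + (a + b - x - y) + (a + b + x - y) + (a + b - x + y) =
      4 * a + 4 * b by ring,
    show a + b + x + y + (a + b - x - y) - (a + b + x - y) - (a + b - x + y) = 0 by ring,
    show a + b + x + y - (a + b - x - y) + (a + b + x - y) - (a + b - x + y) = 4 * x by ring,
    show a + b + x + y - (a + b - x - y) - (a + b + x - y) + (a + b - x + y) = 4 * y by ring] at h1
  have h0 := chain_zero H x y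
  rw [Phi_exp2 a b x y ha hb r hr,
    hx R k hk r (4 * a) (4 * b) (4 * x) (4 * y) hr
      (by linear_combination 16 * ha) (by linear_combination 16 * hb)] at h1
  have e : ∀ m ∈ Finset.range (r + 1), (k (wzz r m) - k (alt true (2 * r + 2))) •
      ((4 * x) ^ (2 * m) * (4 * y) ^ (2 * (r - m)) +
        (4 * y) ^ (2 * m) * (4 * x) ^ (2 * (r - m))) =
      4 ^ (2 * r) * (algebraMap ℚ R (k (wzz r m) - k (alt true (2 * r + 2))) *
      (x ^ (2 * m) * y ^ (2 * (r - m)) + y ^ (2 * m) * x ^ (2 * (r - m)))) := by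
    intro m hm
    rw [Finset.mem_range] at hm
    rw [Algebra.smul_def, mul_left_comm]
    congr 1
    have : (4 : R) ^ (2 * r) = 4 ^ (2 * m) * 4 ^ (2 * (r - m)) := by
      rw [← pow_add]; congr 1; omega
    rw [this]
    simp only [mul_pow]
    ring
  rw [Finset.sum_congr rfl e, ← Finset.mul_sum] at h1
  have p4 : (4 : R) ^ (2 * r + 2) = 16 * 4 ^ (2 * r) := by rw [pow_add]; norm_num [mul_comm]
  rw [p4]
  linear_combination h1 - h0

/-! ### Cancelling `a b` -/

abbrev DD : Type := DualNumber (DualNumber (Polynomial ℚ))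

noncomputable def iD : Polynomial ℚ →+* DD :=
  (TrivSqZeroExt.inlHom (DualNumber (Polynomial ℚ)) (DualNumber (Polynomial ℚ))).comp
    (TrivSqZeroExt.inlHom (Polynomial ℚ) (Polynomial ℚ))

noncomputable def aD : DD := TrivSqZeroExt.inl (TrivSqZeroExt.inr 1)

noncomputable def bD : DD := TrivSqZeroExt.inr 1

lemma aD_sq : aD * aD = 0 := by
  unfold aD
  rw [← TrivSqZeroExt.inl_mul, TrivSqZeroExt.inr_mul_inr, TrivSqZeroExt.inl_zero]

lemma bD_sq : bD * bD = 0 := by
  unfold bD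
  rw [TrivSqZeroExt.inr_mul_inr]

lemma abD_cancel (p : Polynomial ℚ) (h : aD * bD * iD p = 0) : p = 0 := by
  have h1 := congrArg (fun z : DD => (TrivSqZeroExt.snd (TrivSqZeroExt.snd z))) h
  simpa [aD, bD, iD] using h1

end Pool.Agent.MP_a57f33_nt.BZ
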