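import Pool.Agent.Lib.MP_a57f33_nt.BZ.Fin3

/-!
The values of `K` on the words `wmix r m` and `wzz r m`.
-/

namespace Pool.Agent.MP_a57f33_nt.BZ

open Pool.Agent.MP_a57f33_nt
open Polynomial

lemma coef_sum_odd (r j : ℕ) (hj : j < r) (d : ℕ → ℚ) :
    (∑ m ∈ Finset.range r, C (d m) * (X : ℚ[X]) ^ (2 * m + 1)).coeff (2 * j + 1) = d j := by
  rw [finset_sum_coeff]
  have : ∀ m ∈ Finset.range r, (C (d m) * (X : ℚ[X]) ^ (2 * m + 1)).coeff (2 * j + 1) =
      if m = j then d m else 0 := by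
    intro m _
    rw [coeff_C_mul, coeff_X_pow]
    by_cases h : m = j
    · rw [if_pos h, if_pos (by omega), mul_one]
    · rw [if_neg h, if_neg (by omega), mul_zero]
  rw [Finset.sum_congr rfl this, Finset.sum_ite_eq' (Finset.range r) j d,
    if_pos (Finset.mem_range.mpr hj)]

lemma coef_sum_even (r j : ℕ) (hj : j < r + 1) (d : ℕ → ℚ) :
    (∑ m ∈ Finset.range (r + 1), C (d m) * (X : ℚ[X]) ^ (2 * m)).coeff (2 * j) = d j := by
  rw [finset_sum_coeff]
  have : ∀ m ∈ Finset.range (r + 1), (C (d m) * (X : ℚ[X]) ^ (2 * m)).coeff (2 * j) =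
      if m = j then d m else 0 := by
    intro m _
    rw [coeff_C_mul, coeff_X_pow]
    by_cases h : m = j
    · rw [if_pos h, if_pos (by omega), mul_one]
    · rw [if_neg h, if_neg (by omega), mul_zero]
  rw [Finset.sum_congr rfl this, Finset.sum_ite_eq' (Finset.range (r + 1)) j d,
    if_pos (Finset.mem_range.mpr hj)]

lemma coeff_one_sub (r k : ℕ) (hk : k ≤ 2 * r) :
    ((1 - (X : ℚ[X])) ^ (2 * r)).coeff k = (-1) ^ k * ((2 * r).choose k : ℚ) := by
  have e : (1 - (X : ℚ[X])) ^ (2 * r) = (X + C (-1)) ^ (2 * r) := by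
    rw [← neg_sub, (even_two_mul r).neg_pow, C_neg, C_1, sub_eq_add_neg]
  rw [e, Polynomial.coeff_X_add_C_pow]
  congr 1
  have : (-1 : ℚ) ^ (2 * r - k) * (-1) ^ k = 1 := by
    rw [← pow_add, Nat.sub_add_cancel hk, (even_two_mul r).neg_one_pow]
  have h2 : (-1 : ℚ) ^ k * (-1) ^ k = 1 := by
    rw [← mul_pow]; norm_num
  calc (-1 : ℚ) ^ (2 * r - k) = (-1 : ℚ) ^ (2 * r - k) * ((-1 : ℚ) ^ k * (-1) ^ k) := by
        rw [h2, mul_one]
    _ = _ := by rw [← mul_assoc, this, one_mul]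

lemma alt_reverse (a : Bool) (m : ℕ) : (alt a (2 * m)).reverse = alt (!a) (2 * m) := by
  induction m generalizing a with
  | zero => rfl
  | succ m ih =>
    have e1 : alt a (2 * (m + 1)) = a :: (!a) :: alt a (2 * m) := by
      rw [show 2 * (m + 1) = (2 * m + 1) + 1 by ring]
      simp [alt]
    have e2 : alt (!a) (2 * (m + 1)) = alt (!a) (2 * m) ++ alt (!a) 2 := by
      rw [show 2 * (m + 1) = 2 * m + 2 by ring]
      exact xl_alt_add_even (!a) m 2
    rw [e1, e2, List.reverse_cons, List.reverse_cons, ih]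
    simp [alt]

lemma wmix_reverse (r m : ℕ) (hm : m < r) : (wmix r m).reverse = wmix r (r - 1 - m) := by
  unfold wmix
  rw [List.reverse_append, alt_reverse, alt_reverse]
  rw [show r - 1 - m + 1 = r - m by omega, show r - (r - 1 - m) = m + 1 by omega]
  rfl

lemma wmix_length (r m : ℕ) (hm : m < r) : (wmix r m).length = 2 * r + 2 := by
  have al : ∀ (n : ℕ) (a : Bool), (alt a n).length = n := by
    intro n
    induction n with
    | zero => intro a; rfl
    | succ n ih => intro a; rw [alt, List.length_cons, ih]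
  unfold wmix
  rw [List.length_append, al, al]
  omega

lemma K_wmix_symm {k : List Bool → ℚ} (hrev : ∀ w : List Bool, Even w.length → k w.reverse = k w)
    (r m : ℕ) (hm : m < r) : k (wmix r (r - 1 - m)) = k (wmix r m) := by
  rw [← wmix_reverse r m hm]
  apply hrev
  rw [wmix_length r m hm]
  exact ⟨r + 1, by ring⟩

lemma K_wzz_symm {k : List Bool → ℚ} (hk : Cyc k) (r m : ℕ) (hm : m ≤ r) :
    k (wzz r (r - m)) = k (wzz r m) := by
  unfold wzz
  rw [show r - (r - m) = m by omega]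
  exact xl_cyc k hk (false :: alt false (2 * (r - m))) (false :: alt false (2 * m))

theorem K_wmix (hx : X1S) {k : List Bool → ℚ} (hk : Cyc k)
    (hrev : ∀ w : List Bool, Even w.length → k w.reverse = k w) {r : ℕ} (hr : 1 ≤ r) {c : ℚ}
    (H : ChainH k r c) (m : ℕ) (hm : m < r) :
    k (wmix r m) = k (alt true (2 * r + 2)) +
      2 * c * (1 - 1 / 2 ^ (2 * r)) * ((2 * r).choose (2 * m + 1) : ℚ) := by
  set d : ℕ → ℚ := fun m => k (alt true (2 * r + 2)) - k (wmix r m) with hd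
  have h := chain_x1 hx hk hr H aD bD (iD 1) (iD X) aD_sq bD_sq
  have e : ((2 * r + 1 : ℕ) : DD) * ((2 * r + 2 : ℕ) : DD) * (4 ^ (2 * r + 2) *
      ∑ m ∈ Finset.range r,
        algebraMap ℚ DD (k (alt true (2 * r + 2)) - k (wmix r m)) *
          (iD 1 ^ (2 * m + 1) * iD X ^ (2 * (r - 1 - m) + 1) +
            iD X ^ (2 * m + 1) * iD 1 ^ (2 * (r - 1 - m) + 1)) -
      algebraMap ℚ DD c * (2 ^ (2 * r + 3) * (2 ^ (2 * r + 2) - 4) *
        ((iD 1 - iD X) ^ (2 * r) - (iD 1 + iD X) ^ (2 * r)))) =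
      iD (((2 * r + 1 : ℕ) : ℚ[X]) * ((2 * r + 2 : ℕ) : ℚ[X]) * (4 ^ (2 * r + 2) *
      ∑ m ∈ Finset.range r, C (d m) * (X ^ (2 * (r - 1 - m) + 1) + X ^ (2 * m + 1)) -
      C c * (2 ^ (2 * r + 3) * (2 ^ (2 * r + 2) - 4) *
        ((1 - X) ^ (2 * r) - (1 + X) ^ (2 * r))))) := by
    have hc : ∀ q : ℚ, algebraMap ℚ DD q = iD (C q) := fun q =>
      (RingHom.map_rat_algebraMap iD q).symm
    simp only [hc, map_mul, map_sub, map_add, map_pow, map_natCast, map_sum, map_ofNat, map_one,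
      one_pow, one_mul, mul_one, hd]
  rw [e] at h
  have hp := abD_cancel _ h
  have hn1 : (((2 * r + 1 : ℕ) : ℚ[X]) * ((2 * r + 2 : ℕ) : ℚ[X])) ≠ 0 := by
    apply mul_ne_zero <;> exact Nat.cast_ne_zero.mpr (by omega)
  rcases mul_eq_zero.mp hp with h0 | h0
  · exact absurd h0 hn1
  -- symmetrise
  have hs : ∑ m ∈ Finset.range r, C (d m) * ((X : ℚ[X]) ^ (2 * (r - 1 - m) + 1) + X ^ (2 * m + 1)) =
      2 * ∑ m ∈ Finset.range r, C (d m) * (X : ℚ[X]) ^ (2 * m + 1) := by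
    simp only [mul_add, Finset.sum_add_distrib]
    rw [two_mul]
    congr 1
    rw [← Finset.sum_range_reflect (fun m => C (d m) * (X : ℚ[X]) ^ (2 * m + 1)) r]
    apply Finset.sum_congr rfl
    intro m hm
    rw [Finset.mem_range] at hm
    have : d (r - 1 - m) = d m := by
      simp only [hd]
      rw [K_wmix_symm hrev r m hm]
    rw [this]
  rw [hs] at h0
  have hcf := congrArg (fun p : ℚ[X] => p.coeff (2 * m + 1)) h0
  simp only [Polynomial.coeff_sub, Polynomial.coeff_zero] at hcf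
  have q1 : (4 : ℚ[X]) ^ (2 * r + 2) * (2 * ∑ m ∈ Finset.range r, C (d m) * (X : ℚ[X]) ^ (2 * m + 1))
      = C (4 ^ (2 * r + 2) * 2) * ∑ m ∈ Finset.range r, C (d m) * (X : ℚ[X]) ^ (2 * m + 1) := by
    rw [C_mul, C_pow, ← mul_assoc]
    rfl
  have q2 : C c * (2 ^ (2 * r + 3) * (2 ^ (2 * r + 2) - 4) *
        ((1 - (X : ℚ[X])) ^ (2 * r) - (1 + X) ^ (2 * r))) =
      C (c * (2 ^ (2 * r + 3) * (2 ^ (2 * r + 2) - 4))) *
        ((1 - (X : ℚ[X])) ^ (2 * r) - (1 + X) ^ (2 * r)) := by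
    rw [C_mul, C_mul, C_pow, C_sub, C_pow, ← mul_assoc]
    rfl
  rw [q1, q2, coeff_C_mul, coeff_C_mul, coef_sum_odd r m hm, Polynomial.coeff_sub,
    coeff_one_sub r _ (by omega), coeff_one_add_X_pow] at hcf
  have hodd : (-1 : ℚ) ^ (2 * m + 1) = -1 := Odd.neg_one_pow ⟨m, rfl⟩
  rw [hodd] at hcf
  have p2 : (2 : ℚ) ^ (2 * r) ≠ 0 := by positivity
  have e4 : (4 : ℚ) ^ (2 * r + 2) = 16 * (2 ^ (2 * r)) ^ 2 := by
    rw [← pow_mul, mul_comm (2 * r) 2, pow_mul]
    norm_num [pow_add, mul_comm]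
  have e3 : (2 : ℚ) ^ (2 * r + 3) = 8 * 2 ^ (2 * r) := by
    rw [pow_add]; norm_num [mul_comm]
  have e2 : (2 : ℚ) ^ (2 * r + 2) = 4 * 2 ^ (2 * r) := by
    rw [pow_add]; norm_num [mul_comm]
  rw [e4, e3, e2] at hcf
  simp only [hd] at hcf
  set Z : ℚ := 2 ^ (2 * r) with hZ
  have : k (wmix r m) - k (alt true (2 * r + 2)) =
      2 * c * (1 - 1 / Z) * ((2 * r).choose (2 * m + 1) : ℚ) := by
    field_simp
    have hf : (32 * Z) * ((k (wmix r m) - k (alt true (2 * r + 2))) * Z -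
        2 * c * (Z - 1) * ((2 * r).choose (2 * m + 1) : ℚ)) = 0 := by
      linear_combination -hcf
    have hf' := (mul_eq_zero.mp hf).resolve_left (mul_ne_zero (by norm_num) p2)
    linear_combination hf'
  linear_combination this

theorem K_wzz (hx : X2S) {k : List Bool → ℚ} (hk : Cyc k) {r : ℕ} (hr : 1 ≤ r) {c : ℚ}
    (H : ChainH k r c) (m : ℕ) (hm : m ≤ r) :
    k (wzz r m) = k (alt true (2 * r + 2)) + 2 * c * ((2 * r).choose (2 * m) : ℚ) := by
  set d : ℕ → ℚ := fun m => k (wzz r m) - k (alt true (2 * r + 2)) with hd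
  have h := chain_x2 hx hk hr H aD bD (iD 1) (iD X) aD_sq bD_sq
  have e : ((2 * r + 1 : ℕ) : DD) * ((2 * r + 2 : ℕ) : DD) * (4 ^ (2 * r + 2) *
      ∑ m ∈ Finset.range (r + 1),
        algebraMap ℚ DD (k (wzz r m) - k (alt true (2 * r + 2))) *
          (iD 1 ^ (2 * m) * iD X ^ (2 * (r - m)) + iD X ^ (2 * m) * iD 1 ^ (2 * (r - m))) -
      algebraMap ℚ DD c * (2 * 4 ^ (2 * r + 2) *
        ((iD 1 - iD X) ^ (2 * r) + (iD 1 + iD X) ^ (2 * r)))) =
      iD (((2 * r + 1 : ℕ) : ℚ[X]) * ((2 * r + 2 : ℕ) : ℚ[X]) * (4 ^ (2 * r + 2) *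
      ∑ m ∈ Finset.range (r + 1), C (d m) * (X ^ (2 * (r - m)) + X ^ (2 * m)) -
      C c * (2 * 4 ^ (2 * r + 2) *
        ((1 - X) ^ (2 * r) + (1 + X) ^ (2 * r))))) := by
    have hc : ∀ q : ℚ, algebraMap ℚ DD q = iD (C q) := fun q =>
      (RingHom.map_rat_algebraMap iD q).symm
    simp only [hc, map_mul, map_sub, map_add, map_pow, map_natCast, map_sum, map_ofNat, map_one,
      one_pow, one_mul, mul_one, hd]
  rw [e] at h
  have hp := abD_cancel _ h
  have hn1 : (((2 * r + 1 : ℕ) : ℚ[X]) * ((2 * r + 2 : ℕ) : ℚ[X])) ≠ 0 := by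
    apply mul_ne_zero <;> exact Nat.cast_ne_zero.mpr (by omega)
  rcases mul_eq_zero.mp hp with h0 | h0
  · exact absurd h0 hn1
  have hs : ∑ m ∈ Finset.range (r + 1), C (d m) * ((X : ℚ[X]) ^ (2 * (r - m)) + X ^ (2 * m)) =
      2 * ∑ m ∈ Finset.range (r + 1), C (d m) * (X : ℚ[X]) ^ (2 * m) := by
    simp only [mul_add, Finset.sum_add_distrib]
    rw [two_mul]
    congr 1
    rw [← Finset.sum_range_reflect (fun m => C (d m) * (X : ℚ[X]) ^ (2 * m)) (r + 1)]
    apply Finset.sum_congr rfl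
    intro m hm
    rw [Finset.mem_range] at hm
    have e1 : r + 1 - 1 - m = r - m := by omega
    have : d (r - m) = d m := by
      simp only [hd]
      rw [K_wzz_symm hk r m (by omega)]
    rw [e1, this]
  rw [hs] at h0
  have hcf := congrArg (fun p : ℚ[X] => p.coeff (2 * m)) h0
  simp only [Polynomial.coeff_sub, Polynomial.coeff_zero] at hcf
  have q1 : (4 : ℚ[X]) ^ (2 * r + 2) *
      (2 * ∑ m ∈ Finset.range (r + 1), C (d m) * (X : ℚ[X]) ^ (2 * m))
      = C (4 ^ (2 * r + 2) * 2) * ∑ m ∈ Finset.range (r + 1), C (d m) * (X : ℚ[X]) ^ (2 * m) := by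
    rw [C_mul, C_pow, ← mul_assoc]
    rfl
  have q2 : C c * (2 * 4 ^ (2 * r + 2) *
        ((1 - (X : ℚ[X])) ^ (2 * r) + (1 + X) ^ (2 * r))) =
      C (c * (2 * 4 ^ (2 * r + 2))) *
        ((1 - (X : ℚ[X])) ^ (2 * r) + (1 + X) ^ (2 * r)) := by
    rw [C_mul, C_mul, C_pow, ← mul_assoc]
    rfl
  rw [q1, q2, coeff_C_mul, coeff_C_mul, coef_sum_even r m (by omega), Polynomial.coeff_add,
    coeff_one_sub r _ (by omega), coeff_one_add_X_pow] at hcf
  have hev : (-1 : ℚ) ^ (2 * m) = 1 := (even_two_mul m).neg_one_pow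
  rw [hev] at hcf
  have p4 : (4 : ℚ) ^ (2 * r + 2) ≠ 0 := by positivity
  simp only [hd] at hcf
  have hf : (4 ^ (2 * r + 2) * 2 : ℚ) * (k (wzz r m) - k (alt true (2 * r + 2)) -
      2 * c * ((2 * r).choose (2 * m) : ℚ)) = 0 := by
    linear_combination hcf
  have hf' := (mul_eq_zero.mp hf).resolve_left (mul_ne_zero p4 (by norm_num))
  linear_combination hf'

end Pool.Agent.MP_a57f33_nt.BZ
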