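import Pool.Agent.Lib.MP_a57f33_nt.BZ.Stm

/-!
Piece [cnv]: invariance of `J` under the convolution `M ↦ M + l`.
-/

namespace Pool.Agent.MP_a57f33_nt.BZ

open Pool.Agent.MP_a57f33_nt
open Matrix

/-! ### Sums over words -/

section words

variable {M : Type} [AddCommMonoid M]

theorem cnv_SW_congr : ∀ (n : ℕ) {f g : List Bool → M}, (∀ w, w.length = n → f w = g w) →
    SW n f = SW n g
  | 0, f, g, h => h [] rfl
  | n + 1, f, g, h => by
    simp only [SW]
    rw [cnv_SW_congr n (fun w hw => h (false :: w) (by simp [hw])),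
      cnv_SW_congr n (fun w hw => h (true :: w) (by simp [hw]))]

theorem cnv_SW_map {M' : Type} [AddCommMonoid M'] (φ : M →+ M') : ∀ (n : ℕ) (f : List Bool → M),
    φ (SW n f) = SW n (fun w => φ (f w))
  | 0, _ => rfl
  | n + 1, f => by
    simp only [SW, map_add]
    rw [cnv_SW_map φ n, cnv_SW_map φ n]

theorem cnv_SW_sum {ι : Type} (s : Finset ι) : ∀ (n : ℕ) (f : ι → List Bool → M),
    SW n (fun w => ∑ i ∈ s, f i w) = ∑ i ∈ s, SW n (f i)
  | 0, _ => rfl
  | n + 1, f => by
    simp only [SW, Finset.sum_add_distrib]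
    rw [cnv_SW_sum s n (fun i w => f i (false :: w)), cnv_SW_sum s n (fun i w => f i (true :: w))]

theorem cnv_SW_snoc : ∀ (n : ℕ) (f : List Bool → M),
    SW (n + 1) f = SW n (fun w => f (w ++ [false])) + SW n (fun w => f (w ++ [true]))
  | 0, _ => rfl
  | n + 1, f => by
    have h0 := cnv_SW_snoc n (fun w => f (false :: w))
    have h1 := cnv_SW_snoc n (fun w => f (true :: w))
    have e1 : SW (n + 1 + 1) f = SW (n + 1) (fun w => f (false :: w)) +
      SW (n + 1) (fun w => f (true :: w)) := rfl
    rw [e1, h0, h1]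
    simp only [SW, List.cons_append]
    rw [add_add_add_comm]

theorem cnv_SW_rot1 (n : ℕ) (f : List Bool → M) :
    SW n (fun w => f (w.rotate 1)) = SW n f := by
  cases n with
  | zero => rfl
  | succ n =>
    rw [cnv_SW_snoc n f]
    simp [SW]

theorem cnv_SW_rot (n i : ℕ) : ∀ (f : List Bool → M),
    SW n (fun w => f (w.rotate i)) = SW n f := by
  induction i with
  | zero => intro f; simp
  | succ i ih =>
    intro f
    have h1 : (fun w : List Bool => f (w.rotate (i + 1))) =
        fun w => (fun x => f (x.rotate 1)) (w.rotate i) := by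
      funext w
      simp [List.rotate_rotate]
    rw [h1]
    exact (ih (fun x => f (x.rotate 1))).trans (cnv_SW_rot1 n f)

/-- Sum over the decompositions `w = u ++ j :: v`. -/
def cnv_pos : List Bool → (List Bool → Bool → List Bool → M) → M
  | [], _ => 0
  | a :: w, g => g [] a w + cnv_pos w (fun u j v => g (a :: u) j v)

theorem cnv_pos_rot (h : List Bool → M) : ∀ (w x : List Bool),
    cnv_pos w (fun u j v => h (j :: (v ++ (x ++ u)))) =
      ∑ i ∈ Finset.range w.length, h ((x ++ w).rotate (x.length + i))
  | [], x => by simp [cnv_pos]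
  | a :: w, x => by
    have ih := cnv_pos_rot h w (x ++ [a])
    have e1 : cnv_pos (a :: w) (fun u j v => h (j :: (v ++ (x ++ u)))) =
        h (a :: (w ++ x)) + cnv_pos w (fun u j v => h (j :: (v ++ (x ++ [a] ++ u)))) := by
      simp [cnv_pos]
    rw [e1, ih, List.length_cons, Finset.sum_range_succ', add_comm]
    congr 1
    · apply Finset.sum_congr rfl
      intro i _
      have h2 : x ++ [a] ++ w = x ++ a :: w := by simp
      have h3 : (x ++ [a]).length + i = x.length + (i + 1) := by
        simp [add_comm, add_left_comm]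
      rw [h2, h3]
    · rw [add_zero, List.rotate_append_length_eq]
      simp

theorem cnv_cyc_sum (n : ℕ) (h : List Bool → M) :
    SW n (fun w => cnv_pos w (fun u j v => h (j :: (v ++ u)))) = n • SW n h := by
  have h1 : ∀ w : List Bool, w.length = n → cnv_pos w (fun u j v => h (j :: (v ++ u))) =
      ∑ i ∈ Finset.range n, h (w.rotate i) := by
    intro w hw
    have h2 := cnv_pos_rot h w []
    simp only [List.nil_append, List.length_nil, zero_add] at h2
    rw [h2, hw]
  rw [cnv_SW_congr n h1, cnv_SW_sum, Finset.sum_congr rfl (fun i _ => cnv_SW_rot n i h),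
    Finset.sum_const, Finset.card_range]

theorem cnv_pos_congr : ∀ (w : List Bool) {g g' : List Bool → Bool → List Bool → M},
    (∀ u j v, g u j v = g' u j v) → cnv_pos w g = cnv_pos w g'
  | [], _, _, _ => rfl
  | a :: w, g, g', h => by
    simp only [cnv_pos]
    rw [h, cnv_pos_congr w (fun u j v => h (a :: u) j v)]

theorem cnv_SW_single (b : Bool) : ∀ (n : ℕ) (f : List Bool → M),
    SW n (fun w => if w = List.replicate n b then f w else 0) = f (List.replicate n b)
  | 0, f => by simp [SW]
  | n + 1, f => by
    have h0 : ∀ g : List Bool → M, SW n (fun _ : List Bool => (0 : M)) = 0 := by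
      intro _
      have := cnv_SW_map (0 : M →+ M) n (fun _ => (0 : M))
      simpa using this.symm
    cases b with
    | false =>
      have ih := cnv_SW_single false n (fun w => f (false :: w))
      simp only [SW, List.replicate_succ, List.cons.injEq, true_and, reduceCtorEq, false_and,
        if_false]
      rw [ih, h0 f, add_zero]
    | true =>
      have ih := cnv_SW_single true n (fun w => f (true :: w))
      simp only [SW, List.replicate_succ, List.cons.injEq, true_and, reduceCtorEq, false_and,
        if_false]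
      rw [ih, h0 f, zero_add]

end words

section smul

variable {M : Type} [AddCommGroup M] [Module ℚ M]

theorem cnv_pos_smul : ∀ (w : List Bool) (F : List Bool → ℚ)
    (g : List Bool → Bool → List Bool → M),
    F w • cnv_pos w g = cnv_pos w (fun u j v => F (u ++ j :: v) • g u j v)
  | [], F, g => by simp [cnv_pos]
  | a :: w, F, g => by
    have ih := cnv_pos_smul w (fun t => F (a :: t)) (fun u j v => g (a :: u) j v)
    simp only [cnv_pos, smul_add, List.nil_append, List.cons_append]
    rw [ih]

theorem cnv_dbl_smul : ∀ (w : List Bool) (f : List Bool → ℚ) (F : List Bool → M),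
    dbl w f • F w = cnv_pos w (fun u j v => f (u ++ j :: j :: v) • F (u ++ j :: v))
  | [], f, F => by simp [cnv_pos, dbl]
  | a :: w, f, F => by
    have ih := cnv_dbl_smul w (fun t => f (a :: t)) (fun t => F (a :: t))
    simp only [cnv_pos, dbl, add_smul, List.nil_append, List.cons_append]
    rw [ih]

/-- The sum over the non-constant words. -/
theorem cnv_nonconst (n : ℕ) (hn : 1 ≤ n) (c : ℚ) (F : List Bool → M) :
    SW n (fun w => (if w = List.replicate n false ∨ w = List.replicate n true then 0 else c) • F w) =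
      c • (SW n F - F (List.replicate n false) - F (List.replicate n true)) := by
  have hne : List.replicate n false ≠ List.replicate n true := by
    intro h
    have := List.replicate_right_injective (n := n) (by omega) h
    simp at this
  have h1 : SW n (fun w => (if w = List.replicate n false ∨ w = List.replicate n true
      then 0 else c) • F w) + (SW n (fun w => if w = List.replicate n false then c • F w else 0) +
      SW n (fun w => if w = List.replicate n true then c • F w else 0)) =
      SW n (fun w => c • F w) := by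
    have hadd : ∀ f g : List Bool → M, SW n f + SW n g = SW n (fun w => f w + g w) := by
      intro f g
      have := cnv_SW_sum (M := M) (Finset.univ : Finset Bool) n
        (fun b w => cond b (f w) (g w))
      simpa using this.symm
    rw [hadd, hadd]
    apply cnv_SW_congr
    intro w _
    by_cases h0 : w = List.replicate n false
    · subst h0
      simp [hne]
    · by_cases h1 : w = List.replicate n true
      · subst h1
        simp [hne.symm]
      · simp [h0, h1]
  rw [cnv_SW_single false n (fun w => c • F w), cnv_SW_single true n (fun w => c • F w)] at h1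
  have h2 : SW n (fun w => c • F w) = c • SW n F := by
    have := cnv_SW_map (DistribMulAction.toAddMonoidHom M c) n F
    simpa using this.symm
  rw [h2] at h1
  rw [smul_sub, smul_sub, ← h1]
  abel

end smul

theorem cnv_cyc_append {k : List Bool → ℚ} (hk : Cyc k) : ∀ (u v : List Bool),
    k (u ++ v) = k (v ++ u)
  | [], v => by simp
  | a :: u, v => by
    have ih := cnv_cyc_append hk u (v ++ [a])
    rw [List.cons_append, ← hk a (u ++ v), List.append_assoc, ih]
    simp

/-! ### Words in matrices -/

section mat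

variable {S ι : Type} [CommRing S] [Fintype ι] [DecidableEq ι]

theorem cnv_ev_cons {S' : Type} [Monoid S'] (A B : S') (a : Bool) (w : List Bool) :
    ev A B (a :: w) = cond a B A * ev A B w := by
  simp [ev]

theorem cnv_ev_append {S' : Type} [Monoid S'] (A B : S') (u v : List Bool) :
    ev A B (u ++ v) = ev A B u * ev A B v := by
  simp [ev]

theorem cnv_ev_replicate_false {S' : Type} [Monoid S'] (A B : S') (n : ℕ) :
    ev A B (List.replicate n false) = A ^ n := by
  simp [ev]

theorem cnv_ev_replicate_true {S' : Type} [Monoid S'] (A B : S') (n : ℕ) :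
    ev A B (List.replicate n true) = B ^ n := by
  simp [ev]

theorem cnv_SW_ev (A B : Matrix ι ι S) : ∀ n : ℕ, SW n (fun w => ev A B w) = (A + B) ^ n
  | 0 => by simp [SW, ev]
  | n + 1 => by
    have ih := cnv_SW_ev A B n
    simp only [SW, cnv_ev_cons, cond_false, cond_true]
    have h1 := cnv_SW_map (AddMonoidHom.mulLeft A) n (fun w => ev A B w)
    have h2 := cnv_SW_map (AddMonoidHom.mulLeft B) n (fun w => ev A B w)
    simp only [AddMonoidHom.coe_mulLeft] at h1 h2
    rw [← h1, ← h2, ih, pow_succ', add_mul]

theorem cnv_SW_tr (A B : Matrix ι ι S) (n : ℕ) :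
    SW n (fun w => (ev A B w).trace) = ((A + B) ^ n).trace := by
  have h := cnv_SW_map (Matrix.traceAddMonoidHom ι S) n (fun w => ev A B w)
  simp only [Matrix.traceAddMonoidHom_apply] at h
  rw [← h, cnv_SW_ev]

end mat

section der

open Polynomial

variable {R ι : Type} [CommRing R] [Fintype ι] [DecidableEq ι]

/-- The derivative of a matrix of polynomials. -/
noncomputable def cnv_D (A : Matrix ι ι R[X]) : Matrix ι ι R[X] := A.map (fun p => derivative p)

theorem cnv_D_mul (A B : Matrix ι ι R[X]) : cnv_D (A * B) = cnv_D A * B + A * cnv_D B := by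
  ext i j : 1
  simp only [cnv_D, Matrix.map_apply, Matrix.mul_apply, Matrix.add_apply, derivative_sum,
    derivative_mul, Finset.sum_add_distrib]

theorem cnv_D_one : cnv_D (1 : Matrix ι ι R[X]) = 0 := by
  ext i j : 1
  simp only [cnv_D, Matrix.map_apply, Matrix.one_apply, Matrix.zero_apply]
  split_ifs <;> simp

theorem cnv_D_trace (A : Matrix ι ι R[X]) : derivative A.trace = (cnv_D A).trace := by
  simp [Matrix.trace, cnv_D, derivative_sum]

theorem cnv_D_ev (A B : Matrix ι ι R[X]) : ∀ (w x : List Bool),
    (ev A B x * cnv_D (ev A B w)).trace =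
      cnv_pos w (fun u j v => (cond j (cnv_D B) (cnv_D A) * ev A B (v ++ (x ++ u))).trace)
  | [], x => by simp [cnv_pos, ev, cnv_D_one]
  | a :: w, x => by
    have ih := cnv_D_ev A B w (x ++ [a])
    have h0 : cnv_D (cond a B A) = cond a (cnv_D B) (cnv_D A) := by cases a <;> rfl
    have h1 : ev A B (x ++ [a]) = ev A B x * cond a B A := by
      rw [cnv_ev_append]
      simp [ev]
    have e1 : cnv_pos (a :: w)
        (fun u j v => (cond j (cnv_D B) (cnv_D A) * ev A B (v ++ (x ++ u))).trace) =
        (cond a (cnv_D B) (cnv_D A) * ev A B (w ++ x)).trace +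
        cnv_pos w (fun u j v =>
          (cond j (cnv_D B) (cnv_D A) * ev A B (v ++ (x ++ [a] ++ u))).trace) := by
      simp [cnv_pos]
    rw [e1, ← ih, cnv_ev_cons, cnv_D_mul, h0, h1, Matrix.mul_add, Matrix.trace_add, cnv_ev_append]
    congr 1
    · rw [Matrix.trace_mul_comm, Matrix.mul_assoc]
    · rw [Matrix.mul_assoc]

theorem cnv_D_pow (A : Matrix ι ι R[X]) (n : ℕ) : ∀ m : ℕ,
    (A ^ m * cnv_D (A ^ (n + 1))).trace = ((n + 1 : ℕ) : R[X]) * (cnv_D A * A ^ (m + n)).trace := by
  induction n with
  | zero =>
    intro m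
    rw [zero_add, pow_one, Nat.cast_one, one_mul, add_zero, Matrix.trace_mul_comm]
  | succ n ih =>
    intro m
    rw [pow_succ' A (n + 1), cnv_D_mul, Matrix.mul_add, Matrix.trace_add]
    have h1 : A ^ m * (A * cnv_D (A ^ (n + 1))) = A ^ (m + 1) * cnv_D (A ^ (n + 1)) := by
      rw [pow_succ A m, Matrix.mul_assoc]
    have h2 : (A ^ m * (cnv_D A * A ^ (n + 1))).trace = (cnv_D A * A ^ (m + (n + 1))).trace := by
      rw [Matrix.trace_mul_comm, Matrix.mul_assoc, ← pow_add, add_comm (n + 1) m]
    rw [h1, h2, ih (m + 1)]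
    have h3 : m + 1 + n = m + (n + 1) := by omega
    rw [h3]
    push_cast
    ring

theorem cnv_D_trpow (A : Matrix ι ι R[X]) (n : ℕ) :
    derivative (A ^ (n + 1)).trace = ((n + 1 : ℕ) : R[X]) * (cnv_D A * A ^ n).trace := by
  have h := cnv_D_pow A n 0
  rw [pow_zero, Matrix.one_mul, zero_add] at h
  rw [cnv_D_trace, h]

end der

section main

open Polynomial

variable {R ι : Type} [Field R] [CharZero R] [Algebra ℚ R] [Fintype ι] [DecidableEq ι]

/-- The derivative of `T`. -/
theorem cnv_T (k : List Bool → ℚ) (hk : Cyc k) (A B : Matrix ι ι R[X]) (n : ℕ) :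
    derivative (T k n A B) = n • SW n (fun w => match w with
      | [] => (0 : R[X])
      | j :: x => k (j :: x) • (cond j (cnv_D B) (cnv_D A) * ev A B x).trace) := by
  rw [← cnv_cyc_sum]
  have h1 : derivative (T k n A B) =
      SW n (fun w => k w • (cnv_D (ev A B w)).trace) := by
    have h2 := cnv_SW_map (derivative (R := R)).toAddMonoidHom n
      (fun w => k w • (ev A B w).trace)
    simp only [LinearMap.toAddMonoidHom_coe] at h2
    rw [T, h2]
    apply cnv_SW_congr
    intro w _
    rw [map_rat_smul, cnv_D_trace]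
  rw [h1]
  apply cnv_SW_congr
  intro w _
  have h3 := cnv_D_ev A B w []
  rw [show ev A B ([] : List Bool) = 1 from rfl, Matrix.one_mul] at h3
  rw [h3, cnv_pos_smul]
  apply cnv_pos_congr
  intro u j v
  rw [List.nil_append, cnv_cyc_append hk u (j :: v)]
  rfl

/-- The sum with doubled letters. -/
theorem cnv_dbl_sum (k : List Bool → ℚ) (hk : Cyc k) (A B : Matrix ι ι R[X]) (n : ℕ) :
    SW n (fun w => dbl w k • (ev A B w).trace) = n • SW n (fun w => match w with
      | [] => (0 : R[X])
      | j :: x => k (j :: j :: x) • (ev A B (j :: x)).trace) := by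
  rw [← cnv_cyc_sum]
  apply cnv_SW_congr
  intro w _
  rw [cnv_dbl_smul w k (fun w => (ev A B w).trace)]
  apply cnv_pos_congr
  intro u j v
  have h1 : k (u ++ j :: j :: v) = k (j :: j :: (v ++ u)) := by
    rw [cnv_cyc_append hk u (j :: j :: v)]
    simp
  have h2 : (ev A B (u ++ j :: v)).trace = (ev A B (j :: (v ++ u))).trace := by
    rw [cnv_ev_append, Matrix.trace_mul_comm, ← cnv_ev_append]
    simp
  rw [h1, h2]

theorem cnv_idem {e f : Matrix ι ι R[X]} (h1 : e + f = 1) (h2 : e * f = 0) (h3 : f * e = 0) :
    e * e = e ∧ f * f = f := by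
  constructor
  · have : e * (e + f) = e := by rw [h1, Matrix.mul_one]
    rwa [Matrix.mul_add, h2, add_zero] at this
  · have : f * (e + f) = f := by rw [h1, Matrix.mul_one]
    rwa [Matrix.mul_add, h3, zero_add] at this

theorem cnv_deriv (k : List Bool → ℚ) (n : ℕ) (c : ℚ) (hk : Cyc k) (hd : Dv k (n + 1) c)
    (e f Y : Matrix ι ι R[X]) (h1 : e + f = 1) (h2 : e * f = 0) (h3 : f * e = 0)
    (hY : cnv_D Y = 1) (he : cnv_D e = 0) (hf : cnv_D f = 0) :
    derivative (J k (n + 1) c (e * Y) (f * Y)) = 0 := by
  obtain ⟨hee, hff⟩ := cnv_idem h1 h2 h3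
  have dA : cnv_D (e * Y) = e := by rw [cnv_D_mul, he, hY]; simp
  have dB : cnv_D (f * Y) = f := by rw [cnv_D_mul, hf, hY]; simp
  have hAB : e * Y + f * Y = Y := by rw [← Matrix.add_mul, h1, Matrix.one_mul]
  -- the derivative of `W`
  have hW : derivative (W (n + 1 + 1) (e * Y) (f * Y)) =
      ((n + 1 + 1 : ℕ) : R[X]) * W (n + 1) (e * Y) (f * Y) := by
    have g1 : e * (e * Y) ^ (n + 1) = (e * Y) ^ (n + 1) := by
      rw [pow_succ', ← Matrix.mul_assoc, ← Matrix.mul_assoc, hee]
    have g2 : f * (f * Y) ^ (n + 1) = (f * Y) ^ (n + 1) := by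
      rw [pow_succ', ← Matrix.mul_assoc, ← Matrix.mul_assoc, hff]
    simp only [W, hAB, map_sub, cnv_D_trpow, dA, dB, hY, g1, g2, Matrix.one_mul]
    ring
  -- the derivative of `T`
  have hT := cnv_T k hk (e * Y) (f * Y) (n + 1 + 1)
  have hD := cnv_dbl_sum k hk (e * Y) (f * Y) (n + 1)
  have hD2 : SW (n + 1) (fun w => dbl w k • (ev (e * Y) (f * Y) w).trace) =
      c • W (n + 1) (e * Y) (f * Y) := by
    have g1 : SW (n + 1) (fun w => dbl w k • (ev (e * Y) (f * Y) w).trace) =
        SW (n + 1) (fun w => (if w = List.replicate (n + 1) false ∨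
          w = List.replicate (n + 1) true then 0 else c) • (ev (e * Y) (f * Y) w).trace) := by
      apply cnv_SW_congr
      intro w hw
      rw [hd w hw]
    rw [g1, cnv_nonconst (n + 1) (by omega) c (fun w => (ev (e * Y) (f * Y) w).trace), cnv_SW_tr,
      cnv_ev_replicate_false, cnv_ev_replicate_true, W]
  have hE : SW (n + 1 + 1) (fun w => match w with
      | [] => (0 : R[X])
      | j :: x => k (j :: x) •
        (cond j (cnv_D (f * Y)) (cnv_D (e * Y)) * ev (e * Y) (f * Y) x).trace) =
      SW (n + 1) (fun w => match w with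
      | [] => (0 : R[X])
      | j :: x => k (j :: j :: x) • (ev (e * Y) (f * Y) (j :: x)).trace) := by
    have g0 : SW n (fun _ : List Bool => (0 : R[X])) = 0 := by
      have := cnv_SW_map (0 : R[X] →+ R[X]) n (fun _ => (0 : R[X]))
      simpa using this.symm
    have a1 : ∀ x, e * (e * Y * x) = e * Y * x := by
      intro x; rw [← Matrix.mul_assoc, ← Matrix.mul_assoc, hee]
    have a2 : ∀ x, f * (f * Y * x) = f * Y * x := by
      intro x; rw [← Matrix.mul_assoc, ← Matrix.mul_assoc, hff]
    have a3 : ∀ x, e * (f * Y * x) = 0 := by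
      intro x; rw [← Matrix.mul_assoc, ← Matrix.mul_assoc, h2]; simp
    have a4 : ∀ x, f * (e * Y * x) = 0 := by
      intro x; rw [← Matrix.mul_assoc, ← Matrix.mul_assoc, h3]; simp
    have a0 : ∀ q : ℚ, q • (0 : R[X]) = 0 := fun q => by rw [Algebra.smul_def, mul_zero]
    simp only [SW, dA, dB, cond_false, cond_true, cnv_ev_cons, a1, a2, a3, a4, Matrix.trace_zero]
    simp only [a0]
    rw [g0, add_zero, zero_add]
  rw [hE] at hT
  rw [J, map_sub, map_rat_smul, hW, derivative_mul, hT]
  have hN : derivative (((n + 1 : ℕ) : R[X])) = 0 := by simp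
  rw [hN, zero_mul, zero_add]
  have hfin : ((n + 1 : ℕ) : R[X]) * SW (n + 1) (fun w => match w with
      | [] => (0 : R[X])
      | j :: x => k (j :: j :: x) • (ev (e * Y) (f * Y) (j :: x)).trace) =
      c • W (n + 1) (e * Y) (f * Y) := by
    rw [← nsmul_eq_mul, ← hD, hD2]
  rw [nsmul_eq_mul, mul_left_comm, hfin, mul_smul_comm, sub_self]

omit [CharZero R] in
theorem cnv_eval (x : R) (k : List Bool → ℚ) (N : ℕ) (c : ℚ) (A B : Matrix ι ι R[X]) :
    eval x (J k N c A B) = J k N c (A.map (eval x)) (B.map (eval x)) := by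
  have hmul : ∀ P Q : Matrix ι ι R[X], (P * Q).map (eval x) = P.map (eval x) * Q.map (eval x) := by
    intro P Q
    ext i j
    simp [Matrix.mul_apply, eval_finsetSum]
  have hone : (1 : Matrix ι ι R[X]).map (eval x) = 1 := by
    ext i j
    simp only [Matrix.map_apply, Matrix.one_apply]
    split_ifs <;> simp
  have hadd : ∀ P Q : Matrix ι ι R[X], (P + Q).map (eval x) = P.map (eval x) + Q.map (eval x) := by
    intro P Q
    ext i j
    simp
  have htr : ∀ P : Matrix ι ι R[X], eval x P.trace = (P.map (eval x)).trace := by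
    intro P
    simp [Matrix.trace, eval_finsetSum]
  have hpow : ∀ (P : Matrix ι ι R[X]) (n : ℕ), (P ^ n).map (eval x) = (P.map (eval x)) ^ n := by
    intro P n
    induction n with
    | zero => simpa using hone
    | succ n ih => rw [pow_succ, pow_succ, hmul, ih]
  have hev : ∀ w, (ev A B w).map (eval x) = ev (A.map (eval x)) (B.map (eval x)) w := by
    intro w
    induction w with
    | nil => simpa [ev] using hone
    | cons a w ih =>
      rw [cnv_ev_cons, cnv_ev_cons, hmul, ih]
      cases a <;> rfl
  have hsm : ∀ (q : ℚ) (p : R[X]), eval x (q • p) = q • eval x p := by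
    intro q p
    exact map_rat_smul (evalRingHom x) q p
  have hT : eval x (T k (N + 1) A B) = T k (N + 1) (A.map (eval x)) (B.map (eval x)) := by
    have h := cnv_SW_map (evalRingHom x).toAddMonoidHom (N + 1)
      (fun w => k w • (ev A B w).trace)
    have h' : eval x (SW (N + 1) (fun w => k w • (ev A B w).trace)) =
        SW (N + 1) (fun w => eval x (k w • (ev A B w).trace)) := h
    rw [T, h', T]
    apply cnv_SW_congr
    intro w _
    rw [hsm, htr, hev]
  simp only [J, W, eval_sub, eval_mul, hsm, hT, htr, hpow, hadd, eval_natCast]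

end main

theorem p_cnv : CnvS := by
  intro R ι _ _ _ _ _ k N c hN hk hd e f M l h1 h2 h3
  obtain ⟨n, rfl⟩ : ∃ n, N = n + 1 := ⟨N - 1, by omega⟩
  open Polynomial in
  set e' : Matrix ι ι R[X] := e.map C with he'
  open Polynomial in
  set f' : Matrix ι ι R[X] := f.map C with hf'
  open Polynomial in
  set Y : Matrix ι ι R[X] := M.map C + (X : R[X]) • (1 : Matrix ι ι R[X]) with hY
  have hmapmul : ∀ P Q : Matrix ι ι R, (P * Q).map (Polynomial.C : R →+* Polynomial R) =
      P.map Polynomial.C * Q.map Polynomial.C := by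
    intro P Q
    exact Matrix.map_mul
  have g1 : e' + f' = 1 := by
    rw [he', hf', ← Matrix.map_add _ (fun a b => Polynomial.C_add), h1]
    ext i j : 1
    simp only [Matrix.map_apply, Matrix.one_apply]
    split_ifs <;> simp
  have g2 : e' * f' = 0 := by
    rw [he', hf', ← hmapmul, h2]
    ext i j : 1
    simp
  have g3 : f' * e' = 0 := by
    rw [he', hf', ← hmapmul, h3]
    ext i j : 1
    simp
  have dC : ∀ P : Matrix ι ι R, cnv_D (P.map (Polynomial.C : R →+* Polynomial R)) = 0 := by
    intro P
    ext i j : 1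
    simp [cnv_D]
  have dY : cnv_D Y = 1 := by
    ext i j : 1
    simp only [cnv_D, hY, Matrix.map_apply, Matrix.add_apply, Matrix.smul_apply, Matrix.one_apply,
      smul_eq_mul, map_add, Polynomial.derivative_C, zero_add]
    split_ifs <;> simp
  have hder := cnv_deriv k n c hk hd e' f' Y g1 g2 g3 dY (dC e) (dC f)
  have hconst := Polynomial.natDegree_eq_zero_of_derivative_eq_zero hder
  obtain ⟨r, hr⟩ : ∃ r : R, J k (n + 1) c (e' * Y) (f' * Y) = Polynomial.C r :=
    ⟨_, Polynomial.eq_C_of_natDegree_eq_zero hconst⟩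
  have hev : ∀ x : R, J k (n + 1) c (e * (M + x • (1 : Matrix ι ι R)))
      (f * (M + x • (1 : Matrix ι ι R))) = r := by
    intro x
    have hmulx : ∀ P Q : Matrix ι ι (Polynomial R), (P * Q).map (Polynomial.eval x) =
        P.map (Polynomial.eval x) * Q.map (Polynomial.eval x) := by
      intro P Q
      ext i j
      simp [Matrix.mul_apply, Polynomial.eval_finsetSum]
    have a1 : e'.map (Polynomial.eval x) = e := by
      ext i j; simp [he']
    have a2 : f'.map (Polynomial.eval x) = f := by
      ext i j; simp [hf']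
    have a3 : Y.map (Polynomial.eval x) = M + x • (1 : Matrix ι ι R) := by
      ext i j
      simp only [hY, Matrix.map_apply, Matrix.add_apply, Matrix.smul_apply, Matrix.one_apply,
        smul_eq_mul, Polynomial.eval_add, Polynomial.eval_C, Polynomial.eval_mul,
        Polynomial.eval_X]
      split_ifs <;> simp
    have h := cnv_eval x k (n + 1) c (e' * Y) (f' * Y)
    rw [hr, Polynomial.eval_C, hmulx, hmulx, a1, a2, a3] at h
    exact h.symm
  have hl := hev l
  have h0 := hev 0
  rw [zero_smul, add_zero] at h0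
  rw [hl, h0]

end Pool.Agent.MP_a57f33_nt.BZ
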