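import Pool.Agent.Lib.MP_a57f33_nt.BZ.Stm

/-!
The functional `K` is cyclic.
-/

namespace Pool.Agent.MP_a57f33_nt.BZ

open Pool.Agent.MP_a57f33_nt

theorem cyc_sgn0 : sgn X0 = X0 := by simp [sgn]

theorem cyc_sgn1 : sgn X1 = -X1 := by simp [sgn]

theorem cyc_rot0 : rot X0 = -X0 - X1 := by simp [rot]

theorem cyc_rot1 : rot X1 = -X1 := by simp [rot]

theorem cyc_sgn_shift (ψ : QX) : sgn (shiftX ψ) = rot ψ := by
  have : sgn.comp shiftX = rot := by
    apply FreeAlgebra.hom_ext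
    funext b
    cases b
    · change sgn (shiftX X0) = rot X0
      rw [shiftX_X0, map_sub, cyc_sgn0, cyc_sgn1, cyc_rot0]
      abel
    · change sgn (shiftX X1) = rot X1
      rw [shiftX_X1, cyc_sgn1, cyc_rot1]
  exact AlgHom.congr_fun this ψ

theorem cyc_id {ψ : QX} (h : ψ ∈ dm0) :
    (X0 * ph0 ψ - ph0 ψ * X0) + (X1 * ph1 ψ - ph1 ψ * X1) = 0 := by
  have h1 := congrArg sgn (two_term h)
  simp only [map_add, map_sub, map_mul, map_zero, cyc_sgn_shift, cyc_sgn0, cyc_sgn1] at h1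
  unfold ph0 ph1
  have e : (X0 * (rot ψ - sgn ψ) - (rot ψ - sgn ψ) * X0) + (X1 * rot ψ - rot ψ * X1) =
      -((X0 * sgn ψ - sgn ψ * X0) + ((-X1 - X0) * rot ψ - rot ψ * (-X1 - X0))) := by
    noncomm_ring
  rw [e, h1, neg_zero]

theorem cyc_coeff {ψ : QX} (h : ψ ∈ dm0) (a i : Bool) (v : List Bool) :
    coeff (cond i (ph1 ψ) (ph0 ψ)) (v ++ [a]) = coeff (cond a (ph1 ψ) (ph0 ψ)) (i :: v) := by
  have h1 := congrArg (fun u => coeff u ((i :: v) ++ [a])) (cyc_id h)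
  simp only [coeff_sub, coeff_add] at h1
  rw [coeff_mul_iota_snoc, coeff_mul_iota_snoc, List.cons_append, coeff_iota_mul_cons,
    coeff_iota_mul_cons] at h1
  have h0 : coeff (0 : QX) (i :: (v ++ [a])) = 0 := by
    simp [coeff]
  rw [h0] at h1
  cases a <;> cases i <;> simp at h1 ⊢ <;> linarith

theorem cyc_K (ψ : QX) (i : Bool) (w : List Bool) :
    K ψ (i :: w) = coeff (cond i (ph1 ψ) (ph0 ψ)) w := by
  cases i <;> rfl

theorem p_cyc : CycS := by
  intro ψ h a w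
  cases w with
  | nil => rfl
  | cons i v =>
    rw [List.cons_append, cyc_K, cyc_K]
    exact cyc_coeff h a i v

end Pool.Agent.MP_a57f33_nt.BZ
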