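import Pool.Agent.Lib.MP_a57f33_nt.BZ.Stm

set_option autoImplicit false

/-!
Piece dbl: the divergence condition.
-/

namespace Pool.Agent.MP_a57f33_nt.BZ

open Pool.Agent.MP_a57f33_nt

attribute [local instance 100] LieRing.ofAssociativeRing

/-! ### Lie elements -/

private theorem dbl_X0 : (X0 : QX) ∈ LieX := iota_mem false

private theorem dbl_X1 : (X1 : QX) ∈ LieX := iota_mem true

private theorem dbl_rot {ψ : QX} (h : ψ ∈ LieX) : rot ψ ∈ LieX := by
  refine hom_lie rot ?_ h
  intro b
  cases b with
  | false =>
    have e : rot (FreeAlgebra.ι ℚ false) = -X0 - X1 := by simp [rot]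
    rw [e]
    exact sub_mem (neg_mem dbl_X0) dbl_X1
  | true =>
    have e : rot (FreeAlgebra.ι ℚ true) = -X1 := by simp [rot]
    rw [e]
    exact neg_mem dbl_X1

private theorem dbl_sgn {ψ : QX} (h : ψ ∈ LieX) : sgn ψ ∈ LieX := by
  refine hom_lie sgn ?_ h
  intro b
  cases b with
  | false =>
    have e : sgn (FreeAlgebra.ι ℚ false) = X0 := by simp [sgn]
    rw [e]
    exact dbl_X0
  | true =>
    have e : sgn (FreeAlgebra.ι ℚ true) = -X1 := by simp [sgn]
    rw [e]
    exact neg_mem dbl_X1

/-- the linear part of an algebra map on a Lie element -/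
private theorem dbl_lin (f : QX →ₐ[ℚ] QX) {ψ : QX} (h : ψ ∈ LieX) (a : Bool) :
    coeff (f ψ) [a] = coeff ψ [false] * coeff (f X0) [a] + coeff ψ [true] * coeff (f X1) [a] := by
  refine lie_induction (P := fun ψ => coeff (f ψ) [a] = coeff ψ [false] * coeff (f X0) [a] +
    coeff ψ [true] * coeff (f X1) [a]) ?_ ?_ ?_ ?_ ?_ h
  · intro b
    rw [coeff_iota, coeff_iota]
    cases b with
    | false => simp
    | true => simp
  · rw [map_zero, coeff_zero, coeff_zero, coeff_zero]
    ring
  · intro x y hx hy
    rw [map_add, coeff_add, coeff_add, coeff_add, hx, hy]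
    ring
  · intro r x hx
    rw [map_smul, coeff_smul, coeff_smul, coeff_smul, hx]
    ring
  · intro x y _ _ _ _
    rw [map_sub, map_mul, map_mul, coeff_sub, coeff_sub, coeff_sub, coeff_mul, coeff_mul,
      coeff_mul, coeff_mul, coeff_mul, coeff_mul]
    simp only [conv]
    ring

private theorem dbl_lin0 {ψ : QX} (h : ψ ∈ dm0) (f : QX →ₐ[ℚ] QX) (a : Bool) :
    coeff (f ψ) [a] = 0 := by
  rw [dbl_lin f h.1 a, h.2.1, h.2.2.1]
  ring

private theorem dbl_sgn_word (w : List Bool) :
    sgn (word w) = ((-1 : ℚ) ^ (w.count true)) • word w := by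
  induction w with
  | nil => simp
  | cons a w ih =>
    rw [word_cons, map_mul, ih]
    cases a with
    | false =>
      have e : sgn (FreeAlgebra.ι ℚ false) = FreeAlgebra.ι ℚ false := by simp [sgn]
      rw [e]
      simp
    | true =>
      have e : sgn (FreeAlgebra.ι ℚ true) = (-1 : ℚ) • FreeAlgebra.ι ℚ true := by simp [sgn]
      rw [e]
      simp [pow_succ]

private theorem dbl_sgn_coeff (ψ : QX) (w : List Bool) :
    coeff (sgn ψ) w = (-1 : ℚ) ^ (w.count true) * coeff ψ w := by
  have key : (coeffL w).comp sgn.toLinearMap = ((-1 : ℚ) ^ (w.count true)) • coeffL w := by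
    apply linear_ext
    intro v
    simp only [LinearMap.comp_apply, LinearMap.smul_apply, coeffL_apply, AlgHom.toLinearMap_apply,
      dbl_sgn_word, coeff_smul, coeff_word, smul_eq_mul]
    by_cases h : v = w
    · subst h
      simp
    · simp [h]
  exact LinearMap.congr_fun key ψ

/-! ### positions -/

private theorem dbl_aft_sum (a : Bool) (w : List Bool) : ∀ c : List Bool → ℚ,
    c (a :: w) + aft true [a] w c + aft false [a] w c = ins a w c := by
  induction w with
  | nil => intro c; simp [aft, ins]
  | cons d w ih =>
    intro c
    have := ih (fun t => c (d :: t))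
    simp only [aft, ins]
    cases d <;> simp at this ⊢ <;> linarith

private theorem dbl_eq_aft (w : List Bool) : ∀ c : List Bool → ℚ,
    dbl w c = aft true [true] w c + aft false [false] w c := by
  induction w with
  | nil => intro c; simp [aft, dbl]
  | cons d w ih =>
    intro c
    simp only [aft, dbl]
    rw [ih]
    cases d <;> simp <;> ring

private theorem dbl_move (w : List Bool) : ∀ c : List Bool → ℚ,
    aft true [false] w c - bef true [false] w c = c (w ++ [false]) - c (false :: w) := by
  induction w with
  | nil => intro c; simp [aft, bef]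
  | cons d w ih =>
    intro c
    have := ih (fun t => c (d :: t))
    simp only [aft, bef]
    cases d <;> simp at this ⊢ <;> linarith

private theorem dbl_sub (w : List Bool) : ∀ c c' : List Bool → ℚ,
    dbl w (fun t => c t - c' t) = dbl w c - dbl w c' := by
  induction w with
  | nil => intro c c'; simp [dbl]
  | cons d w ih =>
    intro c c'
    simp only [dbl]
    rw [ih]
    ring

private theorem dbl_aft_sub (b : Bool) (v w : List Bool) (c c' : List Bool → ℚ) :
    aft b v w (fun t => c t - c' t) = aft b v w c - aft b v w c' := by
  have e : (fun t => c t - c' t) = fun t => c t + (-1) * c' t := by funext t; ring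
  rw [e, aft_add, aft_mul]
  ring

private theorem dbl_bef_sub (b : Bool) (v w : List Bool) (c c' : List Bool → ℚ) :
    bef b v w (fun t => c t - c' t) = bef b v w c - bef b v w c' := by
  have e : (fun t => c t - c' t) = fun t => c t + (-1) * c' t := by funext t; ring
  rw [e, bef_add, bef_mul]
  ring

private theorem dbl_aft_sign (b : Bool) (v w : List Bool) : ∀ c : List Bool → ℚ,
    aft b v w (fun t => (-1 : ℚ) ^ (t.count true) * c t) =
      (-1 : ℚ) ^ (w.count true + v.count true) * aft b v w c := by
  induction w with
  | nil => intro c; simp [aft]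
  | cons d w ih =>
    intro c
    have e : (fun t : List Bool => (-1 : ℚ) ^ ((d :: t).count true) * c (d :: t)) =
        fun t => (-1 : ℚ) ^ ([d].count true) * ((-1 : ℚ) ^ (t.count true) * c (d :: t)) := by
      funext t
      have : (d :: t).count true = [d].count true + t.count true := by
        rw [← List.count_append]
        rfl
      rw [this, pow_add]
      ring
    simp only [aft]
    rw [e, aft_mul, ih (fun t => c (d :: t))]
    have e2 : (d :: (v ++ w)).count true = [d].count true + (w.count true + v.count true) := by
      have : d :: (v ++ w) = [d] ++ v ++ w := rfl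
      rw [this, List.count_append, List.count_append]
      omega
    have e3 : (d :: w).count true + v.count true =
        [d].count true + (w.count true + v.count true) := by
      have : d :: w = [d] ++ w := rfl
      rw [this, List.count_append]
      omega
    rw [e2, e3, pow_add (-1 : ℚ) ([d].count true)]
    split_ifs <;> ring

private theorem dbl_bef_sign (b : Bool) (v w : List Bool) : ∀ c : List Bool → ℚ,
    bef b v w (fun t => (-1 : ℚ) ^ (t.count true) * c t) =
      (-1 : ℚ) ^ (w.count true + v.count true) * bef b v w c := by
  induction w with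
  | nil => intro c; simp [bef]
  | cons d w ih =>
    intro c
    have e : (fun t : List Bool => (-1 : ℚ) ^ ((d :: t).count true) * c (d :: t)) =
        fun t => (-1 : ℚ) ^ ([d].count true) * ((-1 : ℚ) ^ (t.count true) * c (d :: t)) := by
      funext t
      have : (d :: t).count true = [d].count true + t.count true := by
        rw [← List.count_append]
        rfl
      rw [this, pow_add]
      ring
    simp only [bef]
    rw [e, bef_mul, ih (fun t => c (d :: t))]
    have e2 : (v ++ d :: w).count true = [d].count true + (w.count true + v.count true) := by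
      have : v ++ d :: w = v ++ ([d] ++ w) := rfl
      rw [this, List.count_append, List.count_append]
      omega
    have e3 : (d :: w).count true + v.count true =
        [d].count true + (w.count true + v.count true) := by
      have : d :: w = [d] ++ w := rfl
      rw [this, List.count_append]
      omega
    rw [e2, e3, pow_add (-1 : ℚ) ([d].count true)]
    split_ifs <;> ring

/-! ### cyclicity -/

private theorem dbl_snoc (a : Bool) (w : List Bool) : ∀ c : List Bool → ℚ,
    dbl (w ++ [a]) c = dbl w (fun t => c (t ++ [a])) + c (w ++ [a, a]) := by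
  induction w with
  | nil => intro c; simp [dbl]
  | cons d w ih =>
    intro c
    simp only [List.cons_append, dbl]
    rw [ih]
    ring

private theorem dbl_congr (w : List Bool) {c c' : List Bool → ℚ} (h : ∀ t, c t = c' t) :
    dbl w c = dbl w c' := by
  have : c = c' := funext h
  rw [this]

private theorem dbl_cyc {k : List Bool → ℚ} (hk : Cyc k) (a : Bool) (w : List Bool) :
    dbl (w ++ [a]) k = dbl (a :: w) k := by
  rw [dbl_snoc, dbl]
  have h1 : k (w ++ [a, a]) = k (a :: a :: w) := by
    have e : w ++ [a, a] = (w ++ [a]) ++ [a] := by simp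
    rw [e, hk]
    exact hk a (a :: w)
  rw [h1, dbl_congr w (fun t => hk a t)]
  ring

private theorem dbl_cyc_append {k : List Bool → ℚ} (hk : Cyc k) (u : List Bool) :
    ∀ w : List Bool, dbl (u ++ w) k = dbl (w ++ u) k := by
  induction u with
  | nil => intro w; simp
  | cons a u ih =>
    intro w
    have e : w ++ a :: u = (w ++ [a]) ++ u := by simp
    rw [e, ← ih (w ++ [a])]
    have e2 : u ++ (w ++ [a]) = (u ++ w) ++ [a] := by simp
    rw [e2, dbl_cyc hk]
    rfl

/-! ### flipping a letter -/

private theorem dbl_flip {ψ : QX} (h : ψ ∈ dm0) (hk : Cyc (K ψ)) (w : List Bool) (hw : w ≠ []) :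
    dbl (true :: w) (K ψ) - dbl (false :: w) (K ψ) =
      - (bef true [false] w (coeff (sgn ψ)) + aft false [true] w (coeff (sgn ψ))) := by
  have hL1 : ph1 ψ ∈ LieX := dbl_rot h.1
  have hL0 : ph0 ψ ∈ LieX := sub_mem (dbl_rot h.1) (dbl_sgn h.1)
  have hs : coeff (sgn ψ) = fun t => coeff (ph1 ψ) t - coeff (ph0 ψ) t := by
    funext t
    rw [← coeff_sub]
    congr 1
    unfold ph1 ph0
    abel
  have e1 : dbl (true :: w) (K ψ) = coeff (ph1 ψ) (true :: w) + dbl w (coeff (ph1 ψ)) := rfl
  have e0 : dbl (false :: w) (K ψ) = coeff (ph0 ψ) (false :: w) + dbl w (coeff (ph0 ψ)) := rfl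
  rw [e1, e0, hs, dbl_bef_sub, dbl_aft_sub, dbl_eq_aft, dbl_eq_aft]
  have i11 := dbl_aft_sum true w (coeff (ph1 ψ))
  have i01 := dbl_aft_sum false w (coeff (ph1 ψ))
  have i10 := dbl_aft_sum true w (coeff (ph0 ψ))
  have i00 := dbl_aft_sum false w (coeff (ph0 ψ))
  rw [(lie_ins hL1).2 _ _ hw] at i11 i01
  rw [(lie_ins hL0).2 _ _ hw] at i10 i00
  have m1 := dbl_move w (coeff (ph1 ψ))
  have m0 := dbl_move w (coeff (ph0 ψ))
  have c1 : coeff (ph1 ψ) (w ++ [false]) = coeff (ph0 ψ) (true :: w) := hk false (true :: w)
  have c0 : coeff (ph0 ψ) (w ++ [false]) = coeff (ph0 ψ) (false :: w) := hk false (false :: w)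
  linarith

private theorem dbl_F {ψ : QX} (h : ψ ∈ dm0) (w : List Bool) (hw : true ∈ w) :
    bef true [false] w (coeff (sgn ψ)) + aft false [true] w (coeff (sgn ψ)) =
      if false ∈ w then 0 else coeff (sgn ψ) (List.replicate w.length false ++ [true]) := by
  have hne : w ≠ [] := by
    rintro rfl
    simp at hw
  have hs : coeff (sgn ψ) = fun t => (-1 : ℚ) ^ (t.count true) * coeff ψ t := by
    funext t
    exact dbl_sgn_coeff ψ t
  have h1 := DS1_RR (dm0_subset_DS1 h) 0 w hw
  have h2 : RR 0 w (coeff ψ) = coeff ψ (true :: w) + aft true [true] w (coeff ψ) +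
      bef true [false] w (coeff ψ) := by
    simp [RR]
  have h3 := dbl_aft_sum true w (coeff ψ)
  rw [(lie_ins h.1).2 _ _ hne] at h3
  have h4 : bef true [false] w (coeff ψ) - aft false [true] w (coeff ψ) =
      target (coeff ψ) 0 w := by
    rw [← h1, h2]
    linarith
  have h5 : bef true [false] w (coeff (sgn ψ)) + aft false [true] w (coeff (sgn ψ)) =
      (-1 : ℚ) ^ (w.count true) * target (coeff ψ) 0 w := by
    rw [hs, dbl_bef_sign, dbl_aft_sign, ← h4]
    have e1 : [false].count true = 0 := rfl
    have e2 : [true].count true = 1 := rfl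
    rw [e1, e2, add_zero, pow_succ]
    ring
  rw [h5]
  unfold target
  by_cases hf : false ∈ w
  · simp [hf]
  · rw [if_neg hf, if_pos ⟨rfl, hf⟩, dbl_sgn_coeff]
    have e1 : w.count true = w.length := by
      rw [List.count_eq_length]
      intro b hb
      cases b with
      | false => exact absurd hb hf
      | true => rfl
    have e2 : (List.replicate w.length false ++ [true]).count true = 1 := by
      rw [List.count_append]
      simp [List.count_replicate]
    rw [e1, e2]
    unfold al zs
    have e3 : ((-1 : ℚ) ^ w.length) * (-1) ^ w.length = 1 := by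
      rw [← mul_pow]
      simp
    rw [pow_succ]
    calc (-1 : ℚ) ^ w.length * ((-1) ^ w.length * -1 *
          coeff ψ (List.replicate w.length false ++ [true]))
        = (((-1 : ℚ) ^ w.length) * (-1) ^ w.length) *
          (-1 * coeff ψ (List.replicate w.length false ++ [true])) := by ring
      _ = _ := by rw [e3, one_mul, pow_one]

/-! ### constant words -/

private theorem dbl_const (a : Bool) (n : ℕ) : ∀ c : List Bool → ℚ,
    dbl (List.replicate n a) c = n * c (List.replicate (n + 1) a) := by
  induction n with
  | zero => intro c; simp [dbl]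
  | succ n ih =>
    intro c
    rw [List.replicate_succ, dbl, ih]
    simp only [List.replicate_succ]
    push_cast
    ring

private theorem dbl_ins_const (a : Bool) (n : ℕ) : ∀ c : List Bool → ℚ,
    ins a (List.replicate n a) c = (n + 1) * c (List.replicate (n + 1) a) := by
  induction n with
  | zero => intro c; simp [ins]
  | succ n ih =>
    intro c
    rw [List.replicate_succ, ins, ih]
    simp only [List.replicate_succ]
    push_cast
    ring

private theorem dbl_T_const {ψ : QX} (h : ψ ∈ dm0) (a : Bool) (n : ℕ) :
    dbl (List.replicate n a) (K ψ) = 0 := by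
  rw [dbl_const]
  cases n with
  | zero => simp
  | succ n =>
    have hz : K ψ (List.replicate (n + 1 + 1) a) = 0 := by
      cases n with
      | zero =>
        cases a with
        | false =>
          show coeff (rot ψ - sgn ψ) [false] = 0
          rw [coeff_sub, dbl_lin0 h, dbl_lin0 h]
          ring
        | true =>
          show coeff (rot ψ) [true] = 0
          exact dbl_lin0 h rot true
      | succ n =>
        have key : ∀ φ : QX, φ ∈ LieX → coeff φ (List.replicate (n + 1 + 1) a) = 0 := by
          intro φ hφ
          have h1 := (lie_ins hφ).2 a (List.replicate (n + 1) a) (by simp)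
          rw [dbl_ins_const] at h1
          have h2 : (((n + 1 : ℕ) : ℚ) + 1) ≠ 0 := by positivity
          exact (mul_eq_zero.1 h1).resolve_left h2
        cases a with
        | false => exact key (ph0 ψ) (sub_mem (dbl_rot h.1) (dbl_sgn h.1))
        | true => exact key (ph1 ψ) (dbl_rot h.1)
    rw [hz, mul_zero]

/-! ### conclusion -/

private theorem dbl_eq_rep {w : List Bool} {a : Bool} (h : (!a) ∉ w) :
    w = List.replicate w.length a := by
  rw [List.eq_replicate_iff]
  refine ⟨rfl, fun b hb => ?_⟩
  by_contra hne
  apply h
  cases a <;> cases b <;> simp_all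

private theorem dbl_main {ψ : QX} (h : ψ ∈ dm0) (hk : Cyc (K ψ)) : ∀ (z : ℕ) (C : List Bool),
    C.count false = z → true ∈ C → false ∈ C →
    dbl C (K ψ) = coeff (sgn ψ) (List.replicate (C.length - 1) false ++ [true]) := by
  intro z
  induction z with
  | zero =>
    intro C hC _ hf
    exact absurd hf (List.count_eq_zero.1 hC)
  | succ z ih =>
    intro C hC ht hf
    obtain ⟨u, v, huv⟩ := List.append_of_mem hf
    have e1 : dbl C (K ψ) = dbl (false :: (v ++ u)) (K ψ) := by
      rw [huv, dbl_cyc_append hk]
      rfl
    have ht' : true ∈ v ++ u := by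
      rw [huv] at ht
      simp at ht ⊢
      tauto
    have hne : v ++ u ≠ [] := by
      intro e
      rw [e] at ht'
      simp at ht'
    have hlen : C.length - 1 = (v ++ u).length := by
      rw [huv]
      simp
      omega
    have h1 := dbl_flip h hk (v ++ u) hne
    rw [dbl_F h _ ht'] at h1
    rw [e1, hlen]
    by_cases hf' : false ∈ v ++ u
    · rw [if_pos hf'] at h1
      have hcount : (true :: (v ++ u)).count false = z := by
        rw [huv] at hC
        simp only [List.count_append, List.count_cons_self, List.count_cons] at hC ⊢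
        simp at hC ⊢
        omega
      have h2 := ih (true :: (v ++ u)) hcount (by simp) (List.mem_cons_of_mem _ hf')
      have hlen2 : (true :: (v ++ u)).length - 1 = (v ++ u).length := by simp
      rw [hlen2] at h2
      rw [← h2]
      linarith
    · rw [if_neg hf'] at h1
      have e2 : v ++ u = List.replicate (v ++ u).length true := dbl_eq_rep (a := true) hf'
      have h3 : dbl (true :: (v ++ u)) (K ψ) = 0 := by
        rw [e2, ← List.replicate_succ]
        exact dbl_T_const h true _
      rw [h3] at h1
      linarith

theorem p_dbl : DblS := by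
  intro ψ h hk N C hC
  by_cases hcase : C = List.replicate N false ∨ C = List.replicate N true
  · rw [if_pos hcase]
    rcases hcase with e | e
    · rw [e]
      exact dbl_T_const h false N
    · rw [e]
      exact dbl_T_const h true N
  · rw [if_neg hcase]
    rw [not_or] at hcase
    have hf : false ∈ C := by
      by_contra hn
      apply hcase.2
      rw [← hC]
      exact dbl_eq_rep (a := true) hn
    have ht : true ∈ C := by
      by_contra hn
      apply hcase.1
      rw [← hC]
      exact dbl_eq_rep (a := false) hn
    rw [dbl_main h hk _ C rfl ht hf, hC]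

end Pool.Agent.MP_a57f33_nt.BZ
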