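import Pool.Agent.Lib.MP_a57f33_nt.BZ.Stm

/-!
Piece [fac]: factorization of the pair of matrices.
-/

namespace Pool.Agent.MP_a57f33_nt.BZ

open Pool.Agent.MP_a57f33_nt
open Matrix

section

variable {R ι κ : Type} [CommRing R] [Fintype ι] [DecidableEq ι] [Fintype κ] [DecidableEq κ]

theorem fac_ev (e f : Matrix κ κ R) (U : Matrix ι κ R) (V : Matrix κ ι R) (w : List Bool) :
    ev (U * e * V) (U * f * V) w * U = U * ev (e * (V * U)) (f * (V * U)) w := by
  induction w with
  | nil => simp [ev]
  | cons b w ih =>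
    have h1 : ev (U * e * V) (U * f * V) (b :: w) =
        (U * (cond b f e) * V) * ev (U * e * V) (U * f * V) w := by
      cases b <;> simp [ev]
    have h2 : ev (e * (V * U)) (f * (V * U)) (b :: w) =
        ((cond b f e) * (V * U)) * ev (e * (V * U)) (f * (V * U)) w := by
      cases b <;> simp [ev]
    rw [h1, h2, Matrix.mul_assoc, ih]
    simp only [Matrix.mul_assoc]

theorem fac_tr (e f : Matrix κ κ R) (U : Matrix ι κ R) (V : Matrix κ ι R) (b : Bool)
    (w : List Bool) :
    (ev (U * e * V) (U * f * V) (b :: w)).trace =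
      (ev (e * (V * U)) (f * (V * U)) (b :: w)).trace := by
  have h1 : ev (U * e * V) (U * f * V) (b :: w) =
      U * ((cond b f e) * V * ev (U * e * V) (U * f * V) w) := by
    cases b <;> simp [ev, Matrix.mul_assoc]
  have h2 : ev (e * (V * U)) (f * (V * U)) (b :: w) =
      ((cond b f e) * (V * U)) * ev (e * (V * U)) (f * (V * U)) w := by
    cases b <;> simp [ev]
  rw [h1, Matrix.trace_mul_comm, h2, Matrix.mul_assoc, fac_ev]
  simp only [Matrix.mul_assoc]

theorem fac_pow (g : Matrix κ κ R) (U : Matrix ι κ R) (V : Matrix κ ι R) (n : ℕ) :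
    (U * g * V) ^ n * U = U * (g * (V * U)) ^ n := by
  induction n with
  | zero => simp
  | succ n ih =>
    rw [pow_succ', Matrix.mul_assoc, ih, pow_succ']
    simp only [Matrix.mul_assoc]

theorem fac_trp (g : Matrix κ κ R) (U : Matrix ι κ R) (V : Matrix κ ι R) (n : ℕ) :
    ((U * g * V) ^ (n + 1)).trace = ((g * (V * U)) ^ (n + 1)).trace := by
  rw [pow_succ', pow_succ']
  have h1 : U * g * V * (U * g * V) ^ n = U * (g * V * (U * g * V) ^ n) := by
    simp only [Matrix.mul_assoc]
  rw [h1, Matrix.trace_mul_comm, Matrix.mul_assoc, fac_pow]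
  simp only [Matrix.mul_assoc]

end

theorem p_fac : FacS := by
  intro R ι κ _ _ _ _ _ _ k N c e f U V
  have hT : T k (N + 1) (U * e * V) (U * f * V) =
      T k (N + 1) (e * (V * U)) (f * (V * U)) := by
    simp only [T, SW, fac_tr]
  have hW : W (N + 1) (U * e * V) (U * f * V) =
      W (N + 1) (e * (V * U)) (f * (V * U)) := by
    have h1 : U * e * V + U * f * V = U * (e + f) * V := by
      rw [Matrix.mul_add, Matrix.add_mul]
    have h2 : e * (V * U) + f * (V * U) = (e + f) * (V * U) := by
      rw [Matrix.add_mul]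
    simp only [W]
    rw [h1, h2, fac_trp, fac_trp, fac_trp]
  simp only [J, hT, hW]

end Pool.Agent.MP_a57f33_nt.BZ
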