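import Pool.Agent.Lib.MP_a57f33_nt.BZ.Stm

/-!
Piece [map]: the trace functional commutes with algebra maps.
-/

namespace Pool.Agent.MP_a57f33_nt.BZ

open Pool.Agent.MP_a57f33_nt
open Matrix

theorem map_ev {R S ι : Type} [CommRing R] [CommRing S] [Fintype ι] [DecidableEq ι]
    (g : R →+* S) (A B : Matrix ι ι R) (w : List Bool) :
    ev (A.map g) (B.map g) w = (ev A B w).map g := by
  induction w with
  | nil => simp [ev, Matrix.map_one]
  | cons b w ih =>
    have h1 : ev (A.map g) (B.map g) (b :: w) =
        ((cond b B A).map g) * ev (A.map g) (B.map g) w := by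
      cases b <;> simp [ev]
    have h2 : ev A B (b :: w) = (cond b B A) * ev A B w := by
      cases b <;> simp [ev]
    rw [h1, h2, ih, Matrix.map_mul]

theorem map_SW {M N : Type} [AddCommMonoid M] [AddCommMonoid N] (g : M →+ N) (n : ℕ) :
    ∀ f : List Bool → M, SW n (fun w => g (f w)) = g (SW n f) := by
  induction n with
  | zero => intro f; rfl
  | succ n ih =>
    intro f
    simp only [SW, map_add]
    rw [ih (fun w => f (false :: w)), ih (fun w => f (true :: w))]

theorem p_map : MapS := by
  intro R S ι _ _ _ _ _ _ g k n A B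
  unfold T
  have h : (fun w => k w • (ev (A.map g) (B.map g) w).trace) =
      fun w => (g : R →+ S) (k w • (ev A B w).trace) := by
    funext w
    have h1 : ev (A.map g) (B.map g) w = (ev A B w).map g := map_ev (g : R →+* S) A B w
    have h2 : ((ev A B w).map g).trace = g (ev A B w).trace := by
      simp [Matrix.trace, map_sum]
    rw [h1, h2]
    exact (map_smul g (k w) _).symm
  rw [h]
  exact map_SW (g : R →+ S) n _

end Pool.Agent.MP_a57f33_nt.BZ
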