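import Pool.Agent.Lib.MP_a57f33_nt.BZ.Stm

/-!
The Brown-Zagier relation, piece pw3: power sums of a three by three matrix.
-/

set_option autoImplicit false

namespace Pool.Agent.MP_a57f33_nt.BZ

open Pool.Agent.MP_a57f33_nt
open Matrix

/-- the recursion -/
private theorem pw3_rec (R : Type) [CommRing R] (X : Matrix (Fin 3) (Fin 3) R) (a b c : R)
    (h : (X - a • (1 : Matrix _ _ R)) * (X - b • (1 : Matrix _ _ R)) *
      (X - c • (1 : Matrix _ _ R)) = 0) (n : ℕ) :
    (X ^ (n + 3)).trace = (a + b + c) * (X ^ (n + 2)).trace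
      - (a * b + a * c + b * c) * (X ^ (n + 1)).trace + a * b * c * (X ^ n).trace := by
  have h2 : X ^ n * ((X - a • (1 : Matrix _ _ R)) * (X - b • (1 : Matrix _ _ R)) *
      (X - c • (1 : Matrix _ _ R))) = X ^ (n + 3) - (a + b + c) • X ^ (n + 2)
        + (a * b + a * c + b * c) • X ^ (n + 1) - (a * b * c) • X ^ n := by
    simp only [sub_mul, mul_sub, smul_mul_assoc, mul_smul_comm, one_mul, mul_one, smul_smul,
      pow_succ, mul_assoc, smul_sub]
    module
  rw [h, mul_zero] at h2
  have h3 := congrArg Matrix.trace h2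
  rw [trace_zero, trace_sub, trace_add, trace_sub, trace_smul, trace_smul, trace_smul,
    smul_eq_mul, smul_eq_mul, smul_eq_mul] at h3
  linear_combination -h3

/-- [pw3] -/
theorem p_pw3 : Pw3S := by
  intro R _ X a b c h1 h2 h n
  have key : ∀ n : ℕ, (X ^ n).trace = a ^ n + b ^ n + c ^ n ∧
      (X ^ (n + 1)).trace = a ^ (n + 1) + b ^ (n + 1) + c ^ (n + 1) ∧
      (X ^ (n + 2)).trace = a ^ (n + 2) + b ^ (n + 2) + c ^ (n + 2) := by
    intro n
    induction n with
    | zero =>
      refine ⟨?_, ?_, ?_⟩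
      · rw [pow_zero, trace_one, pow_zero, pow_zero, pow_zero, Fintype.card_fin]
        norm_num
      · rw [zero_add, pow_one, h1, pow_one, pow_one, pow_one]
      · rw [zero_add, pow_two, h2]
    | succ n ih =>
      obtain ⟨i1, i2, i3⟩ := ih
      refine ⟨i2, i3, ?_⟩
      have e : n + 1 + 2 = n + 3 := rfl
      rw [e, pw3_rec R X a b c h n, i1, i2, i3]
      ring
  exact (key n).1

end Pool.Agent.MP_a57f33_nt.BZ
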