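import Pool.Agent.Lib.MP_a57f33_nt.BZ.Stm

set_option autoImplicit false

/-!
Piece rev: reversal.
-/

namespace Pool.Agent.MP_a57f33_nt.BZ

open Pool.Agent.MP_a57f33_nt

attribute [local instance 100] LieRing.ofAssociativeRing

private theorem rev_X0 : (X0 : QX) ∈ LieX := iota_mem false

private theorem rev_X1 : (X1 : QX) ∈ LieX := iota_mem true

private theorem rev_rot {ψ : QX} (h : ψ ∈ LieX) : rot ψ ∈ LieX := by
  refine hom_lie rot ?_ h
  intro b
  cases b with
  | false =>
    have e : rot (FreeAlgebra.ι ℚ false) = -X0 - X1 := by simp [rot]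
    rw [e]
    exact sub_mem (neg_mem rev_X0) rev_X1
  | true =>
    have e : rot (FreeAlgebra.ι ℚ true) = -X1 := by simp [rot]
    rw [e]
    exact neg_mem rev_X1

private theorem rev_sgn {ψ : QX} (h : ψ ∈ LieX) : sgn ψ ∈ LieX := by
  refine hom_lie sgn ?_ h
  intro b
  cases b with
  | false =>
    have e : sgn (FreeAlgebra.ι ℚ false) = X0 := by simp [sgn]
    rw [e]
    exact rev_X0
  | true =>
    have e : sgn (FreeAlgebra.ι ℚ true) = -X1 := by simp [sgn]
    rw [e]
    exact neg_mem rev_X1

private theorem rev_lie {φ : QX} (h : φ ∈ LieX) (v : List Bool) (hv : Even (v.length + 1)) :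
    coeff φ v.reverse = coeff φ v := by
  rw [lie_reverse h, hv.neg_one_pow, one_mul]

theorem p_rev : RevS := by
  intro ψ hψ hc w hw
  cases w with
  | nil => rfl
  | cons a v =>
    have h1 : (a :: v).reverse = v.reverse ++ [a] := List.reverse_cons
    rw [h1, hc]
    rw [List.length_cons] at hw
    cases a with
    | false =>
      show coeff (ph0 ψ) v.reverse = coeff (ph0 ψ) v
      exact rev_lie (sub_mem (rev_rot hψ.1) (rev_sgn hψ.1)) v hw
    | true =>
      show coeff (ph1 ψ) v.reverse = coeff (ph1 ψ) v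
      exact rev_lie (rev_rot hψ.1) v hw

end Pool.Agent.MP_a57f33_nt.BZ
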