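import Pool.Agent.Lib.MP_a57f33_nt.BZ.Stm

set_option autoImplicit false

/-!
Piece sim: intertwining.
-/

namespace Pool.Agent.MP_a57f33_nt.BZ

open Pool.Agent.MP_a57f33_nt
open Matrix

private theorem sim_ev {R ι : Type} [CommRing R] [Fintype ι] [DecidableEq ι]
    (S A B A' B' : Matrix ι ι R) (hA : S * A = A' * S) (hB : S * B = B' * S) (w : List Bool) :
    S * ev A B w = ev A' B' w * S := by
  induction w with
  | nil => simp [ev]
  | cons b w ih =>
    have h1 : ev A B (b :: w) = cond b B A * ev A B w := by simp [ev]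
    have h2 : ev A' B' (b :: w) = cond b B' A' * ev A' B' w := by simp [ev]
    rw [h1, h2, ← mul_assoc]
    cases b
    · simp only [cond_false]
      rw [hA, mul_assoc, ih, mul_assoc]
    · simp only [cond_true]
      rw [hB, mul_assoc, ih, mul_assoc]

theorem p_sim : SimS := by
  intro R ι _ _ _ _ k n S A B A' B' hS hA hB
  have hu : IsUnit S.det := isUnit_iff_ne_zero.2 hS
  have htr : ∀ w : List Bool, (ev A B w).trace = (ev A' B' w).trace := by
    intro w
    have h1 : ev A B w = S⁻¹ * (ev A' B' w * S) := by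
      rw [← sim_ev S A B A' B' hA hB w, ← mul_assoc, Matrix.nonsing_inv_mul S hu, one_mul]
    rw [h1, Matrix.trace_mul_comm, mul_assoc, Matrix.mul_nonsing_inv S hu, mul_one]
  unfold T
  have hf : (fun w => k w • (ev A B w).trace) = fun w => k w • (ev A' B' w).trace := by
    funext w
    rw [htr w]
  rw [hf]

end Pool.Agent.MP_a57f33_nt.BZ
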