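import Pool.Agent.Lib.MP_a57f33_nt.BZ.Stm

/-!
Piece [tn]: the trace functional on sums `A ⊗ 1 + 1 ⊗ A'`.
-/

namespace Pool.Agent.MP_a57f33_nt.BZ

open Pool.Agent.MP_a57f33_nt
open Matrix Polynomial

attribute [local instance 100] LieRing.ofAssociativeRing

/-! ### Sums over words -/

lemma tn_SW_add {M : Type} [AddCommMonoid M] (n : ℕ) : ∀ f g : List Bool → M,
    SW n (fun w => f w + g w) = SW n f + SW n g := by
  induction n with
  | zero => intro f g; rfl
  | succ n ih =>
    intro f g
    simp only [SW]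
    rw [ih, ih]
    abel

lemma tn_SW_hom {M N : Type} [AddCommMonoid M] [AddCommMonoid N] (F : M →+ N) (n : ℕ) :
    ∀ f : List Bool → M, SW n (fun w => F (f w)) = F (SW n f) := by
  induction n with
  | zero => intro f; rfl
  | succ n ih =>
    intro f
    simp only [SW]
    rw [ih, ih, map_add]

lemma tn_SW_zero {M : Type} [AddCommMonoid M] (n : ℕ) :
    SW n (fun _ => (0 : M)) = 0 := by
  induction n with
  | zero => rfl
  | succ n ih => simp only [SW]; rw [ih, add_zero]

lemma tn_SW_delta {M : Type} [AddCommGroup M] [Module ℚ M] (n : ℕ) :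
    ∀ (v : List Bool) (g : List Bool → M),
      SW n (fun w => (if v = w then (1 : ℚ) else 0) • g w) = if v.length = n then g v else 0 := by
  induction n with
  | zero =>
    intro v g
    cases v with
    | nil => simp [SW]
    | cons a v => simp [SW]
  | succ n ih =>
    intro v g
    cases v with
    | nil =>
      simp only [SW]
      have e : ∀ b : Bool, (fun w : List Bool => (if ([] : List Bool) = b :: w then (1 : ℚ) else 0) •
          g (b :: w)) = fun _ => 0 := by
        intro b; funext w; simp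
      rw [e, e, tn_SW_zero]
      simp
    | cons a v =>
      simp only [SW]
      have e : (fun w : List Bool => (if a :: v = a :: w then (1 : ℚ) else 0) • g (a :: w)) =
          fun w => (if v = w then (1 : ℚ) else 0) • (fun t => g (a :: t)) w := by
        funext w; simp
      have e' : (fun w : List Bool => (if a :: v = (!a) :: w then (1 : ℚ) else 0) • g ((!a) :: w)) =
          fun _ => 0 := by
        funext w; cases a <;> simp
      have h1 := ih v (fun t => g (a :: t))
      cases a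
      · simp only [Bool.not_false] at e'
        rw [e, e', tn_SW_zero, h1]
        simp
      · simp only [Bool.not_true] at e'
        rw [e, e', tn_SW_zero, h1]
        simp

/-! ### The evaluation in the polynomial ring -/

section EV

variable {S : Type} [Ring S] [Algebra ℚ S]

/-- The evaluation `x₀ ↦ z A`, `x₁ ↦ z B` in `S[z]`. -/
noncomputable def tn_EV (A B : S) : QX →ₐ[ℚ] S[X] :=
  FreeAlgebra.lift ℚ fun b : Bool => monomial 1 (cond b B A)

lemma tn_EV_iota (A B : S) (b : Bool) :
    tn_EV A B (FreeAlgebra.ι ℚ b) = monomial 1 (cond b B A) := by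
  simp [tn_EV]

lemma tn_EV_word (A B : S) (v : List Bool) :
    tn_EV A B (word v) = monomial v.length (ev A B v) := by
  induction v with
  | nil => simp [ev]
  | cons a v ih =>
    rw [word_cons, map_mul, ih, tn_EV_iota, monomial_mul_monomial]
    simp only [ev, List.map_cons, List.prod_cons, List.length_cons]
    rw [add_comm]

lemma tn_EV_coeff (A B : S) (n : ℕ) (φ : QX) :
    (tn_EV A B φ).coeff n = SW n (fun w => coeff φ w • ev A B w) := by
  let F : QX →ₗ[ℚ] S :=
    { toFun := fun φ => (tn_EV A B φ).coeff n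
      map_add' := by intro x y; simp
      map_smul' := by intro r x; simp }
  let G : QX →ₗ[ℚ] S :=
    { toFun := fun φ => SW n (fun w => coeff φ w • ev A B w)
      map_add' := by
        intro x y
        rw [← tn_SW_add]
        congr 1
        funext w
        rw [coeff_add, add_smul]
      map_smul' := by
        intro r x
        have := tn_SW_hom (DistribSMul.toAddMonoidHom S r) n (fun w => coeff x w • ev A B w)
        simp only [DistribSMul.toAddMonoidHom_apply] at this
        rw [RingHom.id_apply, ← this]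
        congr 1
        funext w
        rw [coeff_smul, mul_smul] }
  have : F = G := by
    apply linear_ext
    intro v
    change (tn_EV A B (word v)).coeff n = SW n (fun w => coeff (word v) w • ev A B w)
    rw [tn_EV_word, coeff_monomial]
    have e : (fun w => coeff (word v) w • ev A B w) =
        fun w => (if v = w then (1 : ℚ) else 0) • ev A B w := by
      funext w; rw [coeff_word]
    rw [e, tn_SW_delta]
  exact LinearMap.congr_fun this φ

omit [Algebra ℚ S] in
lemma tn_map_comm {S₁ S₂ : Type} [Ring S₁] [Ring S₂] (L : S₁ →+* S) (L' : S₂ →+* S)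
    (hc : ∀ a b, L a * L' b = L' b * L a) (p : S₁[X]) (q : S₂[X]) :
    mapRingHom L p * mapRingHom L' q = mapRingHom L' q * mapRingHom L p := by
  ext n
  simp only [coe_mapRingHom, Polynomial.coeff_mul, coeff_map]
  rw [← Finset.Nat.sum_antidiagonal_swap]
  apply Finset.sum_congr rfl
  intro x _
  simp only [Prod.fst_swap, Prod.snd_swap]
  rw [hc]

lemma tn_lie {S₁ S₂ : Type} [Ring S₁] [Ring S₂] [Algebra ℚ S₁] [Algebra ℚ S₂]
    (L : S₁ →+* S) (L' : S₂ →+* S)
    (hc : ∀ a b, L a * L' b = L' b * L a) (A B : S₁) (A' B' : S₂) {φ : QX} (h : φ ∈ LieX) :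
    tn_EV (L A + L' A') (L B + L' B') φ =
      mapRingHom L (tn_EV A B φ) + mapRingHom L' (tn_EV A' B' φ) := by
  refine lie_induction (P := fun φ => tn_EV (L A + L' A') (L B + L' B') φ =
      mapRingHom L (tn_EV A B φ) + mapRingHom L' (tn_EV A' B' φ)) ?_ ?_ ?_ ?_ ?_ h
  · intro b
    simp only [tn_EV_iota, coe_mapRingHom, map_monomial]
    rw [← map_add]
    cases b <;> rfl
  · simp
  · intro x y hx hy
    simp only [map_add, hx, hy]
    abel
  · intro r x hx
    rw [map_smul, hx, map_smul (tn_EV A B), map_smul (tn_EV A' B'), map_rat_smul (mapRingHom L),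
      map_rat_smul (mapRingHom L'), smul_add]
  · intro x y _ _ hx hy
    have e1 := tn_map_comm L L' hc (tn_EV A B x) (tn_EV A' B' y)
    have e2 := tn_map_comm L L' hc (tn_EV A B y) (tn_EV A' B' x)
    simp only [map_sub, map_mul, hx, hy, add_mul, mul_add]
    rw [e1, e2]
    abel

end EV

/-! ### Lie elements without linear part -/

lemma tn_coeff_nil {φ : QX} (h : φ ∈ LieX) : coeff φ [] = 0 := (lie_ins h).1

lemma tn_coeff_one_mul {x y : QX} (hx : coeff x [] = 0) (hy : coeff y [] = 0) (b : Bool) :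
    coeff (x * y) [b] = 0 := by
  rw [coeff_mul]
  simp [conv, hx, hy]

/-- The linear part of the image of a Lie element under a substitution. -/
lemma tn_hom_lin (f : QX →ₐ[ℚ] QX) (hf : ∀ b, f (FreeAlgebra.ι ℚ b) ∈ LieX) {ψ : QX}
    (h : ψ ∈ LieX) (b : Bool) :
    coeff (f ψ) [b] = coeff ψ [false] * coeff (f (FreeAlgebra.ι ℚ false)) [b] +
      coeff ψ [true] * coeff (f (FreeAlgebra.ι ℚ true)) [b] := by
  refine lie_induction (P := fun ψ => coeff (f ψ) [b] =
    coeff ψ [false] * coeff (f (FreeAlgebra.ι ℚ false)) [b] +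
      coeff ψ [true] * coeff (f (FreeAlgebra.ι ℚ true)) [b]) ?_ ?_ ?_ ?_ ?_ h
  · intro c
    cases c <;> simp [coeff_iota]
  · simp [coeff_zero]
  · intro x y hx hy
    rw [map_add, coeff_add, hx, hy, coeff_add, coeff_add]
    ring
  · intro r x hx
    rw [map_smul, coeff_smul, hx, coeff_smul, coeff_smul]
    ring
  · intro x y hx hy _ _
    rw [map_sub, map_mul, map_mul]
    have fx := tn_coeff_nil (hom_lie f hf hx)
    have fy := tn_coeff_nil (hom_lie f hf hy)
    have gx := tn_coeff_nil hx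
    have gy := tn_coeff_nil hy
    rw [coeff_sub, tn_coeff_one_mul fx fy, tn_coeff_one_mul fy fx, coeff_sub, coeff_sub,
      tn_coeff_one_mul gx gy, tn_coeff_one_mul gy gx, tn_coeff_one_mul gx gy,
      tn_coeff_one_mul gy gx]
    ring

lemma tn_hom_lin_zero (f : QX →ₐ[ℚ] QX) (hf : ∀ b, f (FreeAlgebra.ι ℚ b) ∈ LieX) {ψ : QX}
    (h : ψ ∈ dm0) (b : Bool) : coeff (f ψ) [b] = 0 := by
  rw [tn_hom_lin f hf h.1, h.2.1, h.2.2.1]
  ring

lemma tn_sgn_mem (b : Bool) : sgn (FreeAlgebra.ι ℚ b) ∈ LieX := by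
  cases b
  · have : sgn (FreeAlgebra.ι ℚ false) = FreeAlgebra.ι ℚ false := by simp [sgn, X0]
    rw [this]; exact iota_mem _
  · have : sgn (FreeAlgebra.ι ℚ true) = -FreeAlgebra.ι ℚ true := by simp [sgn, X1]
    rw [this]; exact neg_mem (iota_mem _)

lemma tn_rot_mem (b : Bool) : rot (FreeAlgebra.ι ℚ b) ∈ LieX := by
  cases b
  · have : rot (FreeAlgebra.ι ℚ false) = -FreeAlgebra.ι ℚ false - FreeAlgebra.ι ℚ true := by
      simp [rot, X0, X1]
    rw [this]; exact sub_mem (neg_mem (iota_mem _)) (iota_mem _)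
  · have : rot (FreeAlgebra.ι ℚ true) = -FreeAlgebra.ι ℚ true := by simp [rot, X1]
    rw [this]; exact neg_mem (iota_mem _)

lemma tn_ph1_lie {ψ : QX} (h : ψ ∈ dm0) : ph1 ψ ∈ LieX := hom_lie rot tn_rot_mem h.1

lemma tn_ph0_lie {ψ : QX} (h : ψ ∈ dm0) : ph0 ψ ∈ LieX :=
  sub_mem (hom_lie rot tn_rot_mem h.1) (hom_lie sgn tn_sgn_mem h.1)

lemma tn_ph1_lin {ψ : QX} (h : ψ ∈ dm0) (b : Bool) : coeff (ph1 ψ) [b] = 0 :=
  tn_hom_lin_zero rot tn_rot_mem h b

lemma tn_ph0_lin {ψ : QX} (h : ψ ∈ dm0) (b : Bool) : coeff (ph0 ψ) [b] = 0 := by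
  rw [ph0, coeff_sub, tn_hom_lin_zero rot tn_rot_mem h b, tn_hom_lin_zero sgn tn_sgn_mem h b]
  ring

section Tr

variable {R ι : Type} [CommRing R] [Algebra ℚ R] [Fintype ι] [DecidableEq ι]

omit [DecidableEq ι] in
lemma tn_trace_smul (r : ℚ) (X : Matrix ι ι R) : (r • X).trace = r • X.trace := by
  simp only [Matrix.trace, Finset.smul_sum]
  rfl

/-- The trace of the evaluation of a Lie element has no part of degree `≠ 1`. -/
lemma tn_trace_ne_one (A B : Matrix ι ι R) {φ : QX} (h : φ ∈ LieX) (n : ℕ) (hn : n ≠ 1) :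
    ((tn_EV A B φ).coeff n).trace = 0 := by
  refine lie_induction (P := fun φ => ((tn_EV A B φ).coeff n).trace = 0) ?_ ?_ ?_ ?_ ?_ h
  · intro b
    rw [tn_EV_iota, coeff_monomial, if_neg (fun e => hn e.symm), Matrix.trace_zero]
  · simp
  · intro x y hx hy
    rw [map_add, Polynomial.coeff_add, Matrix.trace_add, hx, hy, add_zero]
  · intro r x hx
    rw [map_smul, Polynomial.coeff_smul]
    refine (tn_trace_smul r _).trans ?_
    rw [hx, smul_zero]
  · intro x y _ _ _ _
    rw [map_sub, map_mul, map_mul, Polynomial.coeff_sub, Matrix.trace_sub, Polynomial.coeff_mul,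
      Polynomial.coeff_mul, Matrix.trace_sum, Matrix.trace_sum, sub_eq_zero,
      ← Finset.Nat.sum_antidiagonal_swap]
    apply Finset.sum_congr rfl
    intro p _
    rw [Matrix.trace_mul_comm]
    rfl

lemma tn_trace_zero (A B : Matrix ι ι R) {φ : QX} (h : φ ∈ LieX)
    (h1 : ∀ b : Bool, coeff φ [b] = 0) (n : ℕ) :
    ((tn_EV A B φ).coeff n).trace = 0 := by
  by_cases hn : n = 1
  · subst hn
    rw [tn_EV_coeff]
    simp [SW, h1]
  · exact tn_trace_ne_one A B h n hn

lemma tn_SW_trace (C A B : Matrix ι ι R) (φ : QX) (n : ℕ) :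
    SW n (fun w => coeff φ w • (C * ev A B w).trace) = (C * (tn_EV A B φ).coeff n).trace := by
  let F : Matrix ι ι R →+ R :=
    { toFun := fun X => (C * X).trace
      map_zero' := by simp
      map_add' := by intro X Y; rw [mul_add, Matrix.trace_add] }
  have h := tn_SW_hom F n (fun w => coeff φ w • ev A B w)
  rw [tn_EV_coeff]
  refine Eq.trans ?_ h
  congr 1
  funext w
  change coeff φ w • (C * ev A B w).trace = (C * coeff φ w • ev A B w).trace
  have e : C * coeff φ w • ev A B w = coeff φ w • (C * ev A B w) := mul_smul_comm _ _ _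
  rw [e]
  exact (tn_trace_smul _ _).symm

lemma tn_T_succ (A B : Matrix ι ι R) (ψ : QX) (n : ℕ) :
    T (K ψ) (n + 1) A B = (A * (tn_EV A B (ph0 ψ)).coeff n).trace +
      (B * (tn_EV A B (ph1 ψ)).coeff n).trace := by
  rw [← tn_SW_trace, ← tn_SW_trace]
  rfl

end Tr

/-- `X ↦ X ⊗ 1`. -/
noncomputable def tn_L {R ι κ : Type} [CommRing R] [Fintype ι] [DecidableEq ι]
    [Fintype κ] [DecidableEq κ] : Matrix ι ι R →+* Matrix (ι × κ) (ι × κ) R where
  toFun X := kroneckerMap (· * ·) X (1 : Matrix κ κ R)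
  map_one' := Matrix.one_kronecker_one
  map_mul' X Y := by
    have := Matrix.mul_kronecker_mul X Y (1 : Matrix κ κ R) (1 : Matrix κ κ R)
    rw [one_mul] at this
    exact this
  map_zero' := Matrix.zero_kronecker _
  map_add' X Y := Matrix.add_kronecker _ _ _

/-- `X ↦ 1 ⊗ X`. -/
noncomputable def tn_L' {R ι κ : Type} [CommRing R] [Fintype ι] [DecidableEq ι]
    [Fintype κ] [DecidableEq κ] : Matrix κ κ R →+* Matrix (ι × κ) (ι × κ) R where
  toFun X := kroneckerMap (· * ·) (1 : Matrix ι ι R) X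
  map_one' := Matrix.one_kronecker_one
  map_mul' X Y := by
    have := Matrix.mul_kronecker_mul (1 : Matrix ι ι R) (1 : Matrix ι ι R) X Y
    rw [one_mul] at this
    exact this
  map_zero' := Matrix.kronecker_zero _
  map_add' X Y := Matrix.kronecker_add _ _ _

lemma tn_L_comm {R ι κ : Type} [CommRing R] [Fintype ι] [DecidableEq ι]
    [Fintype κ] [DecidableEq κ] (X : Matrix ι ι R) (Y : Matrix κ κ R) :
    (tn_L X : Matrix (ι × κ) (ι × κ) R) * tn_L' Y = kroneckerMap (· * ·) X Y := by
  have := Matrix.mul_kronecker_mul X (1 : Matrix ι ι R) (1 : Matrix κ κ R) Y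
  rw [one_mul, mul_one] at this
  exact this.symm

lemma tn_L_comm' {R ι κ : Type} [CommRing R] [Fintype ι] [DecidableEq ι]
    [Fintype κ] [DecidableEq κ] (X : Matrix ι ι R) (Y : Matrix κ κ R) :
    (tn_L' Y : Matrix (ι × κ) (ι × κ) R) * tn_L X = kroneckerMap (· * ·) X Y := by
  have := Matrix.mul_kronecker_mul (1 : Matrix ι ι R) X Y (1 : Matrix κ κ R)
  rw [one_mul, mul_one] at this
  exact this.symm

lemma tn_trace_mul {R ι κ : Type} [CommRing R] [Fintype ι] [DecidableEq ι]
    [Fintype κ] [DecidableEq κ] (A X : Matrix ι ι R) (A' X' : Matrix κ κ R)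
    (hX : X.trace = 0) (hX' : X'.trace = 0) :
    ((tn_L A + tn_L' A' : Matrix (ι × κ) (ι × κ) R) * (tn_L X + tn_L' X')).trace =
      (Fintype.card κ : R) * (A * X).trace + (Fintype.card ι : R) * (A' * X').trace := by
  rw [add_mul, mul_add, mul_add, ← map_mul, ← map_mul, tn_L_comm, tn_L_comm']
  have t1 : (tn_L (A * X) : Matrix (ι × κ) (ι × κ) R).trace =
      (A * X).trace * (1 : Matrix κ κ R).trace := Matrix.trace_kronecker _ _
  have t2 : (tn_L' (A' * X') : Matrix (ι × κ) (ι × κ) R).trace =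
      (1 : Matrix ι ι R).trace * (A' * X').trace := Matrix.trace_kronecker _ _
  have t3 : (kroneckerMap (· * ·) A X').trace = A.trace * X'.trace := Matrix.trace_kronecker _ _
  have t4 : (kroneckerMap (· * ·) X A').trace = X.trace * A'.trace := Matrix.trace_kronecker _ _
  rw [Matrix.trace_add, Matrix.trace_add, Matrix.trace_add, t1, t2, t3, t4, hX, hX',
    Matrix.trace_one, Matrix.trace_one]
  ring

/-- Piece [tn]. -/
theorem p_tn : TnS := by
  intro R ι κ _ _ _ _ _ _ ψ hψ n A B A' B'
  cases n with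
  | zero => simp [T, SW, K]
  | succ n =>
    have e1 : kroneckerMap (· * ·) A (1 : Matrix κ κ R) +
        kroneckerMap (· * ·) (1 : Matrix ι ι R) A' =
        (tn_L A + tn_L' A' : Matrix (ι × κ) (ι × κ) R) := rfl
    have e2 : kroneckerMap (· * ·) B (1 : Matrix κ κ R) +
        kroneckerMap (· * ·) (1 : Matrix ι ι R) B' =
        (tn_L B + tn_L' B' : Matrix (ι × κ) (ι × κ) R) := rfl
    rw [e1, e2, tn_T_succ, tn_T_succ, tn_T_succ]
    have hc : ∀ (a : Matrix ι ι R) (b : Matrix κ κ R),
        (tn_L a : Matrix (ι × κ) (ι × κ) R) * tn_L' b = tn_L' b * tn_L a := by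
      intro a b; rw [tn_L_comm, tn_L_comm']
    have l0 := tn_lie (S := Matrix (ι × κ) (ι × κ) R) tn_L tn_L' hc A B A' B' (tn_ph0_lie hψ)
    have l1 := tn_lie (S := Matrix (ι × κ) (ι × κ) R) tn_L tn_L' hc A B A' B' (tn_ph1_lie hψ)
    rw [l0, l1]
    simp only [Polynomial.coeff_add, coe_mapRingHom, coeff_map]
    rw [tn_trace_mul _ _ _ _ (tn_trace_zero A B (tn_ph0_lie hψ) (tn_ph0_lin hψ) n)
        (tn_trace_zero A' B' (tn_ph0_lie hψ) (tn_ph0_lin hψ) n),
      tn_trace_mul _ _ _ _ (tn_trace_zero A B (tn_ph1_lie hψ) (tn_ph1_lin hψ) n)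
        (tn_trace_zero A' B' (tn_ph1_lie hψ) (tn_ph1_lin hψ) n)]
    ring

end Pool.Agent.MP_a57f33_nt.BZ
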