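import Pool.Agent.Lib.MP_a57f33_nt.BZ.Stm

/-!
Piece tw: invariance of the trace functional under twists.
-/

namespace Pool.Agent.MP_a57f33_nt.BZ

open Pool.Agent.MP_a57f33_nt
open Matrix

theorem tw_SW_zero {M : Type} [AddCommMonoid M] (n : ℕ) : SW n (fun _ : List Bool => (0 : M)) = 0 := by
  induction n with
  | zero => rfl
  | succ n ih => simp only [SW, ih, add_zero]

theorem tw_SW_add {M : Type} [AddCommMonoid M] (n : ℕ) : ∀ f g : List Bool → M,
    SW n (fun w => f w + g w) = SW n f + SW n g := by
  induction n with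
  | zero => intro f g; rfl
  | succ n ih =>
    intro f g
    simp only [SW]
    rw [ih, ih]
    abel

theorem tw_SW_map {M N : Type} [AddCommMonoid M] [AddCommMonoid N] (h : M →+ N) (n : ℕ) :
    ∀ f : List Bool → M, SW n (fun w => h (f w)) = h (SW n f) := by
  induction n with
  | zero => intro f; rfl
  | succ n ih =>
    intro f
    simp only [SW]
    rw [ih, ih, map_add]

theorem tw_SW_smul {M : Type} [AddCommMonoid M] [Module ℚ M] (n : ℕ) (r : ℚ)
    (f : List Bool → M) : SW n (fun w => r • f w) = r • SW n f :=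
  tw_SW_map (DistribSMul.toAddMonoidHom M r) n f

theorem tw_SW_word {M : Type} [AddCommMonoid M] [Module ℚ M] (m : ℕ) :
    ∀ (v : List Bool) (F : List Bool → M),
    SW m (fun w => (if v = w then (1 : ℚ) else 0) • F w) = if v.length = m then F v else 0 := by
  induction m with
  | zero =>
    intro v F
    cases v with
    | nil => simp [SW]
    | cons b v => simp [SW]
  | succ m ih =>
    intro v F
    simp only [SW]
    cases v with
    | nil => simp [tw_SW_zero]
    | cons b v =>
      cases b with
      | false =>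
        have h1 := ih v (fun w => F (false :: w))
        simp only [List.cons.injEq, true_and, Bool.false_eq_true, false_and, if_false, zero_smul,
          tw_SW_zero, add_zero, List.length_cons, add_left_inj]
        exact h1
      | true =>
        have h1 := ih v (fun w => F (true :: w))
        simp only [List.cons.injEq, true_and, Bool.true_eq_false, false_and, if_false, zero_smul,
          tw_SW_zero, zero_add, List.length_cons, add_left_inj]
        exact h1

section

variable {R ι : Type} [CommRing R] [Algebra ℚ R] [Fintype ι] [DecidableEq ι]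

/-- The evaluation `x₀ ↦ z A`, `x₁ ↦ z B`. -/
noncomputable def tw_EV (A B : Matrix ι ι R) : QX →ₐ[ℚ] Polynomial (Matrix ι ι R) :=
  FreeAlgebra.lift ℚ fun b : Bool => Polynomial.C (cond b B A) * Polynomial.X

theorem tw_EV_iota (A B : Matrix ι ι R) (b : Bool) :
    tw_EV A B (FreeAlgebra.ι ℚ b) = Polynomial.C (cond b B A) * Polynomial.X := by
  unfold tw_EV
  rw [FreeAlgebra.lift_ι_apply]

theorem tw_EV_word (A B : Matrix ι ι R) (v : List Bool) :
    tw_EV A B (word v) = Polynomial.C (ev A B v) * Polynomial.X ^ v.length := by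
  induction v with
  | nil => simp [ev]
  | cons a v ih =>
    have h1 : ev A B (a :: v) = cond a B A * ev A B v := by simp [ev]
    rw [word_cons, map_mul, ih, tw_EV_iota, h1, List.length_cons, mul_assoc,
      ← mul_assoc Polynomial.X (Polynomial.C (ev A B v)), Polynomial.X_mul_C,
      mul_assoc (Polynomial.C (ev A B v)), ← pow_succ', ← mul_assoc, ← Polynomial.C_mul]

theorem tw_coeff (A B : Matrix ι ι R) (m : ℕ) (φ : QX) :
    (tw_EV A B φ).coeff m = SW m (fun w => coeff φ w • ev A B w) := by
  obtain ⟨L1, hL1⟩ : ∃ L1 : QX →ₗ[ℚ] Matrix ι ι R, ∀ x, L1 x = (tw_EV A B x).coeff m :=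
    ⟨{ toFun := fun x => (tw_EV A B x).coeff m
       map_add' := by intro x y; rw [map_add, Polynomial.coeff_add]
       map_smul' := by
        intro r x
        rw [map_smul, Polynomial.coeff_smul]
        rfl }, fun x => rfl⟩
  obtain ⟨L2, hL2⟩ : ∃ L2 : QX →ₗ[ℚ] Matrix ι ι R,
      ∀ x, L2 x = SW m (fun w => coeff x w • ev A B w) :=
    ⟨{ toFun := fun x => SW m (fun w => coeff x w • ev A B w)
       map_add' := by
        intro x y
        rw [← tw_SW_add]
        congr 1
        funext w
        rw [coeff_add, add_smul]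
       map_smul' := by
        intro r x
        rw [RingHom.id_apply, ← tw_SW_smul]
        congr 1
        funext w
        rw [coeff_smul, mul_smul] }, fun x => rfl⟩
  have h : L1 = L2 := by
    apply linear_ext
    intro v
    rw [hL1, hL2, tw_EV_word, Polynomial.coeff_C_mul, Polynomial.coeff_X_pow]
    have h1 : (fun w => coeff (word v) w • ev A B w) =
        fun w => (if v = w then (1 : ℚ) else 0) • ev A B w := by
      funext w
      rw [coeff_word]
    rw [h1, tw_SW_word]
    by_cases h2 : v.length = m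
    · rw [if_pos h2, if_pos h2.symm, mul_one]
    · rw [if_neg h2, if_neg (fun e => h2 e.symm), mul_zero]
  rw [← hL1, ← hL2, h]

/-- A commutator has no linear part. -/
theorem tw_comm (x y : QX) (c : Bool) : coeff (x * y - y * x) [c] = 0 := by
  rw [coeff_sub, coeff_mul, coeff_mul]
  simp only [conv]
  ring

/-- A central element. -/
noncomputable def tw_c (μ : R) : Polynomial (Matrix ι ι R) :=
  Polynomial.C (μ • (1 : Matrix ι ι R)) * Polynomial.X

theorem tw_central (μ : R) (p : Polynomial (Matrix ι ι R)) : tw_c μ * p = p * tw_c μ := by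
  have h1 : Polynomial.C (μ • (1 : Matrix ι ι R)) * p = p * Polynomial.C (μ • (1 : Matrix ι ι R)) := by
    apply Polynomial.ext
    intro n
    rw [Polynomial.coeff_C_mul, Polynomial.coeff_mul_C, smul_mul_assoc, one_mul,
      mul_smul_comm, mul_one]
  unfold tw_c
  rw [mul_assoc, Polynomial.X_mul, ← mul_assoc, h1, mul_assoc]

theorem tw_bracket (x y u v : Polynomial (Matrix ι ι R)) (hu : ∀ p, u * p = p * u)
    (hv : ∀ p, v * p = p * v) : (x + u) * (y + v) - (y + v) * (x + u) = x * y - y * x := by
  have h1 := hu y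
  have h2 := hv x
  have h3 := hu v
  rw [add_mul, mul_add, mul_add, add_mul, mul_add, mul_add, h1, h2, h3]
  abel

theorem tw_shift (A B : Matrix ι ι R) (μ ν : R) {φ : QX} (h : φ ∈ LieX) :
    tw_EV (A + μ • (1 : Matrix ι ι R)) (B + ν • (1 : Matrix ι ι R)) φ =
      tw_EV A B φ + (coeff φ [false] • tw_c μ + coeff φ [true] • tw_c ν) := by
  refine lie_induction (P := fun φ =>
    tw_EV (A + μ • (1 : Matrix ι ι R)) (B + ν • (1 : Matrix ι ι R)) φ =
      tw_EV A B φ + (coeff φ [false] • tw_c μ + coeff φ [true] • tw_c ν)) ?_ ?_ ?_ ?_ ?_ h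
  · intro b
    rw [tw_EV_iota, tw_EV_iota, coeff_iota, coeff_iota]
    cases b
    · simp [tw_c, add_mul]
    · simp [tw_c, add_mul]
  · rw [map_zero, map_zero, coeff_zero, coeff_zero, zero_smul, zero_smul]
    simp
  · intro x y hx hy
    rw [map_add, map_add, hx, hy, coeff_add, coeff_add, add_smul, add_smul]
    abel
  · intro r x hx
    rw [map_smul, map_smul, hx, coeff_smul, coeff_smul, mul_smul, mul_smul, smul_add, smul_add]
  · intro x y _ _ hx hy
    have hc : ∀ (z : QX) (p : Polynomial (Matrix ι ι R)),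
        (coeff z [false] • tw_c μ + coeff z [true] • tw_c ν) * p =
          p * (coeff z [false] • tw_c μ + coeff z [true] • tw_c ν) := by
      intro z p
      rw [add_mul, mul_add, smul_mul_assoc, smul_mul_assoc, mul_smul_comm, mul_smul_comm,
        tw_central, tw_central]
    rw [map_sub, map_mul, map_mul, hx, hy, tw_bracket _ _ _ _ (hc x) (hc y), tw_comm, tw_comm,
      zero_smul, zero_smul, map_sub, map_mul, map_mul]
    simp

/-- The trace of the coefficients is a trace. -/
theorem tw_tr (p q : Polynomial (Matrix ι ι R)) (m : ℕ) :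
    ((p * q).coeff m).trace = ((q * p).coeff m).trace := by
  rw [Polynomial.coeff_mul, Polynomial.coeff_mul, trace_sum, trace_sum,
    ← Finset.Nat.sum_antidiagonal_swap]
  apply Finset.sum_congr rfl
  intro x _
  rw [trace_mul_comm]
  rfl

theorem tw_trace (A B : Matrix ι ι R) (m : ℕ) {φ : QX} (h : φ ∈ LieX) :
    ((tw_EV A B φ).coeff m).trace =
      coeff φ [false] • ((tw_EV A B (FreeAlgebra.ι ℚ false)).coeff m).trace +
        coeff φ [true] • ((tw_EV A B (FreeAlgebra.ι ℚ true)).coeff m).trace := by
  refine lie_induction (P := fun φ => ((tw_EV A B φ).coeff m).trace =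
      coeff φ [false] • ((tw_EV A B (FreeAlgebra.ι ℚ false)).coeff m).trace +
        coeff φ [true] • ((tw_EV A B (FreeAlgebra.ι ℚ true)).coeff m).trace) ?_ ?_ ?_ ?_ ?_ h
  · intro b
    cases b
    · simp [coeff_iota]
    · simp [coeff_iota]
  · simp [coeff_zero]
  · intro x y hx hy
    rw [map_add, Polynomial.coeff_add, trace_add, hx, hy, coeff_add, coeff_add, add_smul, add_smul]
    abel
  · intro r x hx
    rw [map_smul, Polynomial.coeff_smul]
    refine (Matrix.trace_smul r ((tw_EV A B x).coeff m : Matrix ι ι R)).trans ?_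
    rw [hx, coeff_smul, coeff_smul, mul_smul, mul_smul, smul_add]
  · intro x y _ _ _ _
    rw [map_sub, map_mul, map_mul, Polynomial.coeff_sub, trace_sub, tw_tr, sub_self, tw_comm,
      tw_comm, zero_smul, zero_smul, add_zero]

end

/-- The linear part of the image of a Lie element under a substitution. -/
theorem tw_lin (f : QX →ₐ[ℚ] QX) (c : Bool) {ψ : QX} (h : ψ ∈ LieX) :
    coeff (f ψ) [c] = coeff ψ [false] * coeff (f (FreeAlgebra.ι ℚ false)) [c] +
      coeff ψ [true] * coeff (f (FreeAlgebra.ι ℚ true)) [c] := by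
  refine lie_induction (P := fun ψ => coeff (f ψ) [c] =
    coeff ψ [false] * coeff (f (FreeAlgebra.ι ℚ false)) [c] +
      coeff ψ [true] * coeff (f (FreeAlgebra.ι ℚ true)) [c]) ?_ ?_ ?_ ?_ ?_ h
  · intro b
    cases b
    · simp [coeff_iota]
    · simp [coeff_iota]
  · simp [coeff_zero]
  · intro x y hx hy
    rw [map_add, coeff_add, hx, hy, coeff_add, coeff_add]
    ring
  · intro r x hx
    rw [map_smul, coeff_smul, hx, coeff_smul, coeff_smul]
    ring
  · intro x y _ _ _ _
    rw [map_sub, map_mul, map_mul, tw_comm, tw_comm, tw_comm]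
    ring

theorem tw_sgn_mem {ψ : QX} (h : ψ ∈ LieX) : sgn ψ ∈ LieX := by
  apply hom_lie _ _ h
  intro b
  cases b
  · have : sgn (FreeAlgebra.ι ℚ false) = X0 := by simp [sgn]
    rw [this]; exact iota_mem false
  · have : sgn (FreeAlgebra.ι ℚ true) = -X1 := by simp [sgn]
    rw [this]; exact neg_mem (iota_mem true)

theorem tw_rot_mem {ψ : QX} (h : ψ ∈ LieX) : rot ψ ∈ LieX := by
  apply hom_lie _ _ h
  intro b
  cases b
  · have : rot (FreeAlgebra.ι ℚ false) = -X0 - X1 := by simp [rot]
    rw [this]; exact sub_mem (neg_mem (iota_mem false)) (iota_mem true)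
  · have : rot (FreeAlgebra.ι ℚ true) = -X1 := by simp [rot]
    rw [this]; exact neg_mem (iota_mem true)

/-- One letter. -/
theorem tw_half {R ι : Type} [CommRing R] [Algebra ℚ R] [Fintype ι] [DecidableEq ι]
    (A B C : Matrix ι ι R) (φ : QX) (m : ℕ) :
    SW m (fun w => coeff φ w • (C * ev A B w).trace) = (C * (tw_EV A B φ).coeff m).trace := by
  have h1 := tw_SW_map ((traceAddMonoidHom ι R).comp (AddMonoidHom.mulLeft C)) m
    (fun w => coeff φ w • ev A B w)
  rw [tw_coeff]
  refine Eq.trans ?_ h1
  congr 1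
  funext w
  show coeff φ w • (C * ev A B w).trace = (C * (coeff φ w • ev A B w)).trace
  rw [mul_smul_comm]
  exact (Matrix.trace_smul (coeff φ w) (C * ev A B w : Matrix ι ι R)).symm

theorem tw_main (R ι : Type) [CommRing R] [Algebra ℚ R] [Fintype ι] [DecidableEq ι]
    (ψ : QX) (hψ : ψ ∈ dm0) (n : ℕ) (A B : Matrix ι ι R) (μ ν : R) :
    T (K ψ) n (A + μ • (1 : Matrix ι ι R)) (B + ν • (1 : Matrix ι ι R)) = T (K ψ) n A B := by
  have hL : ψ ∈ LieX := hψ.1
  have h0 : coeff ψ [false] = 0 := hψ.2.1
  have h1 : coeff ψ [true] = 0 := hψ.2.2.1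
  have hph1 : ph1 ψ ∈ LieX := tw_rot_mem hL
  have hph0 : ph0 ψ ∈ LieX := sub_mem (tw_rot_mem hL) (tw_sgn_mem hL)
  have hl1 : ∀ c, coeff (ph1 ψ) [c] = 0 := by
    intro c
    unfold ph1
    rw [tw_lin rot c hL, h0, h1]
    ring
  have hl0 : ∀ c, coeff (ph0 ψ) [c] = 0 := by
    intro c
    unfold ph0
    rw [coeff_sub, tw_lin rot c hL, tw_lin sgn c hL, h0, h1]
    ring
  cases n with
  | zero => rfl
  | succ m =>
    have hT : ∀ A B : Matrix ι ι R, T (K ψ) (m + 1) A B =
        (A * (tw_EV A B (ph0 ψ)).coeff m).trace + (B * (tw_EV A B (ph1 ψ)).coeff m).trace := by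
      intro A B
      rw [← tw_half, ← tw_half]
      unfold T
      simp only [SW]
      congr 1
    rw [hT, hT, tw_shift A B μ ν hph0, tw_shift A B μ ν hph1, hl0, hl0, hl1, hl1, zero_smul,
      zero_smul, add_zero, add_zero, add_zero, add_mul, add_mul, trace_add, trace_add,
      smul_mul_assoc, smul_mul_assoc, one_mul, one_mul, trace_smul, trace_smul,
      tw_trace A B m hph0, tw_trace A B m hph1]
    simp only [hl0, hl1, zero_smul, add_zero, smul_zero]

theorem p_tw : TwS := by
  intro R ι _ _ _ _ ψ hψ n A B μ ν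
  exact tw_main R ι ψ hψ n A B μ ν

end Pool.Agent.MP_a57f33_nt.BZ
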