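import Pool.Agent.Lib.MP_a57f33_nt.BZ.Pert

/-!
Piece x1 of the project BZ: the coefficient of `a b` for the family `MH a b s t`.
-/

namespace Pool.Agent.MP_a57f33_nt.BZ

open Matrix

variable {R : Type} [CommRing R] [Algebra ℚ R]

/-- The coefficient of `a` in `MH a b s t`. -/
def x1_Ma (R : Type) [CommRing R] : Matrix (Fin 4) (Fin 4) R :=
  !![0, 1, 0, 1; 1, 0, 0, 0; 0, 0, 0, 0; -1, 0, 0, 0]

/-- The coefficient of `b` in `MH a b s t`. -/
def x1_Mb (R : Type) [CommRing R] : Matrix (Fin 4) (Fin 4) R :=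
  !![0, 0, 0, 0; 0, 0, -1, 0; 0, 1, 0, 1; 0, 0, 1, 0]

/-- The blocks of the first matrix. -/
def x1_A (R : Type) [CommRing R] : Bool → Bool → Matrix (Fin 4) (Fin 4) R
  | false, false => !![0, 1, 0, 0; 1, 0, 0, 0; 0, 0, 0, 0; 0, 0, 0, 0]
  | false, true => !![0, 0, 0, 1; 0, 0, 0, 0; 0, 0, 0, 0; 0, 0, 0, 0]
  | true, false => !![0, 0, 0, 0; 0, 0, 0, 0; 0, 0, 0, 0; -1, 0, 0, 0]
  | true, true => 0

/-- The blocks of the second matrix. -/
def x1_B (R : Type) [CommRing R] : Bool → Bool → Matrix (Fin 4) (Fin 4) R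
  | false, false => 0
  | false, true => !![0, 0, 0, 0; 0, 0, -1, 0; 0, 0, 0, 0; 0, 0, 0, 0]
  | true, false => !![0, 0, 0, 0; 0, 0, 0, 0; 0, 1, 0, 0; 0, 0, 0, 0]
  | true, true => !![0, 0, 0, 0; 0, 0, 0, 0; 0, 0, 0, 1; 0, 0, 1, 0]

theorem x1_blkA (j z : Bool) : EE R j * x1_Ma R * EE R z = x1_A R j z := by
  cases j <;> cases z <;> ext p q <;> fin_cases p <;> fin_cases q <;>
    simp [EE, E0, E1, x1_Ma, x1_A, Matrix.mul_apply, Fin.sum_univ_four, Matrix.diagonal]

theorem x1_blkB (j z : Bool) : EE R j * x1_Mb R * EE R z = x1_B R j z := by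
  cases j <;> cases z <;> ext p q <;> fin_cases p <;> fin_cases q <;>
    simp [EE, E0, E1, x1_Mb, x1_B, Matrix.mul_apply, Fin.sum_univ_four, Matrix.diagonal]

theorem x1_even (k : List Bool → ℚ) (i j : ℕ) (s t : R) :
    ptB k (2 * i) (2 * j) s t (x1_Ma R) (x1_Mb R) = 0 := by
  have h : ∀ x y u z : Bool, (EE R x * x1_Mb R * (EE R y * (MH 0 0 s t ^ (2 * i) *
      (EE R u * x1_Ma R * EE R z * MH 0 0 s t ^ (2 * j))))).trace = 0 := by
    intro x y u z
    rw [← Matrix.mul_assoc (EE R x * x1_Mb R), x1_blkB, x1_blkA, pt_even, pt_even]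
    cases x <;> cases y <;> cases u <;> cases z <;>
      simp [x1_A, x1_B, Matrix.trace, Fin.sum_univ_four, Matrix.mul_apply]
  unfold ptB
  simp only [h, smul_zero, Finset.sum_const_zero]

theorem x1_odd (k : List Bool → ℚ) (i j : ℕ) (s t : R) :
    ptB k (2 * i + 1) (2 * j + 1) s t (x1_Ma R) (x1_Mb R) =
      k (false :: (alt true (2 * i + 1) ++ false :: alt true (2 * j + 1))) •
        (t ^ (2 * i + 1) * s ^ (2 * j + 1)) +
      k (true :: (alt false (2 * i + 1) ++ true :: alt false (2 * j + 1))) •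
        (s ^ (2 * i + 1) * t ^ (2 * j + 1)) -
      k (true :: (alt true (2 * i + 1) ++ false :: alt false (2 * j + 1))) •
        (t ^ (2 * i + 1) * s ^ (2 * j + 1) + s ^ (2 * i + 1) * t ^ (2 * j + 1)) := by
  have h : ∀ x u z y : Bool, (EE R x * x1_Mb R * (EE R y * (MH 0 0 s t ^ (2 * i + 1) *
      (EE R u * x1_Ma R * EE R z * MH 0 0 s t ^ (2 * j + 1))))).trace =
      match x, u, z, y with
      | false, false, true, true => t ^ (2 * i + 1) * s ^ (2 * j + 1)
      | true, true, false, false => s ^ (2 * i + 1) * t ^ (2 * j + 1)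
      | true, false, false, true =>
        -(t ^ (2 * i + 1) * s ^ (2 * j + 1) + s ^ (2 * i + 1) * t ^ (2 * j + 1))
      | _, _, _, _ => 0 := by
    intro x u z y
    rw [← Matrix.mul_assoc (EE R x * x1_Mb R), x1_blkB, x1_blkA, pt_odd, pt_odd]
    cases x <;> cases y <;> cases u <;> cases z <;>
      simp [x1_A, x1_B, Matrix.trace, Fin.sum_univ_four, Matrix.mul_apply]
  unfold ptB
  simp only [h, Fintype.sum_bool, smul_zero, add_zero, zero_add, smul_neg]
  abel

theorem x1_split (a b s t : R) : MH a b s t = MH 0 0 s t + a • x1_Ma R + b • x1_Mb R := by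
  ext i j
  fin_cases i <;> fin_cases j <;> simp [MH, x1_Ma, x1_Mb]

theorem x1_linA (k : List Bool → ℚ) (r : ℕ) (s t : R) : ptL k (2 * r) s t (x1_Ma R) = 0 := by
  have h : ∀ x z : Bool,
      (EE R x * x1_Ma R * (EE R z * MH 0 0 s t ^ (2 * r + 1))).trace = 0 := by
    intro x z
    rw [← Matrix.mul_assoc, x1_blkA, pt_odd]
    cases x <;> cases z <;>
      simp [x1_A, Matrix.trace, Fin.sum_univ_four]
  unfold ptL
  simp only [h, smul_zero, Finset.sum_const_zero]

theorem x1_linB (k : List Bool → ℚ) (r : ℕ) (s t : R) : ptL k (2 * r) s t (x1_Mb R) = 0 := by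
  have h : ∀ x z : Bool,
      (EE R x * x1_Mb R * (EE R z * MH 0 0 s t ^ (2 * r + 1))).trace = 0 := by
    intro x z
    rw [← Matrix.mul_assoc, x1_blkB, pt_odd]
    cases x <;> cases z <;>
      simp [x1_B, Matrix.trace, Fin.sum_univ_four]
  unfold ptL
  simp only [h, smul_zero, Finset.sum_const_zero]

theorem x1_words {k : List Bool → ℚ} (hk : Cyc k) (i j : ℕ) :
    k (false :: (alt true (2 * i + 1) ++ false :: alt true (2 * j + 1))) =
      k (alt true (2 * (i + 1 + (j + 1)))) ∧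
    k (true :: (alt false (2 * i + 1) ++ true :: alt false (2 * j + 1))) =
      k (alt true (2 * (i + 1 + (j + 1)))) ∧
    k (true :: (alt true (2 * i + 1) ++ false :: alt false (2 * j + 1))) =
      k (alt true (2 * (i + 1)) ++ alt false (2 * (j + 1))) := by
  have h1 : ∀ a : Bool, a :: (alt (!a) (2 * i + 1) ++ a :: alt (!a) (2 * j + 1)) =
      alt a (2 * (i + 1 + (j + 1))) := by
    intro a
    have h2 : 2 * (i + 1 + (j + 1)) = 2 * (i + 1) + 2 * (j + 1) := by ring
    rw [h2, pt_alt_add a (i + 1) (2 * (j + 1))]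
    rfl
  refine ⟨?_, ?_, ?_⟩
  · rw [← pt_alt_rot hk, ← h1 false]
    rfl
  · rw [← h1 true]
    rfl
  · rw [← hk true (alt true (2 * i + 1) ++ false :: alt false (2 * j + 1)),
      ← pt_alt_snoc true i, ← pt_alt_snoc false j]
    simp

theorem p_x1 : X1S := by
  intro R _ _ k hk r a b s t hr ha hb
  rw [x1_split a b s t, pert k hk (2 * r) a b s t ha hb, x1_linA, x1_linB, pt_parity]
  have h1 : ∀ m ∈ Finset.range (r + 1),
      ptB k (2 * m) (2 * r - 2 * m) s t (x1_Ma R) (x1_Mb R) = 0 := by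
    intro m _
    have h2 : 2 * r - 2 * m = 2 * (r - m) := by omega
    rw [h2, x1_even]
  have h3 : ∀ m ∈ Finset.range r,
      ptB k (2 * m + 1) (2 * r - (2 * m + 1)) s t (x1_Ma R) (x1_Mb R) =
        (k (alt true (2 * r + 2)) - k (wmix r m)) •
          (s ^ (2 * m + 1) * t ^ (2 * (r - 1 - m) + 1) +
            t ^ (2 * m + 1) * s ^ (2 * (r - 1 - m) + 1)) := by
    intro m hm
    have hm' := Finset.mem_range.mp hm
    obtain ⟨j, hj⟩ : ∃ j, r = m + 1 + j := ⟨r - (m + 1), by omega⟩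
    have h4 : 2 * r - (2 * m + 1) = 2 * j + 1 := by omega
    have h5 : r - 1 - m = j := by omega
    have h6 : r - m = j + 1 := by omega
    have h7 : 2 * r + 2 = 2 * (m + 1 + (j + 1)) := by omega
    obtain ⟨g1, g2, g3⟩ := x1_words hk m j
    rw [h4, h5, x1_odd, g1, g2, g3, h7]
    unfold wmix
    rw [h6]
    module
  rw [Finset.sum_eq_zero h1, Finset.sum_congr rfl h3]
  ring

end Pool.Agent.MP_a57f33_nt.BZ
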