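import Pool.Agent.Lib.MP_a57f33_nt.BZ.Stm
import Pool.Agent.Lib.MP_a57f33_nt.BZ.XLem

/-! Piece [x2]. -/

namespace Pool.Agent.MP_a57f33_nt.BZ

open Pool.Agent.MP_a57f33_nt
open Matrix

section

variable {R : Type} [CommRing R]

/-- The derivative of `E0 * MH x 0 s t` in `x`. -/
def x2_A (R : Type) [CommRing R] : Matrix (Fin 4) (Fin 4) R :=
  !![0, 1, 0, 1; 1, 0, 0, 0; 0, 0, 0, 0; 0, 0, 0, 0]

/-- The derivative of `E1 * MH x 0 s t` in `x`. -/
def x2_B (R : Type) [CommRing R] : Matrix (Fin 4) (Fin 4) R :=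
  !![0, 0, 0, 0; 0, 0, 0, 0; 0, 0, 0, 0; -1, 0, 0, 0]

theorem x2_splitA (a b s t : R) : E0 R * MH (a + b) 0 s t =
    E0 R * MH 0 0 s t + a • x2_A R + b • x2_A R := by
  rw [xl_A0]
  unfold E0 MH x2_A
  ext i j
  fin_cases i <;> fin_cases j <;> simp [Matrix.diagonal_mul]

theorem x2_splitB (a b s t : R) : E1 R * MH (a + b) 0 s t =
    E1 R * MH 0 0 s t + a • x2_B R + b • x2_B R := by
  rw [xl_B0]
  unfold E1 MH x2_B
  ext i j
  fin_cases i <;> fin_cases j <;> simp [Matrix.diagonal_mul]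
  ring

theorem x2_first (s t : R) (m : ℕ) (i α : Bool) :
    (cond i (x2_B R) (x2_A R) * xP s t α (2 * m + 1)).trace = 0 := by
  cases i <;> cases α <;>
    simp [xP_false_odd, xP_true_odd, x2_A, x2_B, Matrix.trace, Matrix.mul_apply, Fin.sum_univ_four]

theorem x2_odd (s t : R) (m m' : ℕ) (i j α β : Bool) :
    (cond i (x2_B R) (x2_A R) * (xP s t α (2 * m + 1) * cond j (x2_B R) (x2_A R) *
      xP s t β (2 * m' + 1))).trace = 0 := by
  cases i <;> cases j <;> cases α <;> cases β <;>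
    simp [xP_false_odd, xP_true_odd, x2_A, x2_B, Matrix.trace, Matrix.mul_apply, Fin.sum_univ_four]

theorem x2_even [Algebra ℚ R] (s t : R) (m m' : ℕ) (c : Bool → Bool → Bool → Bool → ℚ) :
    ∑ i : Bool, ∑ j : Bool, ∑ α : Bool, ∑ β : Bool, c i j α β •
      (cond i (x2_B R) (x2_A R) * (xP s t α (2 * m) * cond j (x2_B R) (x2_A R) *
        xP s t β (2 * m'))).trace =
      c false false false false • (s ^ (2 * m) * t ^ (2 * m') + t ^ (2 * m) * s ^ (2 * m')) -
      c false true true false • (s ^ (2 * m) * t ^ (2 * m')) -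
      c true false false true • (t ^ (2 * m) * s ^ (2 * m')) := by
  simp only [Fintype.sum_bool, cond_false, cond_true, xP_false_even, xP_true_even]
  simp [x2_A, x2_B, Matrix.trace, Matrix.mul_apply, Fin.sum_univ_four]
  module

end

theorem p_x2 : X2S := by
  intro R _ _ k hk r a b s t hr ha hb
  rw [x2_splitA, x2_splitB]
  rw [xl_T_second k hk (2 * r + 2) (E0 R * MH 0 0 s t) (E1 R * MH 0 0 s t) (x2_A R) (x2_B R) (x2_A R)
    (x2_B R) a b ha hb (xl_A0_sq s t) (xl_B0_sq s t) (xP s t) (xP_zero s t) (xP_f0 s t) (xP_t0 s t)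
    (xP_f s t) (xP_t s t)]
  have e1 : 2 * r + 2 - 1 = 2 * r + 1 := by omega
  have e2 : 2 * r + 1 - 1 = 2 * r := by omega
  rw [e1, e2]
  simp only [x2_first, smul_zero, Finset.sum_const_zero, mul_zero, add_zero]
  rw [xl_sum_even_odd]
  have h1 : ∑ m ∈ Finset.range r, ∑ i : Bool, ∑ j : Bool, ∑ α : Bool, ∑ β : Bool,
        k (i :: (alt α (2 * m + 1) ++ j :: alt β (2 * r - (2 * m + 1)))) •
          (cond i (x2_B R) (x2_A R) * (xP s t α (2 * m + 1) * cond j (x2_B R) (x2_A R) *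
            xP s t β (2 * r - (2 * m + 1)))).trace = 0 := by
    refine Finset.sum_eq_zero fun m hm => ?_
    have hm' : m < r := Finset.mem_range.mp hm
    have e3 : 2 * r - (2 * m + 1) = 2 * (r - 1 - m) + 1 := by omega
    rw [e3]
    simp only [x2_odd, smul_zero, Finset.sum_const_zero]
  rw [h1, add_zero, mul_assoc (a * b)]
  congr 3
  refine Finset.sum_congr rfl fun m hm => ?_
  have hm' : m < r + 1 := Finset.mem_range.mp hm
  have e4 : 2 * r - 2 * m = 2 * (r - m) := by omega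
  rw [e4]
  rw [x2_even s t m (r - m) (fun i j α β => k (i :: (alt α (2 * m) ++ j :: alt β (2 * (r - m)))))]
  have w1 : false :: (alt false (2 * m) ++ false :: alt false (2 * (r - m))) = wzz r m := rfl
  have w2 : false :: (alt true (2 * m) ++ true :: alt false (2 * (r - m))) =
      alt false (2 * r + 2) := by
    have e5 : 2 * r + 2 = (2 * m + (2 * (r - m) + 1)) + 1 := by omega
    rw [e5, xl_alt_succ, Bool.not_false, xl_alt_add_even]
    rfl
  have w3 : true :: (alt false (2 * m) ++ false :: alt true (2 * (r - m))) =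
      alt true (2 * r + 2) := by
    have e5 : 2 * r + 2 = (2 * m + (2 * (r - m) + 1)) + 1 := by omega
    rw [e5, xl_alt_succ, Bool.not_true, xl_alt_add_even]
    rfl
  have w4 : k (alt false (2 * r + 2)) = k (alt true (2 * r + 2)) := by
    have e6 : 2 * r + 2 = 2 * (r + 1) := by ring
    rw [e6]
    exact xl_alt_cyc k hk (r + 1)
  simp only [w1, w2, w3, w4]
  module

end Pool.Agent.MP_a57f33_nt.BZ
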