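import Pool.Agent.Lib.MP_a57f33_nt.BZ.Fin4
import Pool.Agent.Lib.MP_a57f33_nt.BZ.P_cyc
import Pool.Agent.Lib.MP_a57f33_nt.BZ.P_rev
import Pool.Agent.Lib.MP_a57f33_nt.BZ.P_dbl
import Pool.Agent.Lib.MP_a57f33_nt.BZ.P_tw
import Pool.Agent.Lib.MP_a57f33_nt.BZ.P_tn
import Pool.Agent.Lib.MP_a57f33_nt.BZ.P_cnv
import Pool.Agent.Lib.MP_a57f33_nt.BZ.P_fac
import Pool.Agent.Lib.MP_a57f33_nt.BZ.P_sim
import Pool.Agent.Lib.MP_a57f33_nt.BZ.P_map
import Pool.Agent.Lib.MP_a57f33_nt.BZ.P_pw3
import Pool.Agent.Lib.MP_a57f33_nt.BZ.P_pw4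
import Pool.Agent.Lib.MP_a57f33_nt.BZ.P_x1
import Pool.Agent.Lib.MP_a57f33_nt.BZ.P_x2

/-!
The Brown-Zagier relation on `dm₀`.
-/

namespace Pool.Agent.MP_a57f33_nt.BZ

open Pool.Agent.MP_a57f33_nt

/-- The word `(x₀x₁)^j`. -/
def bl (j : ℕ) : List Bool := (List.replicate j [false, true]).flatten

lemma bl_eq (j : ℕ) : bl j = alt false (2 * j) := by
  induction j with
  | zero => rfl
  | succ j ih =>
    rw [show 2 * (j + 1) = (2 * j + 1) + 1 by ring]
    simp only [alt, Bool.not_false, Bool.not_true]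
    rw [bl, List.replicate_succ, List.flatten_cons]
    change [false, true] ++ bl j = _
    rw [ih]
    rfl

lemma count_bl (j : ℕ) : (bl j).count true = j := by
  induction j with
  | zero => rfl
  | succ j ih =>
    rw [bl, List.replicate_succ, List.flatten_cons, List.count_append]
    change _ + (bl j).count true = _
    rw [ih]
    simp [add_comm]

lemma sgn_word (w : List Bool) : sgn (word w) = ((-1 : ℚ) ^ w.count true) • word w := by
  induction w with
  | nil => rw [word_nil, map_one]; simp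
  | cons b w ih =>
    rw [word_cons, map_mul, ih]
    cases b
    · have : sgn (FreeAlgebra.ι ℚ false) = FreeAlgebra.ι ℚ false := by simp [sgn]
      rw [this, List.count_cons_of_ne (by decide), mul_smul_comm]
    · have : sgn (FreeAlgebra.ι ℚ true) = -FreeAlgebra.ι ℚ true := by simp [sgn]
      rw [this, List.count_cons_self, mul_smul_comm, pow_succ, mul_neg_one, neg_smul, neg_mul,
        smul_neg]

lemma coeff_sgn (ψ : QX) (w : List Bool) :
    coeff (sgn ψ) w = (-1 : ℚ) ^ w.count true * coeff ψ w := by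
  have : (coeffL w).comp sgn.toLinearMap = ((-1 : ℚ) ^ w.count true) • coeffL w := by
    apply linear_ext
    intro v
    simp only [LinearMap.comp_apply, AlgHom.toLinearMap_apply, LinearMap.smul_apply, sgn_word,
      map_smul, coeffL_apply, coeff_word, smul_eq_mul]
    by_cases h : v = w
    · rw [h]
    · simp [h]
  have h2 := LinearMap.congr_fun this ψ
  simpa only [LinearMap.comp_apply, AlgHom.toLinearMap_apply, LinearMap.smul_apply,
    coeffL_apply, smul_eq_mul] using h2

/-- The chain for `K ψ`. -/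
theorem chainH_K {ψ : QX} (h : ψ ∈ dm0) (r : ℕ) :
    ChainH (K ψ) r (coeff (sgn ψ) (List.replicate (2 * r) false ++ [true])) := by
  intro R _ _ P Q R' U
  have hk := p_cyc ψ h
  have hd := p_dbl ψ h hk (2 * r + 1)
  exact chain_all p_tw p_tn p_cnv p_fac p_sim p_map p_pw3 p_pw4 h (2 * r + 1) (by omega)
    ⟨r + 1, by ring⟩ _ hk hd P Q R' U

lemma K_diff (ψ : QX) (w : List Bool) :
    coeff (sgn ψ) w = K ψ (true :: w) - K ψ (false :: w) := by
  change _ = coeff (ph1 ψ) w - coeff (ph0 ψ) w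
  rw [ph0, ph1, coeff_sub]
  ring

/-- The word `(x₀x₁)^b x₀x₀x₁ (x₀x₁)^a`. -/
def hw (a b : ℕ) : List Bool := bl b ++ false :: bl (a + 1)

lemma true_hw (a b : ℕ) : true :: hw a b = wmix (a + b + 1) b := by
  unfold hw wmix
  rw [bl_eq, bl_eq, show a + b + 1 - b = a + 1 by omega]
  have e : alt true (2 * (b + 1)) = true :: (alt false (2 * b) ++ [false]) := by
    rw [show 2 * (b + 1) = (2 * b + 1) + 1 by ring]
    rw [xl_alt_succ]
    congr 1
    exact xl_alt_add_even false b 1
  rw [e]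
  simp

lemma false_hw (a b : ℕ) : false :: hw a b = wzz (a + b + 1) b := by
  unfold hw wzz
  rw [bl_eq, bl_eq, show a + b + 1 - b = a + 1 by omega]
  rfl

/-- The Brown-Zagier relation for every element of `dm₀`. -/
theorem brown_zagier {ψ : QX} (h : ψ ∈ dm0) (a b : ℕ) :
    coeff ψ (hw a b) = 2 * (-1) ^ (a + b + 1) *
      (((2 * (a + b + 1)).choose (2 * a + 2) : ℚ) -
        (1 - 1 / 2 ^ (2 * (a + b + 1))) * ((2 * (a + b + 1)).choose (2 * b + 1) : ℚ)) *
      coeff ψ (List.replicate (2 * (a + b + 1)) false ++ [true]) := by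
  set r := a + b + 1 with hr
  have hk := p_cyc ψ h
  have hrev := p_rev ψ h hk
  have H := chainH_K h r
  have h1 := K_wmix p_x1 hk hrev (by omega) H b (by omega)
  have h2 := K_wzz p_x2 hk (by omega) H b (by omega)
  have h3 := K_diff ψ (hw a b)
  rw [true_hw, false_hw, ← hr, h1, h2, coeff_sgn, coeff_sgn] at h3
  have c1 : (hw a b).count true = r := by
    unfold hw
    rw [List.count_append, List.count_cons_of_ne (by decide), count_bl, count_bl]
    omega
  have c2 : (List.replicate (2 * r) false ++ [true]).count true = 1 := by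
    rw [List.count_append, List.count_replicate]
    simp
  rw [c1, c2] at h3
  have c3 : (2 * r).choose (2 * b) = (2 * r).choose (2 * a + 2) := by
    rw [← Nat.choose_symm (show 2 * b ≤ 2 * r by omega)]
    congr 1
    omega
  rw [c3] at h3
  have s1 : ((-1 : ℚ)) ^ r * (-1) ^ r = 1 := by rw [← mul_pow]; norm_num
  have : coeff ψ (hw a b) = (-1 : ℚ) ^ r * ((-1 : ℚ) ^ r * coeff ψ (hw a b)) := by
    rw [← mul_assoc, s1, one_mul]
  rw [this, h3]
  ring

end Pool.Agent.MP_a57f33_nt.BZ
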