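import Pool.Agent.Lib.MP_a57f33_nt.BZ.Stm

namespace Pool.Agent.MP_a57f33_nt.BZ

open Matrix

theorem pw4_rec {R : Type} [CommRing R] (X : Matrix (Fin 4) (Fin 4) R) (a b : R)
    (h : (X * X - (a ^ 2) • (1 : Matrix (Fin 4) (Fin 4) R)) *
      (X * X - (b ^ 2) • (1 : Matrix (Fin 4) (Fin 4) R)) = 0) :
    X ^ 4 = (a ^ 2 + b ^ 2) • X ^ 2 - (a ^ 2 * b ^ 2) • (1 : Matrix (Fin 4) (Fin 4) R) := by
  have h2 : (X * X - (a ^ 2) • (1 : Matrix (Fin 4) (Fin 4) R)) *
      (X * X - (b ^ 2) • (1 : Matrix (Fin 4) (Fin 4) R)) =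
      X ^ 4 - ((a ^ 2 + b ^ 2) • X ^ 2 - (a ^ 2 * b ^ 2) • (1 : Matrix (Fin 4) (Fin 4) R)) := by
    have e4 : X * X * (X * X) = X ^ 4 := by
      rw [← pow_two, ← pow_two, ← pow_mul]
    rw [sub_mul, mul_sub, mul_sub, e4, mul_smul_comm, mul_one, smul_mul_assoc, one_mul,
      smul_mul_assoc, one_mul, smul_smul, add_smul, pow_two X]
    abel
  rw [h2] at h
  exact sub_eq_zero.mp h

theorem p_pw4 : Pw4S := by
  intro R _ X a b h1 h2 h3 h n
  have h4 := pw4_rec X a b h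
  induction n using Nat.strong_induction_on with
  | _ n ih =>
    match n, ih with
    | 0, _ =>
      simp only [pow_zero, Matrix.trace_one, Fintype.card_fin]
      norm_num
    | 1, _ =>
      simp only [pow_one, h1]
      ring
    | 2, _ =>
      rw [pow_two X, h2]
      ring
    | 3, _ =>
      rw [pow_succ X 2, pow_two X, h3]
      ring
    | n + 4, ih =>
      have e : X ^ (n + 4) = (a ^ 2 + b ^ 2) • X ^ (n + 2) - (a ^ 2 * b ^ 2) • X ^ n := by
        rw [pow_add, h4, mul_sub, mul_smul_comm, ← pow_add, mul_smul_comm, mul_one]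
      rw [e, Matrix.trace_sub, Matrix.trace_smul, Matrix.trace_smul, ih (n + 2) (by omega),
        ih n (by omega), smul_eq_mul, smul_eq_mul]
      ring

end Pool.Agent.MP_a57f33_nt.BZ
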