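import Pool.Agent.Lib.MP_a57f33_nt.BZ.Stm

/-!
Second order perturbation formula for the trace functional (used by the pieces x1 and x2).
-/

namespace Pool.Agent.MP_a57f33_nt.BZ

open Matrix

/-! ### Sums over words -/

theorem pt_SW_succ {M : Type} [AddCommMonoid M] (n : ℕ) (f : List Bool → M) :
    SW (n + 1) f = ∑ x : Bool, SW n (fun w => f (x :: w)) := by
  rw [Fintype.sum_bool]
  exact add_comm (SW n fun w => f (false :: w)) (SW n fun w => f (true :: w))

theorem pt_SW_congr {M : Type} [AddCommMonoid M] (n : ℕ) (f g : List Bool → M)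
    (h : ∀ w, f w = g w) : SW n f = SW n g := by
  have : f = g := funext h
  rw [this]

theorem pt_SW_map {M M' : Type} [AddCommMonoid M] [AddCommMonoid M'] (φ : M →+ M') (n : ℕ) :
    ∀ f : List Bool → M, φ (SW n f) = SW n (fun w => φ (f w)) := by
  induction n with
  | zero => intro f; rfl
  | succ n ih =>
    intro f
    rw [pt_SW_succ, pt_SW_succ, map_sum]
    exact Finset.sum_congr rfl fun x _ => ih _

theorem pt_SW_add {M : Type} [AddCommMonoid M] (n : ℕ) : ∀ f g : List Bool → M,
    SW n (fun w => f w + g w) = SW n f + SW n g := by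
  induction n with
  | zero => intro f g; rfl
  | succ n ih =>
    intro f g
    rw [pt_SW_succ, pt_SW_succ, pt_SW_succ, ← Finset.sum_add_distrib]
    exact Finset.sum_congr rfl fun x _ => ih _ _

theorem pt_SW_sum {M ι : Type} [AddCommMonoid M] (I : Finset ι) (n : ℕ) :
    ∀ f : ι → List Bool → M, SW n (fun w => ∑ i ∈ I, f i w) = ∑ i ∈ I, SW n (f i) := by
  induction n with
  | zero => intro f; rfl
  | succ n ih =>
    intro f
    rw [pt_SW_succ]
    simp only [ih]
    rw [Finset.sum_comm]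
    exact Finset.sum_congr rfl fun i _ => (pt_SW_succ n (f i)).symm

theorem pt_SW_comm {M : Type} [AddCommMonoid M] (m n : ℕ) :
    ∀ f : List Bool → List Bool → M,
      SW m (fun u => SW n (fun v => f u v)) = SW n (fun v => SW m (fun u => f u v)) := by
  induction m with
  | zero => intro f; rfl
  | succ m ih =>
    intro f
    rw [pt_SW_succ]
    simp only [ih]
    rw [← pt_SW_sum]
    refine pt_SW_congr _ _ _ fun v => ?_
    rw [pt_SW_succ]

theorem pt_SW_append {M : Type} [AddCommMonoid M] (m n : ℕ) :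
    ∀ f : List Bool → M, SW (m + n) f = SW m (fun u => SW n (fun v => f (u ++ v))) := by
  induction m with
  | zero => intro f; simp only [Nat.zero_add]; rfl
  | succ m ih =>
    intro f
    rw [Nat.succ_add, pt_SW_succ, pt_SW_succ]
    exact Finset.sum_congr rfl fun x _ => ih _

/-! ### Cyclicity -/

theorem pt_cyc {k : List Bool → ℚ} (hk : Cyc k) : ∀ u v : List Bool, k (u ++ v) = k (v ++ u) := by
  intro u
  induction u with
  | nil => intro v; simp
  | cons x u ih =>
    intro v
    have h1 : k (x :: (u ++ v)) = k ((u ++ v) ++ [x]) := (hk x (u ++ v)).symm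
    rw [List.cons_append, h1, List.append_assoc, ih (v ++ [x]), List.append_assoc]
    rfl

/-! ### Alternating words -/

theorem pt_alt_two (a : Bool) (n : ℕ) : alt a (n + 2) = a :: (!a) :: alt a n := by
  simp [alt]

theorem pt_alt_add (a : Bool) (i n : ℕ) : alt a (2 * i + n) = alt a (2 * i) ++ alt a n := by
  induction i with
  | zero => simp [alt]
  | succ i ih =>
    have h1 : 2 * (i + 1) + n = (2 * i + n) + 2 := by ring
    have h2 : 2 * (i + 1) = 2 * i + 2 := by ring
    rw [h1, h2, pt_alt_two, pt_alt_two, ih]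
    rfl

theorem pt_alt_snoc (a : Bool) (i : ℕ) : alt a (2 * i + 1) ++ [!a] = alt a (2 * (i + 1)) := by
  have h2 : 2 * (i + 1) = 2 * i + 2 := by ring
  rw [h2, pt_alt_add a i 1, pt_alt_add a i 2]
  simp [alt]

theorem pt_alt_rot {k : List Bool → ℚ} (hk : Cyc k) (i : ℕ) :
    k (alt false (2 * i)) = k (alt true (2 * i)) := by
  cases i with
  | zero => rfl
  | succ i =>
    have h1 := hk true (alt false (2 * i + 1))
    have h2 := pt_alt_snoc false i
    rw [Bool.not_false] at h2
    rw [h2] at h1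
    rw [h1]
    rfl

/-! ### Perturbation of products -/

section Gen

variable {R ι : Type} [CommRing R] [Algebra ℚ R] [Fintype ι] [DecidableEq ι]

theorem pt_ev_cons (A B : Matrix ι ι R) (x : Bool) (w : List Bool) :
    ev A B (x :: w) = cond x B A * ev A B w := by
  simp [ev]

theorem pt_ev_append (A B : Matrix ι ι R) (u v : List Bool) :
    ev A B (u ++ v) = ev A B u * ev A B v := by
  simp [ev]

/-- The derivative of a product. -/
def ptD (A B A' B' : Matrix ι ι R) : List Bool → Matrix ι ι R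
  | [] => 0
  | x :: w => cond x B' A' * ev A B w + cond x B A * ptD A B A' B' w

theorem pt_ev_pert (A B A' B' : Matrix ι ι R) (b : R) (hb : b * b = 0) (w : List Bool) :
    ev (A + b • A') (B + b • B') w = ev A B w + b • ptD A B A' B' w := by
  induction w with
  | nil => simp [ev, ptD]
  | cons x w ih =>
    rw [pt_ev_cons, pt_ev_cons, ih, ptD]
    have h1 : cond x (B + b • B') (A + b • A') = cond x B A + b • cond x B' A' := by
      cases x <;> rfl
    rw [h1, Matrix.add_mul, Matrix.mul_add, Matrix.mul_add, Matrix.mul_smul, Matrix.smul_mul,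
      Matrix.smul_mul, Matrix.mul_smul, smul_smul, hb, zero_smul, add_zero, smul_add]
    abel

theorem pt_SW_D (A B A' B' : Matrix ι ι R) (n : ℕ) : ∀ (f : List Bool → ℚ) (P : Matrix ι ι R),
    SW n (fun w => f w • (P * ptD A B A' B' w).trace) =
      ∑ j ∈ Finset.range n, ∑ x : Bool, SW j (fun u => SW (n - 1 - j) (fun v =>
        f (u ++ x :: v) • (P * (ev A B u * cond x B' A' * ev A B v)).trace)) := by
  induction n with
  | zero =>
    intro f P
    simp [SW, ptD]
  | succ n ih =>
    intro f P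
    rw [pt_SW_succ, Finset.sum_range_succ', add_comm]
    have h1 : ∀ x : Bool, SW n (fun w => f (x :: w) • (P * ptD A B A' B' (x :: w)).trace) =
        SW n (fun w => f (x :: w) • (P * (cond x B' A' * ev A B w)).trace) +
        SW n (fun w => f (x :: w) • ((P * cond x B A) * ptD A B A' B' w).trace) := by
      intro x
      rw [← pt_SW_add]
      refine pt_SW_congr _ _ _ fun w => ?_
      rw [ptD, Matrix.mul_add, Matrix.trace_add, smul_add, Matrix.mul_assoc P (cond x B A)]
    simp only [h1]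
    rw [Finset.sum_add_distrib]
    congr 1
    · refine Finset.sum_congr rfl fun x _ => ?_
      simp [SW, ev]
    · simp only [ih]
      rw [Finset.sum_comm]
      refine Finset.sum_congr rfl fun j hj => ?_
      rw [Finset.sum_comm]
      refine Finset.sum_congr rfl fun x _ => ?_
      rw [pt_SW_succ]
      refine Finset.sum_congr rfl fun y _ => ?_
      refine pt_SW_congr _ _ _ fun u => ?_
      have h2 : n + 1 - 1 - (j + 1) = n - 1 - j := by omega
      rw [h2]
      refine pt_SW_congr _ _ _ fun v => ?_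
      rw [pt_ev_cons]
      simp only [Matrix.mul_assoc, List.cons_append]

/-- First order formula. -/
theorem pt_first (k : List Bool → ℚ) (hk : Cyc k) (A B A' B' : Matrix ι ι R) (b : R)
    (hb : b * b = 0) (n : ℕ) :
    T k (n + 1) (A + b • A') (B + b • B') = T k (n + 1) A B +
      b * (((n + 1 : ℕ) : R) * ∑ x : Bool, SW n (fun w =>
        k (x :: w) • (cond x B' A' * ev A B w).trace)) := by
  unfold T
  have h1 : ∀ w, k w • (ev (A + b • A') (B + b • B') w).trace =
      k w • (ev A B w).trace + b • (k w • (1 * ptD A B A' B' w).trace) := by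
    intro w
    rw [pt_ev_pert A B A' B' b hb, Matrix.trace_add, Matrix.trace_smul, smul_add, Matrix.one_mul,
      smul_comm]
  rw [pt_SW_congr _ _ _ h1, pt_SW_add]
  congr 1
  have h2 : SW (n + 1) (fun w => b • (k w • (1 * ptD A B A' B' w).trace)) =
      b • SW (n + 1) (fun w => (k w • (1 * ptD A B A' B' w).trace)) := by
    have := pt_SW_map (AddMonoidHom.mulLeft b) (n + 1)
      (fun w => (k w • (1 * ptD A B A' B' w).trace))
    simpa [smul_eq_mul] using this.symm
  rw [h2, pt_SW_D, smul_eq_mul]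
  congr 1
  have h3 : ∀ j ∈ Finset.range (n + 1), (∑ x : Bool, SW j (fun u => SW (n + 1 - 1 - j) (fun v =>
        k (u ++ x :: v) • (1 * (ev A B u * cond x B' A' * ev A B v)).trace))) =
      ∑ x : Bool, SW n (fun w => k (x :: w) • (cond x B' A' * ev A B w).trace) := by
    intro j hj
    refine Finset.sum_congr rfl fun x _ => ?_
    have h4 : n + 1 - 1 - j = n - j := by omega
    have h5 : n = (n - j) + j := by
      have := Finset.mem_range.mp hj
      omega
    rw [h4]
    have h6 : SW n (fun w => k (x :: w) • (cond x B' A' * ev A B w).trace) =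
        SW ((n - j) + j) (fun w => k (x :: w) • (cond x B' A' * ev A B w).trace) := by
      rw [← h5]
    rw [h6, pt_SW_append, pt_SW_comm]
    refine pt_SW_congr _ _ _ fun v => pt_SW_congr _ _ _ fun u => ?_
    rw [pt_cyc hk u (x :: v), List.cons_append, Matrix.one_mul, pt_ev_append,
      Matrix.mul_assoc (ev A B u), Matrix.trace_mul_comm (ev A B u), Matrix.mul_assoc]
  rw [Finset.sum_congr rfl h3, Finset.sum_const, Finset.card_range, nsmul_eq_mul]

end Gen

/-! ### The four by four family -/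

section Four

variable {R : Type} [CommRing R] [Algebra ℚ R]

/-- The two projections. -/
def EE (R : Type) [CommRing R] (x : Bool) : Matrix (Fin 4) (Fin 4) R := cond x (E1 R) (E0 R)

theorem pt_EE_sum : ∑ x : Bool, EE R x = 1 := by
  rw [Fintype.sum_bool]
  ext i j
  fin_cases i <;> fin_cases j <;> simp [EE, E0, E1]

theorem pt_EE_off (s t : R) (x : Bool) : EE R x * MH 0 0 s t * EE R x = 0 := by
  cases x <;> ext i j <;> fin_cases i <;> fin_cases j <;>
    simp [EE, E0, E1, MH, Matrix.mul_apply, Fin.sum_univ_four, Matrix.diagonal]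

theorem pt_EE_on (s t : R) (x : Bool) :
    EE R x * MH 0 0 s t * EE R (!x) = EE R x * MH 0 0 s t := by
  have h : EE R x * MH 0 0 s t * (∑ y : Bool, EE R y) = EE R x * MH 0 0 s t := by
    rw [pt_EE_sum, Matrix.mul_one]
  rw [Fintype.sum_bool, Matrix.mul_add] at h
  cases x
  · rw [pt_EE_off s t false, add_zero] at h
    exact h
  · rw [pt_EE_off s t true, zero_add] at h
    exact h

theorem pt_EE_dbl (s t : R) (g : Bool → Bool → ℚ) (Z : Matrix (Fin 4) (Fin 4) R) :
    ∑ x : Bool, ∑ y : Bool, g x y • (EE R x * MH 0 0 s t * (EE R y * Z)) =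
      ∑ x : Bool, g x (!x) • (EE R x * MH 0 0 s t * Z) := by
  refine Finset.sum_congr rfl fun x _ => ?_
  have h1 : EE R x * MH 0 0 s t * (EE R x * Z) = 0 := by
    rw [← Matrix.mul_assoc, pt_EE_off, Matrix.zero_mul]
  have h2 : EE R x * MH 0 0 s t * (EE R (!x) * Z) = EE R x * MH 0 0 s t * Z := by
    rw [← Matrix.mul_assoc, pt_EE_on]
  rw [Fintype.sum_bool]
  cases x
  · rw [h1, smul_zero, add_zero]
    rw [Bool.not_false] at h2 ⊢
    rw [h2]
  · rw [h1, smul_zero, zero_add]
    rw [Bool.not_true] at h2 ⊢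
    rw [h2]

/-- The first order term of the sum over the words. -/
def ptS (N M : Matrix (Fin 4) (Fin 4) R) (n : ℕ) (f : List Bool → ℚ) :
    Matrix (Fin 4) (Fin 4) R :=
  ∑ l ∈ Finset.range n, ∑ j : Bool, ∑ z : Bool, ∑ y : Bool,
    f (alt y l ++ j :: alt z (n - 1 - l)) •
      (EE R y * (M ^ l * (EE R j * N * EE R z * M ^ (n - 1 - l))))

theorem ptS_succ (N : Matrix (Fin 4) (Fin 4) R) (s t : R) (n : ℕ) (f : List Bool → ℚ) :
    ptS N (MH 0 0 s t) (n + 1) f =
      ∑ j : Bool, ∑ z : Bool, f (j :: alt z n) • (EE R j * N * (EE R z * MH 0 0 s t ^ n)) +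
      ∑ x : Bool, EE R x * MH 0 0 s t * ptS N (MH 0 0 s t) n (fun w => f (x :: w)) := by
  unfold ptS
  rw [Finset.sum_range_succ', add_comm]
  congr 1
  · refine Finset.sum_congr rfl fun j _ => Finset.sum_congr rfl fun z _ => ?_
    have h1 : ∀ y : Bool, f (alt y 0 ++ j :: alt z (n + 1 - 1 - 0)) •
        (EE R y * ((MH 0 0 s t) ^ 0 * (EE R j * N * EE R z * (MH 0 0 s t) ^ (n + 1 - 1 - 0)))) =
        EE R y * (f (j :: alt z n) • (EE R j * N * (EE R z * MH 0 0 s t ^ n))) := by
      intro y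
      simp [alt, Matrix.mul_assoc]
    rw [Finset.sum_congr rfl fun y _ => h1 y, ← Finset.sum_mul, pt_EE_sum, Matrix.one_mul]
  · have h2 : ∀ x : Bool, EE R x * MH 0 0 s t * (∑ l ∈ Finset.range n, ∑ j : Bool, ∑ z : Bool,
        ∑ y : Bool, f (x :: (alt y l ++ j :: alt z (n - 1 - l))) •
          (EE R y * (MH 0 0 s t ^ l * (EE R j * N * EE R z * MH 0 0 s t ^ (n - 1 - l))))) =
        ∑ l ∈ Finset.range n, ∑ j : Bool, ∑ z : Bool,
        ∑ y : Bool, f (x :: (alt y l ++ j :: alt z (n - 1 - l))) • (EE R x * MH 0 0 s t *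
          (EE R y * (MH 0 0 s t ^ l * (EE R j * N * EE R z * MH 0 0 s t ^ (n - 1 - l))))) := by
      intro x
      simp only [Finset.mul_sum, Matrix.mul_smul]
    simp only [h2]
    symm
    rw [Finset.sum_comm]
    refine Finset.sum_congr rfl fun l hl => ?_
    rw [Finset.sum_comm]
    refine Finset.sum_congr rfl fun j _ => ?_
    rw [Finset.sum_comm]
    refine Finset.sum_congr rfl fun z _ => ?_
    rw [pt_EE_dbl s t (fun x y => f (x :: (alt y l ++ j :: alt z (n - 1 - l))))]
    refine Finset.sum_congr rfl fun x _ => ?_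
    have h3 : n + 1 - 1 - (l + 1) = n - 1 - l := by omega
    rw [h3, pow_succ']
    simp only [alt, List.cons_append, Matrix.mul_assoc]

theorem pt_EvSum (N : Matrix (Fin 4) (Fin 4) R) (a s t : R) (ha : a * a = 0) (n : ℕ) :
    ∀ f : List Bool → ℚ,
    SW n (fun w => f w • ev (EE R false * (MH 0 0 s t + a • N)) (EE R true * (MH 0 0 s t + a • N)) w)
      = ∑ z : Bool, f (alt z n) • (EE R z * MH 0 0 s t ^ n) + a • ptS N (MH 0 0 s t) n f := by
  induction n with
  | zero =>
    intro f
    have h1 : ∀ z : Bool, f (alt z 0) • (EE R z * MH 0 0 s t ^ 0) = EE R z * (f [] • 1) := by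
      intro z
      simp [alt]
    rw [Finset.sum_congr rfl fun z _ => h1 z, ← Finset.sum_mul, pt_EE_sum, Matrix.one_mul]
    simp [SW, ev, ptS]
  | succ n ih =>
    intro f
    rw [pt_SW_succ, ptS_succ]
    have h1 : ∀ x : Bool, SW n (fun w => f (x :: w) •
        ev (EE R false * (MH 0 0 s t + a • N)) (EE R true * (MH 0 0 s t + a • N)) (x :: w)) =
        EE R x * (MH 0 0 s t + a • N) * (∑ z : Bool, f (x :: alt z n) • (EE R z * MH 0 0 s t ^ n) +
          a • ptS N (MH 0 0 s t) n (fun w => f (x :: w))) := by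
      intro x
      rw [← ih (fun w => f (x :: w))]
      have h2 := pt_SW_map (AddMonoidHom.mulLeft (EE R x * (MH 0 0 s t + a • N))) n
        (fun w => f (x :: w) •
          ev (EE R false * (MH 0 0 s t + a • N)) (EE R true * (MH 0 0 s t + a • N)) w)
      rw [AddMonoidHom.coe_mulLeft] at h2
      rw [h2]
      refine pt_SW_congr _ _ _ fun w => ?_
      rw [pt_ev_cons, Matrix.mul_smul]
      cases x <;> rfl
    rw [Finset.sum_congr rfl fun x _ => h1 x]
    have h3 : ∀ x : Bool, EE R x * (MH 0 0 s t + a • N) *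
        (∑ z : Bool, f (x :: alt z n) • (EE R z * MH 0 0 s t ^ n) +
          a • ptS N (MH 0 0 s t) n (fun w => f (x :: w))) =
        ∑ z : Bool, f (x :: alt z n) • (EE R x * MH 0 0 s t * (EE R z * MH 0 0 s t ^ n)) +
        a • (∑ z : Bool, f (x :: alt z n) • (EE R x * N * (EE R z * MH 0 0 s t ^ n)) +
          EE R x * MH 0 0 s t * ptS N (MH 0 0 s t) n (fun w => f (x :: w))) := by
      intro x
      simp only [Matrix.mul_add, Matrix.add_mul, Matrix.mul_smul, Matrix.smul_mul, Finset.mul_sum,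
        smul_add, smul_smul, ha, zero_smul, add_zero]
      rw [Finset.smul_sum]
      have h4 : ∀ z : Bool, f (x :: alt z n) • a • (EE R x * N * (EE R z * MH 0 0 s t ^ n)) =
        a • f (x :: alt z n) • (EE R x * N * (EE R z * MH 0 0 s t ^ n)) := fun z => smul_comm _ _ _
      simp only [h4, Finset.sum_add_distrib]
      abel
    rw [Finset.sum_congr rfl fun x _ => h3 x, Finset.sum_add_distrib, ← Finset.smul_sum,
      Finset.sum_add_distrib]
    congr 1
    rw [pt_EE_dbl s t (fun x z => f (x :: alt z n))]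
    refine Finset.sum_congr rfl fun x _ => ?_
    rw [pow_succ', Matrix.mul_assoc]
    rfl

/-- The linear term. -/
def ptL (k : List Bool → ℚ) (n : ℕ) (s t : R) (N : Matrix (Fin 4) (Fin 4) R) : R :=
  ∑ x : Bool, ∑ z : Bool, k (x :: alt z (n + 1)) •
    (EE R x * N * (EE R z * MH 0 0 s t ^ (n + 1))).trace

/-- The bilinear term with `l` and `m` steps. -/
def ptB (k : List Bool → ℚ) (l m : ℕ) (s t : R) (Na Nb : Matrix (Fin 4) (Fin 4) R) : R :=
  ∑ x : Bool, ∑ j : Bool, ∑ z : Bool, ∑ y : Bool, k (x :: (alt y l ++ j :: alt z m)) •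
    (EE R x * Nb * (EE R y * (MH 0 0 s t ^ l * (EE R j * Na * EE R z * MH 0 0 s t ^ m)))).trace

theorem pt_tr_sum (C : Matrix (Fin 4) (Fin 4) R) (n : ℕ) (g : List Bool → ℚ)
    (F : List Bool → Matrix (Fin 4) (Fin 4) R) :
    SW n (fun w => g w • (C * F w).trace) = (C * SW n (fun w => g w • F w)).trace := by
  have h1 := pt_SW_map (AddMonoidHom.mulLeft C) n (fun w => g w • F w)
  have h2 := pt_SW_map (Matrix.traceAddMonoidHom (Fin 4) R) n (fun w => C * (g w • F w))
  rw [AddMonoidHom.coe_mulLeft] at h1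
  rw [h1]
  rw [Matrix.traceAddMonoidHom_apply] at h2
  rw [h2]
  refine pt_SW_congr _ _ _ fun w => ?_
  rw [Matrix.traceAddMonoidHom_apply, Matrix.mul_smul, Matrix.trace_smul]

theorem pt_lin (k : List Bool → ℚ) (n : ℕ) (s t : R) (N : Matrix (Fin 4) (Fin 4) R) :
    ∑ x : Bool, SW (n + 1) (fun w => k (x :: w) •
      (cond x (E1 R * N) (E0 R * N) * ev (E0 R * MH 0 0 s t) (E1 R * MH 0 0 s t) w).trace) =
      ptL k n s t N := by
  unfold ptL
  refine Finset.sum_congr rfl fun x _ => ?_
  have h1 := pt_EvSum (0 : Matrix (Fin 4) (Fin 4) R) (0 : R) s t (mul_zero 0) (n + 1)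
    (fun w => k (x :: w))
  rw [zero_smul, add_zero, zero_smul, add_zero] at h1
  have h2 : cond x (E1 R * N) (E0 R * N) = EE R x * N := by cases x <;> rfl
  rw [h2, pt_tr_sum]
  change (EE R x * N * SW (n + 1) (fun w => k (x :: w) •
    ev (EE R false * MH 0 0 s t) (EE R true * MH 0 0 s t) w)).trace = _
  rw [h1, Finset.mul_sum, Matrix.trace_sum]
  refine Finset.sum_congr rfl fun z _ => ?_
  rw [Matrix.mul_smul, Matrix.trace_smul]

/-- The second order perturbation formula. -/
theorem pert (k : List Bool → ℚ) (hk : Cyc k) (n : ℕ) (a b s t : R) (ha : a * a = 0)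
    (hb : b * b = 0) (Na Nb : Matrix (Fin 4) (Fin 4) R) :
    T k (n + 2) (E0 R * (MH 0 0 s t + a • Na + b • Nb))
        (E1 R * (MH 0 0 s t + a • Na + b • Nb)) =
      T k (n + 2) (E0 R * MH 0 0 s t) (E1 R * MH 0 0 s t) +
      a * (((n + 2 : ℕ) : R) * ptL k n s t Na) + b * (((n + 2 : ℕ) : R) * ptL k n s t Nb) +
      a * b * ((n + 2 : ℕ) : R) * ∑ l ∈ Finset.range (n + 1), ptB k l (n - l) s t Na Nb := by
  have h1 : T k (n + 2) (E0 R * (MH 0 0 s t + a • Na)) (E1 R * (MH 0 0 s t + a • Na)) =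
      T k (n + 2) (E0 R * MH 0 0 s t) (E1 R * MH 0 0 s t) +
        a * (((n + 2 : ℕ) : R) * ptL k n s t Na) := by
    rw [Matrix.mul_add, Matrix.mul_add, Matrix.mul_smul, Matrix.mul_smul,
      pt_first k hk (E0 R * MH 0 0 s t) (E1 R * MH 0 0 s t) (E0 R * Na) (E1 R * Na) a ha (n + 1),
      pt_lin]
  rw [Matrix.mul_add (E0 R) _ (b • Nb), Matrix.mul_add (E1 R) _ (b • Nb), Matrix.mul_smul,
    Matrix.mul_smul, pt_first k hk _ _ (E0 R * Nb) (E1 R * Nb) b hb (n + 1), h1]
  have h2 : ∑ x : Bool, SW (n + 1) (fun w => k (x :: w) •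
      (cond x (E1 R * Nb) (E0 R * Nb) *
        ev (E0 R * (MH 0 0 s t + a • Na)) (E1 R * (MH 0 0 s t + a • Na)) w).trace) =
      ptL k n s t Nb + a * ∑ l ∈ Finset.range (n + 1), ptB k l (n - l) s t Na Nb := by
    have h3 : ∀ x : Bool, SW (n + 1) (fun w => k (x :: w) •
      (cond x (E1 R * Nb) (E0 R * Nb) *
        ev (E0 R * (MH 0 0 s t + a • Na)) (E1 R * (MH 0 0 s t + a • Na)) w).trace) =
      ∑ z : Bool, k (x :: alt z (n + 1)) •
        (EE R x * Nb * (EE R z * MH 0 0 s t ^ (n + 1))).trace +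
      a * ∑ l ∈ Finset.range (n + 1), ∑ j : Bool, ∑ z : Bool, ∑ y : Bool,
        k (x :: (alt y l ++ j :: alt z (n - l))) •
        (EE R x * Nb * (EE R y * (MH 0 0 s t ^ l *
          (EE R j * Na * EE R z * MH 0 0 s t ^ (n - l))))).trace := by
      intro x
      have h4 := pt_EvSum Na a s t ha (n + 1) (fun w => k (x :: w))
      have h5 : cond x (E1 R * Nb) (E0 R * Nb) = EE R x * Nb := by cases x <;> rfl
      rw [h5, pt_tr_sum]
      change (EE R x * Nb * SW (n + 1) (fun w => k (x :: w) •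
        ev (EE R false * (MH 0 0 s t + a • Na)) (EE R true * (MH 0 0 s t + a • Na)) w)).trace = _
      rw [h4, Matrix.mul_add, Matrix.trace_add, Matrix.mul_smul, Matrix.trace_smul, smul_eq_mul]
      unfold ptS
      simp only [Finset.mul_sum, Matrix.trace_sum, Matrix.mul_smul, Matrix.trace_smul,
        Nat.add_sub_cancel]
    simp only [h3]
    rw [Finset.sum_add_distrib, ← Finset.mul_sum]
    refine congrArg₂ _ rfl (congrArg _ ?_)
    rw [Finset.sum_comm]
    rfl
  rw [h2]
  ring

/-! ### Powers of the unperturbed matrix -/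

theorem pt_sq (s t : R) : MH 0 0 s t * MH 0 0 s t = Matrix.diagonal ![t ^ 2, s ^ 2, t ^ 2, s ^ 2] := by
  ext i j
  fin_cases i <;> fin_cases j <;>
    simp [MH, Matrix.mul_apply, Fin.sum_univ_four, Matrix.diagonal] <;> ring

theorem pt_even (s t : R) (i : ℕ) : MH 0 0 s t ^ (2 * i) =
    !![t ^ (2 * i), 0, 0, 0; 0, s ^ (2 * i), 0, 0; 0, 0, t ^ (2 * i), 0; 0, 0, 0, s ^ (2 * i)] := by
  rw [pow_mul, pow_two, pt_sq, Matrix.diagonal_pow]
  ext p q
  fin_cases p <;> fin_cases q <;> simp [Matrix.diagonal, pow_mul]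

theorem pt_odd (s t : R) (i : ℕ) : MH 0 0 s t ^ (2 * i + 1) =
    !![0, 0, -t ^ (2 * i + 1), 0; 0, 0, 0, s ^ (2 * i + 1);
      -t ^ (2 * i + 1), 0, 0, 0; 0, s ^ (2 * i + 1), 0, 0] := by
  rw [pow_succ, pt_even]
  ext p q
  fin_cases p <;> fin_cases q <;>
    simp [MH, Matrix.mul_apply, Fin.sum_univ_four, pow_succ]

/-- Splitting a sum by parity. -/
theorem pt_parity (F : ℕ → R) (r : ℕ) : ∑ l ∈ Finset.range (2 * r + 1), F l =
    ∑ m ∈ Finset.range (r + 1), F (2 * m) + ∑ m ∈ Finset.range r, F (2 * m + 1) := by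
  induction r with
  | zero => simp
  | succ r ih =>
    have h : 2 * (r + 1) + 1 = 2 * r + 1 + 1 + 1 := by ring
    rw [h, Finset.sum_range_succ, Finset.sum_range_succ, ih,
      Finset.sum_range_succ (fun m => F (2 * m)) (r + 1),
      Finset.sum_range_succ (fun m => F (2 * m + 1)) r]
    have h2 : 2 * r + 1 + 1 = 2 * (r + 1) := by ring
    rw [h2]
    ring

end Four

end Pool.Agent.MP_a57f33_nt.BZ
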