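import Pool.Agent.Lib.MP_a57f33_nt.BZ.Chain4

/-!
From fields to all commutative `ℚ`-algebras.
-/

namespace Pool.Agent.MP_a57f33_nt.BZ

open Pool.Agent.MP_a57f33_nt
open Matrix

lemma E0MH_map {R S : Type} [CommRing R] [CommRing S] (g : R →+* S) (a b s t : R) :
    (E0 R * MH a b s t).map g = E0 S * MH (g a) (g b) (g s) (g t) := by
  rw [E0_eq, E0_eq]
  ext i j
  fin_cases i <;> fin_cases j <;> simp [MH, Matrix.mul_apply, Fin.sum_univ_succ]

lemma E1MH_map {R S : Type} [CommRing R] [CommRing S] (g : R →+* S) (a b s t : R) :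
    (E1 R * MH a b s t).map g = E1 S * MH (g a) (g b) (g s) (g t) := by
  rw [E1_eq, E1_eq]
  ext i j
  fin_cases i <;> fin_cases j <;> simp [MH, Matrix.mul_apply, Fin.sum_univ_succ]

lemma cS_map {R S : Type} [CommRing R] [CommRing S] (g : R →+* S) (P Q R' U : R) :
    (cS P Q R' U).map g = cS (g P) (g Q) (g R') (g U) := by
  have g2 : g 2 = 2 := map_ofNat g 2
  have g4 : g 4 = 4 := map_ofNat g 4
  ext i j
  fin_cases i <;> fin_cases j <;> simp [cS, g2, g4]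

lemma cS_det_map {R S : Type} [CommRing R] [CommRing S] (g : R →+* S) (P Q R' U : R) :
    (cS (g P) (g Q) (g R') (g U)).det = g (cS P Q R' U).det := by
  rw [← cS_map, RingHom.map_det]
  rfl

lemma cS_det_num : (cS (1 : ℚ) 1 0 (-1)).det ≠ 0 := by
  have : cS (1 : ℚ) 1 0 (-1) = !![0, 3, 0, 0; 2, -4, -1, 0; 0, -3, 0, -6; 0, 0, -3, 12] := by
    ext i j
    fin_cases i <;> fin_cases j <;> simp [cS] <;> norm_num
  rw [this]
  simp [Matrix.det_succ_row_zero, Fin.sum_univ_succ, Fin.succAbove]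

lemma Phi_map {R S : Type} [CommRing R] [CommRing S] (g : R →+* S) (n : ℕ) (P Q R' U : R) :
    g (Phi n P Q R' U) = Phi n (g P) (g Q) (g R') (g U) := by
  have g2 : g 2 = 2 := map_ofNat g 2
  have g4 : g 4 = 4 := map_ofNat g 4
  simp [Phi, g2, g4]

theorem chain_all (ht : TwS) (hten : TnS) (hc : CnvS) (hf : FacS) (hs : SimS) (hm : MapS)
    (hp3 : Pw3S) (hp4 : Pw4S) {ψ : QX} (h : ψ ∈ dm0) (N : ℕ) (hN : 1 ≤ N)
    (hn : Even (N + 1)) (c : ℚ) (hk : Cyc (K ψ)) (hd : Dv (K ψ) N c)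
    {R : Type} [CommRing R] [Algebra ℚ R] (P Q R' U : R) :
    (N : R) * T (K ψ) (N + 1)
        (E0 R * MH (P+Q+R'+U) (P+Q-R'-U) (P-Q+R'-U) (P-Q-R'+U))
        (E1 R * MH (P+Q+R'+U) (P+Q-R'-U) (P-Q+R'-U) (P-Q-R'+U)) =
      algebraMap ℚ R c * Phi (N + 1) P Q R' U := by
  -- the universal case
  let A := MvPolynomial (Fin 4) ℚ
  let F := FractionRing A
  let x : Fin 4 → A := MvPolynomial.X
  have univ : (N : A) * T (K ψ) (N + 1)
        (E0 A * MH (x 0+x 1+x 2+x 3) (x 0+x 1-x 2-x 3) (x 0-x 1+x 2-x 3) (x 0-x 1-x 2+x 3))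
        (E1 A * MH (x 0+x 1+x 2+x 3) (x 0+x 1-x 2-x 3) (x 0-x 1+x 2-x 3) (x 0-x 1-x 2+x 3)) =
      algebraMap ℚ A c * Phi (N + 1) (x 0) (x 1) (x 2) (x 3) := by
    have inj : Function.Injective (algebraMap A F) := IsFractionRing.injective A F
    let g : A →ₐ[ℚ] F := IsScalarTower.toAlgHom ℚ A F
    have gv : ∀ a : A, g a = algebraMap A F a := fun _ => rfl
    have hQ : g (x 1) ≠ 0 := by
      rw [gv]
      intro h0
      have : x 1 = 0 := inj (by rw [h0, map_zero])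
      exact MvPolynomial.X_ne_zero (R := ℚ) (1 : Fin 4) this
    have hdet : (cS (x 0) (x 1) (x 2) (x 3)).det ≠ 0 := by
      intro h0
      let pt : Fin 4 → ℚ := ![1, 1, 0, -1]
      let φ : A →+* ℚ := (MvPolynomial.aeval pt).toRingHom
      have h1 := cS_det_map φ (x 0) (x 1) (x 2) (x 3)
      rw [h0, map_zero] at h1
      have e0 : φ (x 0) = 1 := by
        change MvPolynomial.aeval pt (MvPolynomial.X 0) = 1
        rw [MvPolynomial.aeval_X]; rfl
      have e1 : φ (x 1) = 1 := by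
        change MvPolynomial.aeval pt (MvPolynomial.X 1) = 1
        rw [MvPolynomial.aeval_X]; rfl
      have e2 : φ (x 2) = 0 := by
        change MvPolynomial.aeval pt (MvPolynomial.X 2) = 0
        rw [MvPolynomial.aeval_X]; rfl
      have e3 : φ (x 3) = -1 := by
        change MvPolynomial.aeval pt (MvPolynomial.X 3) = -1
        rw [MvPolynomial.aeval_X]; rfl
      rw [e0, e1, e2, e3] at h1
      exact cS_det_num h1
    have hS : (cS (g (x 0)) (g (x 1)) (g (x 2)) (g (x 3))).det ≠ 0 := by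
      have e := cS_det_map (g : A →+* F) (x 0) (x 1) (x 2) (x 3)
      intro h0
      apply hdet
      apply inj
      rw [map_zero]
      exact e.symm.trans h0
    have key := chain_field ht hten hc hf hs hp3 hp4 h N hN hn c hk hd (g (x 0)) (g (x 1))
      (g (x 2)) (g (x 3)) hQ hS
    apply inj
    rw [map_mul, map_mul, map_natCast]
    have eT := hm A F (Fin 4) g (K ψ) (N + 1)
      (E0 A * MH (x 0+x 1+x 2+x 3) (x 0+x 1-x 2-x 3) (x 0-x 1+x 2-x 3) (x 0-x 1-x 2+x 3))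
      (E1 A * MH (x 0+x 1+x 2+x 3) (x 0+x 1-x 2-x 3) (x 0-x 1+x 2-x 3) (x 0-x 1-x 2+x 3))
    have m0 := E0MH_map (g : A →+* F) (x 0+x 1+x 2+x 3) (x 0+x 1-x 2-x 3) (x 0-x 1+x 2-x 3)
      (x 0-x 1-x 2+x 3)
    have m1 := E1MH_map (g : A →+* F) (x 0+x 1+x 2+x 3) (x 0+x 1-x 2-x 3) (x 0-x 1+x 2-x 3)
      (x 0-x 1-x 2+x 3)
    have p0 := Phi_map (g : A →+* F) (N + 1) (x 0) (x 1) (x 2) (x 3)
    simp only [map_add, map_sub] at m0 m1
    have cv : algebraMap A F (algebraMap ℚ A c) = algebraMap ℚ F c :=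
      (IsScalarTower.algebraMap_apply ℚ A F c).symm
    rw [cv]
    change (N : F) * g (T (K ψ) (N + 1) _ _) = _ * (g : A →+* F) (Phi _ _ _ _ _)
    rw [← eT, p0]
    have c0 : ∀ M : Matrix (Fin 4) (Fin 4) A, M.map g = M.map (g : A →+* F) := fun _ => rfl
    rw [c0, c0, m0, m1]
    exact key
  -- specialisation
  let y : Fin 4 → R := ![P, Q, R', U]
  let φ : A →ₐ[ℚ] R := MvPolynomial.aeval y
  have f0 : φ (x 0) = P := by
    change MvPolynomial.aeval y (MvPolynomial.X 0) = P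
    rw [MvPolynomial.aeval_X]; rfl
  have f1 : φ (x 1) = Q := by
    change MvPolynomial.aeval y (MvPolynomial.X 1) = Q
    rw [MvPolynomial.aeval_X]; rfl
  have f2 : φ (x 2) = R' := by
    change MvPolynomial.aeval y (MvPolynomial.X 2) = R'
    rw [MvPolynomial.aeval_X]; rfl
  have f3 : φ (x 3) = U := by
    change MvPolynomial.aeval y (MvPolynomial.X 3) = U
    rw [MvPolynomial.aeval_X]; rfl
  have h2 := congrArg φ univ
  rw [map_mul, map_mul, map_natCast, AlgHom.commutes] at h2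
  have eT := hm A R (Fin 4) φ (K ψ) (N + 1)
      (E0 A * MH (x 0+x 1+x 2+x 3) (x 0+x 1-x 2-x 3) (x 0-x 1+x 2-x 3) (x 0-x 1-x 2+x 3))
      (E1 A * MH (x 0+x 1+x 2+x 3) (x 0+x 1-x 2-x 3) (x 0-x 1+x 2-x 3) (x 0-x 1-x 2+x 3))
  have m0 := E0MH_map (φ : A →+* R) (x 0+x 1+x 2+x 3) (x 0+x 1-x 2-x 3) (x 0-x 1+x 2-x 3)
      (x 0-x 1-x 2+x 3)
  have m1 := E1MH_map (φ : A →+* R) (x 0+x 1+x 2+x 3) (x 0+x 1-x 2-x 3) (x 0-x 1+x 2-x 3)
      (x 0-x 1-x 2+x 3)
  have p0 := Phi_map (φ : A →+* R) (N + 1) (x 0) (x 1) (x 2) (x 3)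
  simp only [map_add, map_sub] at m0 m1
  have c0 : ∀ M : Matrix (Fin 4) (Fin 4) A, M.map φ = M.map (φ : A →+* R) := fun _ => rfl
  rw [← eT, c0, c0, m0, m1] at h2
  change _ = _ * (φ : A →+* R) (Phi _ _ _ _ _) at h2
  rw [p0] at h2
  simp only [RingHom.coe_coe, f0, f1, f2, f3] at h2
  exact h2

end Pool.Agent.MP_a57f33_nt.BZ
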