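import Pool.Agent.Lib.MP_a57f33_nt.BZ.Defs

/-!
# The Brown-Zagier relation on `dm₀`: statements of the pieces, with proofs in words

Notation: `ψ' = sgn ψ = ψ(x₀,-x₁)`, `φ₁ = ph1 ψ = ψ'(x_∞,x₁)`, `x_∞ = -x₀-x₁`, `φ₀ = ph0 ψ = φ₁ - ψ'`,
`K(0w) = (φ₀|w)`, `K(1w) = (φ₁|w)`; so `(ψ'|w) = K(1w) - K(0w)`.
Every piece is independent of the others.
-/

namespace Pool.Agent.MP_a57f33_nt.BZ

open Pool.Agent.MP_a57f33_nt
open Matrix

/-! ## Part I: from `dm₀` to the functional `K` -/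

/-- [cyc] `K` is cyclic.
PROOF. Apply the algebra map `sgn` to `two_term h`: `sgn (shiftX ψ) = rot ψ` (both are algebra maps
applied to `ψ`; check on letters: `sgn (shiftX X0) = sgn (X1 - X0) = -X1 - X0`, `sgn (shiftX X1) = -X1`)
and `sgn (X1 - X0) = -X1 - X0`. This gives `[X0, ψ'] - [X0 + X1, φ₁] = 0`, i.e.
`X0 φ₀ - φ₀ X0 + X1 φ₁ - φ₁ X1 = 0`. For `w = []` the claim is trivial. For `w = i :: v` take the
coefficient of this identity at the word `a :: i :: v`... more precisely: the coefficient of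
`Σ_j (X_j φ_j - φ_j X_j)` at `i :: (v ++ [a])` is `(φ_i | v ++ [a]) - (φ_a | i :: v)`
(lemmas `coeff_iota_mul_cons`, `coeff_mul_iota_snoc`), and it is `K(i :: v ++ [a]) - K(a :: i :: v)`. -/
def CycS : Prop := ∀ ψ ∈ dm0, Cyc (K ψ)

/-- [rev] reversal. PROOF: `φ₀, φ₁ ∈ LieX` (`hom_lie`: `sgn`, `rot` send letters to Lie elements), and
`lie_reverse` gives `(φ | w.reverse) = (-1)^(|w|+1) (φ | w)`. For `w = a :: v`, `|v|` odd:
`K((a::v).reverse) = K(v.reverse ++ [a]) = K(a :: v.reverse) = (φ_a | v.reverse) = (φ_a | v) = K(a :: v)`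
(second step: `Cyc`). For the empty word trivial. -/
def RevS : Prop := ∀ ψ ∈ dm0, Cyc (K ψ) → ∀ w : List Bool, Even w.length → K ψ w.reverse = K ψ w

/-- [dbl] the divergence condition.
PROOF. Write `K(u,x→yz,v)` for words; for a word `w` and a rule `k ↦ ab` let `Σ_k K(a w_{k→..})` be the
sum over the positions `k` of `w`. All `K(a ·)` are Lie (`lie_ins`: the sum over all insertions of a
letter `b` in a nonempty word is 0), in two forms (insertion after each letter plus front, insertion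
before each letter plus end). Let `T C = dbl C K`.
(1) `T` is cyclic: `dbl (w ++ [a]) k = dbl (a :: w) k` for `Cyc k`.
(2) For every nonempty `w`: `T(1w) - T(0w) = - F(w)`, `F(w) = Σ_k (ψ' | w with letter k replaced by 01)`,
`(ψ'|u) = K(1u) - K(0u)`. Proof: `T(1w) - T(0w) = K(11w) - K(00w) + Σ_k [K(1w_{k→kk}) - K(0w_{k→kk})]`;
`K(11w) = -Σ_k K(1w_{k→k1})`, `K(00w) = -Σ_k K(0w_{k→k0})`; collect: the sum of this and `F(w)` is
`Σ_{k:0} [K(1w_{0→00}) - K(0w_{0→01})] + Σ_{k:1} [K(0w_{1→10}) - K(0w_{1→11}) + K(1w_{1→01}) - K(0w_{1→01})]`;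
use `Σ_{k:0} K(1w_{0→00}) = -K(10w) - Σ_{k:1} K(1w_{1→10})`,
`Σ_{k:0} K(0w_{0→01}) + Σ_{k:1} K(0w_{1→11}) = -K(01w)`,
`Σ_{k:1} K(a w_{1→10}) - Σ_{k:1} K(a w_{1→01}) = K(a w 0) - K(a 0 w)` (a = 0, 1): one gets
`K(01w) - K(1w0) + K(0w0) - K(00w) = 0` by cyclicity.
(3) For `w = u1` (last letter 1): `F(u1) = 0` unless `u1 = 1^(N-1)`, and then `F = c`: this is the
stuffle relation with `y_1` (`dm0_subset_DS1`, `n = 1`, the word `toX` of which is `u1`) minus the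
shuffle relation with `x₁`: `y_1 * W - x₁ ⧢ W = Σ_{letters 1} (1 → 01) - Σ_{letters 0} (0 → 01)`, the
sign change `x₁ → -x₁` makes both signs equal; the term `(ψ_* | y_1^N)` occurs only for `W = y_1^(N-1)`,
`N` times, with coefficient `(-1)^(N-1)/N (ψ|x₀^(N-1)x₁)`.
(4) So `T(1u1) = T(0u1)` for all `u ≠ 1^(N-2)`. Every word with at least one 1 and at least two 0
has a rotation `0u1` with `u` not `1^(N-2)`; flipping its first letter gives a word with one 0 less and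
the same `T`. By induction on the number of zeros `T(C) = T(0 1^(N-1))` for all non-constant `C`;
with `C = 0^(N-1) 1`: `T(C) = Σ K(0^N 1) + K(0^(N-1) 1 1) = 0 + (ψ'|0^(N-1) 1)` [`K(0^N1) = (φ₁|0^N) = 0`,
`K(0^(N-1)11) = K(1 0^(N-1) 1) = K(1 0^(N-1) 1) - K(0^N 1)`]. Constant words: `K(a^(N+1)) = 0` for `N ≥ 2`
(Lie), for `N = 1` because `(ψ|x₀) = (ψ|x₁) = 0`. (`N = 0`: `dbl [] = 0`.) -/
def DblS : Prop := ∀ ψ ∈ dm0, Cyc (K ψ) → ∀ N : ℕ,
  Dv (K ψ) N (coeff (sgn ψ) (List.replicate (N - 1) false ++ [true]))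

/-! ## Part II: the functional on matrices -/

/-- [tw] invariance under twists.
PROOF. Let `S = R[z]`, `𝒜 = z A`, `ℬ = z B` (matrices over `S`), `EV : QX → Mat(S)` the evaluation
`X0 ↦ 𝒜, X1 ↦ ℬ` (`FreeAlgebra.lift ℚ`). Then `T (K ψ) n A B` is the coefficient of `z^n` in
`tr (𝒜 EV φ₀ + ℬ EV φ₁)` (expand in words). For a Lie element `φ` (`lie_induction`) without linear
part: `EV φ` does not change when `𝒜, ℬ` are replaced by `𝒜 + zμ, ℬ + zν`, and `tr (EV φ) = 0`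
(for general Lie `φ`: the change is `(φ|x₀) zμ + (φ|x₁) zν`, the trace is `(φ|x₀) tr 𝒜 + (φ|x₁) tr ℬ`).
`φ₀, φ₁` are Lie without linear part. (Alternative: work with the homogeneous parts.) -/
def TwS : Prop := ∀ (R ι : Type) [Field R] [Algebra ℚ R] [Fintype ι] [DecidableEq ι],
  ∀ ψ ∈ dm0, ∀ (n : ℕ) (A B : Matrix ι ι R) (μ ν : R),
    T (K ψ) n (A + μ • (1 : Matrix ι ι R)) (B + ν • (1 : Matrix ι ι R)) = T (K ψ) n A B

/-- [tn] tensor products.
PROOF. As [tw]: for a Lie element `φ`: `EV_{A⊗1+1⊗A'} φ = EV_A φ ⊗ 1 + 1 ⊗ EV_{A'} φ`, and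
`tr((𝒜⊗1+1⊗𝒜')(X⊗1+1⊗X')) = |κ| tr(𝒜X) + tr 𝒜 tr X' + tr X tr 𝒜' + |ι| tr(𝒜'X')` with `tr X = tr X' = 0`. -/
def TnS : Prop := ∀ (R ι κ : Type) [Field R] [Algebra ℚ R] [Fintype ι] [DecidableEq ι]
    [Fintype κ] [DecidableEq κ],
  ∀ ψ ∈ dm0, ∀ (n : ℕ) (A B : Matrix ι ι R) (A' B' : Matrix κ κ R),
    T (K ψ) n (kroneckerMap (· * ·) A (1 : Matrix κ κ R) + kroneckerMap (· * ·) (1 : Matrix ι ι R) A')
        (kroneckerMap (· * ·) B (1 : Matrix κ κ R) + kroneckerMap (· * ·) (1 : Matrix ι ι R) B') =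
      (Fintype.card κ : R) * T (K ψ) n A B + (Fintype.card ι : R) * T (K ψ) n A' B'

/-- [cnv] Katz convolution.
PROOF. Let `e, f` be the idempotents, `e + f = 1`, `e f = f e = 0`. Consider
`P(λ) = J(e (M+λ), f (M+λ)) ∈ R[λ]` (matrices over `R[λ]`, `M + λ`). Its derivative is 0:
`d/dλ tr(X_1 ⋯ X_n) = Σ_k tr(X_1 ⋯ X_k' ⋯ X_n)`, for `X_k = e_{w_k} (M+λ)` one has `X_k' = e_{w_k}` and
`e_{w_k} e_{w_{k+1}} = δ e_{w_{k+1}}`; by cyclicity of `k` and of the trace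
`d/dλ T k (N+1) = (N+1) Σ_{|w|=N} k(w_1 w) tr w(e(M+λ), f(M+λ))`, and, averaging over the rotations of
`w`, `N Σ_{|w|=N} k(w_1 w) tr w = Σ_{|w|=N} dbl(w) tr w = c (tr(M+λ)^N - tr(e(M+λ))^N - tr(f(M+λ))^N)`
(for `N ≥ 1`). And `d/dλ tr (M+λ)^(N+1) = (N+1) tr (M+λ)^N`,
`d/dλ tr (e(M+λ))^(N+1) = (N+1) tr(e (e(M+λ))^N) = (N+1) tr (e(M+λ))^N`, the same for `f`. So the
derivative of `N T - c W` is 0; characteristic 0: `P` is constant
(`Polynomial.natDegree_eq_zero_of_derivative_eq_zero`); evaluate at `λ` and at `0`. -/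
def CnvS : Prop := ∀ (R ι : Type) [Field R] [CharZero R] [Algebra ℚ R] [Fintype ι] [DecidableEq ι],
  ∀ (k : List Bool → ℚ) (N : ℕ) (c : ℚ), 1 ≤ N → Cyc k → Dv k N c →
    ∀ (e f M : Matrix ι ι R) (l : R), e + f = 1 → e * f = 0 → f * e = 0 →
      J k N c (e * (M + l • (1 : Matrix ι ι R))) (f * (M + l • (1 : Matrix ι ι R))) =
        J k N c (e * M) (f * M)

/-- [fac] factorization. PROOF: for a word `w = w_1 … w_n`, `n ≥ 1`,
`ev (U e V) (U f V) w = U (e_{w_1} V U e_{w_2} V U ⋯ e_{w_n}) V`, and `tr(U X V) = tr(X V U)` gives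
`tr = tr ev (e (V U)) (f (V U)) w`. The same for powers of `U e V`, `U f V`, `U (e+f) V`. -/
def FacS : Prop := ∀ (R ι κ : Type) [CommRing R] [Algebra ℚ R] [Fintype ι] [DecidableEq ι]
    [Fintype κ] [DecidableEq κ],
  ∀ (k : List Bool → ℚ) (N : ℕ) (c : ℚ) (e f : Matrix κ κ R) (U : Matrix ι κ R) (V : Matrix κ ι R),
    J k N c (U * e * V) (U * f * V) = J k N c (e * (V * U)) (f * (V * U))

/-- [sim] intertwining. PROOF: `S (ev A B w) = (ev A' B' w) S`; multiply by `S⁻¹` (det S ≠ 0), traces. -/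
def SimS : Prop := ∀ (R ι : Type) [Field R] [Algebra ℚ R] [Fintype ι] [DecidableEq ι],
  ∀ (k : List Bool → ℚ) (n : ℕ) (S A B A' B' : Matrix ι ι R), S.det ≠ 0 →
    S * A = A' * S → S * B = B' * S → T k n A B = T k n A' B'

/-- [map] base change. PROOF: `RingHom.mapMatrix`, traces and sums commute with ring maps. -/
def MapS : Prop := ∀ (R S ι : Type) [CommRing R] [Algebra ℚ R] [CommRing S] [Algebra ℚ S]
    [Fintype ι] [DecidableEq ι],
  ∀ (g : R →ₐ[ℚ] S) (k : List Bool → ℚ) (n : ℕ) (A B : Matrix ι ι R),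
    T k n (A.map g) (B.map g) = g (T k n A B)

/-- [pw3] power sums, 3×3. PROOF: `p_n = tr X^n` and `q_n = Σ e_i^n` satisfy the same recursion
`p_{n+3} = (e1+e2+e3) p_{n+2} - (e1e2+e1e3+e2e3) p_{n+1} + e1e2e3 p_n` and agree for `n = 0, 1, 2`. -/
def Pw3S : Prop := ∀ (R : Type) [CommRing R], ∀ (X : Matrix (Fin 3) (Fin 3) R) (a b c : R),
  X.trace = a + b + c → (X * X).trace = a ^ 2 + b ^ 2 + c ^ 2 →
  (X - a • (1 : Matrix _ _ R)) * (X - b • (1 : Matrix _ _ R)) * (X - c • (1 : Matrix _ _ R)) = 0 →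
  ∀ n : ℕ, (X ^ n).trace = a ^ n + b ^ n + c ^ n

/-- [pw4] power sums for a 4×4 matrix with eigenvalues `a, -a, b, -b`.
PROOF: `p_{n+4} = (a²+b²) p_{n+2} - a² b² p_n`. -/
def Pw4S : Prop := ∀ (R : Type) [CommRing R], ∀ (X : Matrix (Fin 4) (Fin 4) R) (a b : R),
  X.trace = 0 → (X * X).trace = 2 * (a ^ 2 + b ^ 2) → (X * X * X).trace = 0 →
  (X * X - (a ^ 2) • (1 : Matrix _ _ R)) * (X * X - (b ^ 2) • (1 : Matrix _ _ R)) = 0 →
  ∀ n : ℕ, (X ^ n).trace = a ^ n + (-a) ^ n + b ^ n + (-b) ^ n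

/-! ## Part III: extraction of coefficients -/

/-- The word `(10)^(m+1) (01)^(r-m)`. -/
def wmix (r m : ℕ) : List Bool := alt true (2 * (m + 1)) ++ alt false (2 * (r - m))

/-- The word `0 (01)^m 0 (01)^(r-m)`. -/
def wzz (r m : ℕ) : List Bool := false :: alt false (2 * m) ++ false :: alt false (2 * (r - m))

/-- [x1] the coefficient of `a b` in `T(MH a b s t)`; `n = 2r + 2`.
PROOF. `MH a b s t = M⁰ + a Mᵃ + b Mᵇ`, `M⁰`: entries (1,3), (3,1): `-t`; (2,4), (4,2): `s`;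
`Mᵃ`: (1,2), (2,1), (1,4): 1, (4,1): -1; `Mᵇ`: (2,3): -1, (3,2), (3,4), (4,3): 1 (indices 1..4).
First order lemma: if `b² = 0` and `k` cyclic, `T k n (A + bA') (B + bB') = T k n A B +
 b n Σ_{|w|=n-1} Σ_i k(i w) tr(X'_i ev A B w)`. Apply it to `b`, then expand `ev (A⁰+aAᵃ) (B⁰+aBᵃ) w` to
first order in `a`: `Σ_{w=u j v} ev u · Xᵃ_j · ev v`. The terms without `b` or without `a`: the terms
linear in `a` alone, and in `b` alone, vanish (parity: every edge of `Mᵃ`, `Mᵇ` joins the sector {1,3} to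
the sector {2,4}, every edge of `M⁰` stays in a sector; a closed walk uses an even number of sector changes).
The coefficient of `ab` is `n Σ_{l<n-1} Σ_{|u|=l} Σ_{i,j} Σ_{|v|=n-2-l} k(i u j v) tr(Xᵇ_i ev⁰ u Xᵃ_j ev⁰ v)`.
`ev⁰ u ≠ 0` only for alternating `u` (`A⁰A⁰ = B⁰B⁰ = 0`), and then its entries are `(-t)^l` in the
sector {1,3}, `s^l` in {2,4}: entry (p, q) with p of type `u_1` (type 0: 1,2; type 1: 3,4) and q in the
same sector, of type the letter opposite to the last letter. The surviving pairs (edge b, edge a):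
(3→4, 2→1): words `1 (10..1) 0 (01..0)`, `l` odd, weight `s^l (-t)^(n-2-l)`; (4→3, 1→2): the same words,
weight `(-t)^l s^(n-2-l)`; (3→2, 4→1): alternating words, weight `-s^l (-t)^(n-2-l)`;
(2→3, 1→4): alternating words, weight `-(-t)^l s^(n-2-l)`; all others vanish by parity of `l`.
The word `1 alt(1,l) 0 alt(0,n-2-l)`, `l = 2m+1`, is a rotation of `wmix r m`; alternating words are
rotations of `alt true n`. -/
def X1S : Prop := ∀ (R : Type) [CommRing R] [Algebra ℚ R], ∀ (k : List Bool → ℚ), Cyc k →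
  ∀ (r : ℕ) (a b s t : R), 1 ≤ r → a * a = 0 → b * b = 0 →
    T k (2 * r + 2) (E0 R * MH a b s t) (E1 R * MH a b s t) =
      T k (2 * r + 2) (E0 R * MH 0 0 s t) (E1 R * MH 0 0 s t) +
      a * b * ((2 * r + 2 : ℕ) : R) * ∑ m ∈ Finset.range r,
        (k (alt true (2 * r + 2)) - k (wmix r m)) •
          (s ^ (2 * m + 1) * t ^ (2 * (r - 1 - m) + 1) + t ^ (2 * m + 1) * s ^ (2 * (r - 1 - m) + 1))

/-- [x2] the same for `MH (a+b) 0 s t`. PROOF: as [x1], with both edges of type `Mᵃ`: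
(1→2, 2→1) and (2→1, 1→2): words `0 (01)^m 0 (01)^(r-m)`, `l = 2m` even, `0 ≤ m ≤ r`, weights
`s^l t^(n-2-l)` and `t^l s^(n-2-l)`; (1→4, 4→1) and (4→1, 1→4): alternating words, `l = 2m`, weights
`-s^l t^(n-2-l)`, `-t^l s^(n-2-l)`; all others vanish by parity. -/
def X2S : Prop := ∀ (R : Type) [CommRing R] [Algebra ℚ R], ∀ (k : List Bool → ℚ), Cyc k →
  ∀ (r : ℕ) (a b s t : R), 1 ≤ r → a * a = 0 → b * b = 0 →
    T k (2 * r + 2) (E0 R * MH (a + b) 0 s t) (E1 R * MH (a + b) 0 s t) =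
      T k (2 * r + 2) (E0 R * MH 0 0 s t) (E1 R * MH 0 0 s t) +
      a * b * ((2 * r + 2 : ℕ) : R) * ∑ m ∈ Finset.range (r + 1),
        (k (wzz r m) - k (alt true (2 * r + 2))) •
          (s ^ (2 * m) * t ^ (2 * (r - m)) + t ^ (2 * m) * s ^ (2 * (r - m)))

end Pool.Agent.MP_a57f33_nt.BZ
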